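import Mathlib

/-!
# Number of changes of a Boolean function along a list
-/

namespace Pool.Agent.R539

/-- The number of consecutive pairs of the list on which `f` takes different values. -/
def cr {α : Type*} (f : α → Bool) : List α → ℕ
  | [] => 0
  | [_] => 0
  | a :: b :: l => (if f a = f b then 0 else 1) + cr f (b :: l)

section

variable {α β : Type*}

@[simp] theorem cr_nil (f : α → Bool) : cr f [] = 0 := rfl

@[simp] theorem cr_single (f : α → Bool) (a : α) : cr f [a] = 0 := rfl

@[simp] theorem cr_cons_cons (f : α → Bool) (a b : α) (l : List α) :
    cr f (a :: b :: l) = (if f a = f b then 0 else 1) + cr f (b :: l) := rfl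

theorem cr_congr {f g : α → Bool} : ∀ {l : List α}, (∀ a ∈ l, f a = g a) → cr f l = cr g l
  | [], _ => rfl
  | [_], _ => rfl
  | a :: b :: l, h => by
    rw [cr_cons_cons, cr_cons_cons, h a (by simp), h b (by simp),
      cr_congr (l := b :: l) (fun c hc => h c (List.mem_cons_of_mem _ hc))]

theorem cr_map (f : β → Bool) (g : α → β) : ∀ l : List α, cr f (l.map g) = cr (fun a => f (g a)) l
  | [] => rfl
  | [_] => rfl
  | a :: b :: l => by
    have := cr_map f g (b :: l)
    simp only [List.map_cons] at this ⊢
    rw [cr_cons_cons, cr_cons_cons, this]

/-- the complement -/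
theorem cr_not (f : α → Bool) : ∀ l : List α, cr (fun a => !(f a)) l = cr f l
  | [] => rfl
  | [_] => rfl
  | a :: b :: l => by
    rw [cr_cons_cons, cr_cons_cons, cr_not f (b :: l)]
    simp

theorem cr_const {f : α → Bool} {c : Bool} : ∀ {l : List α}, (∀ a ∈ l, f a = c) → cr f l = 0
  | [], _ => rfl
  | [_], _ => rfl
  | a :: b :: l, h => by
    rw [cr_cons_cons, h a (by simp), h b (by simp),
      cr_const (c := c) (l := b :: l) (fun c hc => h c (List.mem_cons_of_mem _ hc))]
    simp

theorem cr_le (f : α → Bool) : ∀ l : List α, cr f l ≤ l.length - 1
  | [] => by simp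
  | [_] => by simp
  | a :: b :: l => by
    have := cr_le f (b :: l)
    rw [cr_cons_cons]
    simp only [List.length_cons] at this ⊢
    split_ifs <;> omega

/-- concatenation -/
theorem cr_append (f : α → Bool) : ∀ (l l' : List α) {a b : α}, l.getLast? = some a →
    l'.head? = some b → cr f (l ++ l') = cr f l + (if f a = f b then 0 else 1) + cr f l'
  | [], _, _, _, h, _ => by simp at h
  | [x], [], _, _, _, h' => by simp at h'
  | [x], y :: l', a, b, h, h' => by
    simp only [List.getLast?_singleton, Option.some.injEq, List.head?_cons] at h h'
    subst h; subst h'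
    simp
  | x :: y :: l, l', a, b, h, h' => by
    have h2 : (y :: l).getLast? = some a := by
      rw [List.getLast?_cons_cons] at h
      exact h
    have := cr_append f (y :: l) l' h2 h'
    simp only [List.cons_append, cr_cons_cons] at this ⊢
    rw [this]
    omega

theorem cr_append_le (f : α → Bool) (l l' : List α) : cr f (l ++ l') ≤ cr f l + 1 + cr f l' := by
  rcases l.eq_nil_or_concat with rfl | ⟨l, a, rfl⟩
  · simp
  · cases l' with
    | nil => simp
    | cons b l' =>
      rw [cr_append f (l.concat a) (b :: l') (a := a) (b := b) (by simp) (by simp)]
      split_ifs <;> omega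

theorem cr_append_ge (f : α → Bool) (l l' : List α) : cr f l + cr f l' ≤ cr f (l ++ l') := by
  rcases l.eq_nil_or_concat with rfl | ⟨l, a, rfl⟩
  · simp
  · cases l' with
    | nil => simp
    | cons b l' =>
      rw [cr_append f (l.concat a) (b :: l') (a := a) (b := b) (by simp) (by simp)]
      split_ifs <;> omega

/-- a constant part before the list adds nothing -/
theorem cr_const_append {f : α → Bool} {c : Bool} {l l' : List α} (h : ∀ a ∈ l, f a = c)
    (h' : ∀ b, l'.head? = some b → f b = c) : cr f (l ++ l') = cr f l' := by
  rcases l.eq_nil_or_concat with rfl | ⟨l, a, rfl⟩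
  · simp
  · cases l' with
    | nil => rw [List.append_nil, cr_const h, cr_nil]
    | cons b l' =>
      rw [cr_append f (l.concat a) (b :: l') (a := a) (b := b) (by simp) (by simp), cr_const h,
        h a (by simp), h' b (by simp)]
      simp

/-- a constant part after the list adds nothing -/
theorem cr_append_const {f : α → Bool} {c : Bool} {l l' : List α} (h : ∀ a ∈ l', f a = c)
    (h' : ∀ b, l.getLast? = some b → f b = c) : cr f (l ++ l') = cr f l := by
  rcases l.eq_nil_or_concat with rfl | ⟨l, a, rfl⟩
  · rw [List.nil_append, cr_const h, cr_nil]
  · cases l' with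
    | nil => simp
    | cons b l' =>
      rw [cr_append f (l.concat a) (b :: l') (a := a) (b := b) (by simp) (by simp), cr_const h,
        h b (by simp), h' a (by simp)]
      simp

theorem cr_reverse (f : α → Bool) : ∀ l : List α, cr f l.reverse = cr f l
  | [] => rfl
  | [_] => rfl
  | a :: b :: l => by
    have h := cr_reverse f (b :: l)
    rw [List.reverse_cons, cr_append f _ _ (a := b) (b := a) (by simp) (by simp), h, cr_cons_cons]
    simp only [cr_single]
    by_cases hab : f a = f b
    · rw [if_pos hab, if_pos hab.symm]; omega
    · rw [if_neg hab, if_neg (fun h => hab h.symm)]; omega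

/-- `f` differs at the two ends: there is at least one change -/
theorem cr_pos {f : α → Bool} : ∀ {l : List α} {a b : α}, l.head? = some a → l.getLast? = some b →
    f a ≠ f b → 1 ≤ cr f l
  | [], _, _, h, _, _ => by simp at h
  | [x], a, b, h, h', hne => by
    simp only [List.head?_cons, Option.some.injEq, List.getLast?_singleton] at h h'
    subst h; subst h'
    exact absurd rfl hne
  | x :: y :: l, a, b, h, h', hne => by
    simp only [List.head?_cons, Option.some.injEq] at h
    subst h
    rw [List.getLast?_cons_cons] at h'
    rw [cr_cons_cons]
    by_cases hxy : f x = f y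
    · have := cr_pos (f := f) (l := y :: l) (a := y) (b := b) (by simp) h' (fun h => hne (hxy.trans h))
      omega
    · rw [if_neg hxy]; omega

/-- changing `f` at some places -/
theorem cr_le_countP (f g : α → Bool) : ∀ l : List α,
    cr f l ≤ cr g l + 2 * l.countP (fun a => !(f a == g a))
  | [] => by simp
  | [_] => by simp
  | a :: b :: l => by
    have key : ∀ (l : List α) (a : α),
        cr f (a :: l) + (if f a = g a then 0 else 1) ≤
          cr g (a :: l) + 2 * (a :: l).countP (fun a => !(f a == g a)) := by
      intro l
      induction l with
      | nil =>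
        intro a
        rw [List.countP_cons]
        by_cases h : f a = g a
        · simp [h]
        · have h' : (!(f a == g a)) = true := by simp [h]
          rw [if_neg h, if_pos h']
          simp
      | cons b l ih =>
        intro a
        have := ih b
        rw [cr_cons_cons, cr_cons_cons, List.countP_cons (a := a)]
        by_cases h : f a = g a
        · have h' : ¬ ((!(f a == g a)) = true) := by simp [h]
          rw [if_pos h, if_neg h']
          by_cases h2 : f b = g b
          · rw [if_pos h2] at this
            rw [h, h2]
            omega
          · rw [if_neg h2] at this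
            have h3 : (if f a = f b then 0 else 1) ≤ 1 := by split_ifs <;> omega
            omega
        · have h' : (!(f a == g a)) = true := by simp [h]
          rw [if_neg h, if_pos h']
          have h3 : (if f a = f b then 0 else 1) ≤ 1 := by split_ifs <;> omega
          omega
    have := key (b :: l) a
    omega

end

end Pool.Agent.R539
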