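import Pool.Agent.R539.PS.T5b

/-!
# The no case: a path with small stabbing number gives a Hamiltonian path
-/

namespace Pool.Agent.R539

namespace T5

open Pool.Agent.NPC

/-- a block-wise coordinate -/
def bc (f : ℕ → ℕ) (W u : ℕ) : ℕ := f (u / W) + u % W

theorem bc_strictMono {f : ℕ → ℕ} {W : ℕ} (hW : 0 < W) (hf : ∀ a, f a + W ≤ f (a + 1)) :
    StrictMono (bc f W) := by
  have hmono : Monotone f := monotone_nat_of_le_succ (fun a => by have := hf a; omega)
  intro u v huv
  unfold bc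
  have h1 : u / W ≤ v / W := Nat.div_le_div_right huv.le
  rcases Nat.eq_or_lt_of_le h1 with h2 | h2
  · have h3 := Nat.div_add_mod u W
    have h4 := Nat.div_add_mod v W
    rw [h2] at h3 ⊢
    omega
  · have h3 : f (u / W + 1) ≤ f (v / W) := hmono h2
    have h4 := hf (u / W)
    have h5 := Nat.mod_lt u hW
    omega

theorem pow_step {c W a : ℕ} (hc : W ≤ c) : 2 ^ (c * (a + 1)) + W ≤ 2 ^ (c * (a + 1 + 1)) := by
  have h1 : 2 ^ (c * (a + 1 + 1)) = 2 ^ (c * (a + 1)) * 2 ^ c := by rw [← pow_add]; ring_nf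
  have h2 : c + 1 ≤ 2 ^ c := Nat.lt_two_pow_self
  have h3 : 1 ≤ 2 ^ (c * (a + 1)) := Nat.one_le_two_pow
  rw [h1]
  calc 2 ^ (c * (a + 1)) + W ≤ 2 ^ (c * (a + 1)) + c * 2 ^ (c * (a + 1)) := by
        have := Nat.mul_le_mul hc h3
        omega
    _ = 2 ^ (c * (a + 1)) * (c + 1) := by ring
    _ ≤ 2 ^ (c * (a + 1)) * 2 ^ c := Nat.mul_le_mul_left _ h2

theorem xc_mono {W : ℕ} (hW : 0 < W) : StrictMono (bc (xc W) W) :=
  bc_strictMono hW (fun _ => pow_step le_rfl)

theorem yc_mono {W r : ℕ} (hW : 0 < W) : StrictMono (bc (yc W r) W) :=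
  bc_strictMono hW (fun _ => pow_step (by nlinarith))

/-- rank cells to real points -/
def rl (W r : ℕ) (p : Cell) : ℚ × ℚ := ((bc (xc W) W p.1 : ℚ), (bc (yc W r) W p.2 : ℚ))

theorem rl_inj {W r : ℕ} (hW : 0 < W) : Function.Injective (rl W r) := by
  intro p p' h
  unfold rl at h
  simp only [Prod.mk.injEq, Nat.cast_inj] at h
  exact Prod.ext ((xc_mono hW).injective h.1) ((yc_mono hW).injective h.2)

theorem bc_block {f : ℕ → ℕ} {W i t : ℕ} (ht : t < W) : bc f W (i * W + t) = f i + t := by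
  unfold bc
  rw [Nat.add_comm (i * W) t, Nat.add_mul_div_right _ _ (by omega), Nat.div_eq_of_lt ht,
    Nat.zero_add, Nat.add_mul_mod_self_right, Nat.mod_eq_of_lt ht]

theorem stab_eq {a b c : ℝ} {G : Cell → ℚ × ℚ} {side : Cell → Bool} : ∀ {l : List Cell},
    (∀ p ∈ l, (side p = true ↔ 0 < a * (G p).1 + b * (G p).2 - c) ∧
      a * (G p).1 + b * (G p).2 - c ≠ 0) →
    cr side l = stabCount a b c (l.map G)
  | [], _ => by simp [stabCount]
  | [x], _ => by simp [stabCount]
  | x :: y :: l, hl => by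
    have ih := stab_eq (a := a) (b := b) (c := c) (G := G) (side := side) (l := y :: l)
      (fun p hp => hl p (List.mem_cons_of_mem _ hp))
    have hx := hl x (by simp)
    have hy := hl y (by simp)
    have h1 : stabCount a b c ((x :: y :: l).map G) =
        stabCount a b c ((y :: l).map G) +
          (if (a * (G x).1 + b * (G x).2 - c) * (a * (G y).1 + b * (G y).2 - c) < 0
            then 1 else 0) := by
      unfold stabCount
      simp only [List.map_cons, List.tail_cons, List.zip_cons_cons, List.countP_cons]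
      simp only [decide_eq_true_eq]
    rw [h1, ← ih, cr_cons_cons, Nat.add_comm]
    congr 1
    generalize a * ((G x).1 : ℝ) + b * ((G x).2 : ℝ) - c = X at hx ⊢
    generalize a * ((G y).1 : ℝ) + b * ((G y).2 : ℝ) - c = Y at hy ⊢
    by_cases h2 : side x = true
    · have h3 := hx.1.mp h2
      by_cases h4 : side y = true
      · have h5 := hy.1.mp h4
        rw [if_pos (by rw [h2, h4]), if_neg (by have := mul_pos h3 h5; linarith)]
      · have h5 : Y < 0 := lt_of_le_of_ne (not_lt.mp (fun h => h4 (hy.1.mpr h))) hy.2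
        rw [if_neg (by rw [h2]; exact fun h => h4 h.symm), if_pos (mul_neg_of_pos_of_neg h3 h5)]
    · have h3 : X < 0 := lt_of_le_of_ne (not_lt.mp (fun h => h2 (hx.1.mpr h))) hx.2
      by_cases h4 : side y = true
      · have h5 := hy.1.mp h4
        rw [if_neg (by rw [h4]; exact h2), if_pos (mul_neg_of_neg_of_pos h3 h5)]
      · have h5 : Y < 0 := lt_of_le_of_ne (not_lt.mp (fun h => h4 (hy.1.mpr h))) hy.2
        have h6 : side x = side y := by
          rw [Bool.not_eq_true] at h2 h4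
          rw [h2, h4]
        rw [if_pos h6, if_neg (by have := mul_pos_of_neg_of_neg h3 h5; linarith)]

theorem cr_u_le {W r k g : ℕ} (hW : 0 < W) {l : List Cell}
    (hst : ∀ a b c : ℝ, (a ≠ 0 ∨ b ≠ 0) → stabCount a b c (l.map (rl W r)) ≤ k) :
    cr (fun p : Cell => decide (g ≤ p.1)) l ≤ k := by
  have h := hst 1 0 ((bc (xc W) W g : ℝ) - 1 / 2) (Or.inl one_ne_zero)
  rw [← stab_eq (side := fun p : Cell => decide (g ≤ p.1))] at h
  · exact h
  · intro p _
    unfold rl
    simp only [Rat.cast_natCast, decide_eq_true_eq, one_mul, zero_mul, add_zero]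
    by_cases hg : g ≤ p.1
    · have h1 : bc (xc W) W g ≤ bc (xc W) W p.1 := (xc_mono hW).monotone hg
      have h2 : (bc (xc W) W g : ℝ) ≤ bc (xc W) W p.1 := by exact_mod_cast h1
      have h3 : (0 : ℝ) < (bc (xc W) W p.1 : ℝ) - ((bc (xc W) W g : ℝ) - 1 / 2) := by linarith
      exact ⟨⟨fun _ => h3, fun _ => hg⟩, h3.ne'⟩
    · have h1 : bc (xc W) W p.1 < bc (xc W) W g := (xc_mono hW) (not_le.mp hg)
      have h2 : (bc (xc W) W p.1 : ℝ) + 1 ≤ bc (xc W) W g := by exact_mod_cast h1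
      have h3 : (bc (xc W) W p.1 : ℝ) - ((bc (xc W) W g : ℝ) - 1 / 2) < 0 := by linarith
      exact ⟨⟨fun h => absurd h hg, fun h => absurd h (not_lt.mpr h3.le)⟩, h3.ne⟩

theorem cr_v_le {W r k g : ℕ} (hW : 0 < W) {l : List Cell}
    (hst : ∀ a b c : ℝ, (a ≠ 0 ∨ b ≠ 0) → stabCount a b c (l.map (rl W r)) ≤ k) :
    cr (fun p : Cell => decide (g ≤ p.2)) l ≤ k := by
  have h := hst 0 1 ((bc (yc W r) W g : ℝ) - 1 / 2) (Or.inr one_ne_zero)
  rw [← stab_eq (side := fun p : Cell => decide (g ≤ p.2))] at h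
  · exact h
  · intro p _
    unfold rl
    simp only [Rat.cast_natCast, decide_eq_true_eq, one_mul, zero_mul, zero_add]
    by_cases hg : g ≤ p.2
    · have h1 : bc (yc W r) W g ≤ bc (yc W r) W p.2 := (yc_mono hW).monotone hg
      have h2 : (bc (yc W r) W g : ℝ) ≤ bc (yc W r) W p.2 := by exact_mod_cast h1
      have h3 : (0 : ℝ) < (bc (yc W r) W p.2 : ℝ) - ((bc (yc W r) W g : ℝ) - 1 / 2) := by
        linarith
      exact ⟨⟨fun _ => h3, fun _ => hg⟩, h3.ne'⟩
    · have h1 : bc (yc W r) W p.2 < bc (yc W r) W g := (yc_mono hW) (not_le.mp hg)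
      have h2 : (bc (yc W r) W p.2 : ℝ) + 1 ≤ bc (yc W r) W g := by exact_mod_cast h1
      have h3 : (bc (yc W r) W p.2 : ℝ) - ((bc (yc W r) W g : ℝ) - 1 / 2) < 0 := by linarith
      exact ⟨⟨fun h => absurd h hg, fun h => absurd h (not_lt.mpr h3.le)⟩, h3.ne⟩

theorem exists_preperm {α β : Type*} {G : β → α} {P : List α} {l : List β}
    (h : P.Perm (l.map G)) : ∃ l' : List β, l'.Perm l ∧ P = l'.map G := by
  have h1 : List.Forall₂ (fun a b => a = G b) (l.map G) l := by
    induction l generalizing P with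
    | nil => exact List.Forall₂.nil
    | cons a l ih => exact List.Forall₂.cons rfl (ih (List.Perm.refl _))
  obtain ⟨w, hw1, hw2⟩ := List.perm_comp_forall₂ h h1
  refine ⟨w, hw2, ?_⟩
  clear h h1 hw2
  induction hw1 with
  | nil => rfl
  | cons h _ ih => rw [List.map_cons, h, ih]

section

variable {w h : ℕ} {q : List Cell}

theorem ptsN_eq {B W r : ℕ} (hB : 0 < B) (hW : W = B + (2 * (w + h + 4) + 4))
    (hbox : ∀ p ∈ q, p.1 ≤ w ∧ p.2 ≤ h) :
    ((List.range r).flatMap fun j => (List.range r).flatMap fun i =>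
      tileP w h B W r q i j).map toQ = (ptsR w h B W r q).map (rl W r) := by
  unfold ptsR
  simp only [List.map_flatMap]
  refine List.flatMap_congr (fun j _ => List.flatMap_congr (fun i _ => ?_))
  unfold tileP
  rw [List.map_map, List.map_map]
  refine List.map_congr_left (fun t ht => ?_)
  rw [tileG_eq, List.mem_map] at ht
  obtain ⟨t', ht', rfl⟩ := ht
  have h1 := ofs_lt (l := i) hB
  have h2 := ofs_lt (l := j) hB
  have h3 := rf_lt (i := i) (tileT_lt hbox (W := W) (by omega) (by omega) ht')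
  simp only [Function.comp, toQ, rl, glob]
  rw [bc_block h3.1, bc_block h3.2]

theorem ptsR_length {B W r Nt : ℕ} (hB : 0 < B) (hW : W = B + (2 * (w + h + 4) + 4))
    (hNt : Nt + 4 * (w + h) + 5 = 2 * W + 4 * q.length) :
    (ptsR w h B W r q).length = r * r * Nt := by
  have h1 : ∀ i j, ((tileG w h B W q i j).map (glob W i j)).length = Nt := by
    intro i j
    have h1 := ofs_lt (l := i) hB
    have h2 := ofs_lt (l := j) hB
    have h3 := tileT_length (w := w) (h := h) (W := W) (q := q) (x := ofs B j) (y := ofs B i)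
      (by omega) (by omega)
    rw [tileG_eq, List.length_map, List.length_map]
    omega
  unfold ptsR
  simp only [List.length_flatMap, h1]
  simp
  ring

theorem ptsR_lt {B W r : ℕ} (hB : 0 < B) (hW : W = B + (2 * (w + h + 4) + 4))
    (hbox : ∀ p ∈ q, p.1 ≤ w ∧ p.2 ≤ h) : ∀ d ∈ ptsR w h B W r q, d.1 < r * W ∧ d.2 < r * W := by
  intro d hd
  obtain ⟨i, hi, j, hj, t, ht, rfl⟩ := mem_ptsR.mp hd
  have h1 := ofs_lt (l := i) hB
  have h2 := ofs_lt (l := j) hB
  have h3 := rf_lt (i := i) (tileT_lt hbox (W := W) (by omega) (by omega) ht)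
  unfold glob
  have h4 : (i + 1) * W ≤ r * W := Nat.mul_le_mul_right _ hi
  have h5 : (j + 1) * W ≤ r * W := Nat.mul_le_mul_right _ hj
  rw [Nat.add_mul, Nat.one_mul] at h4 h5
  simp only
  omega

/-- an unspoiled copy gives a Hamiltonian path -/
theorem pullback {B W r : ℕ} (hB : 0 < B) (hW : W = B + (2 * (w + h + 4) + 4))
    (hq : q.Nodup) (hbox : ∀ p ∈ q, p.1 ≤ w ∧ p.2 ≤ h) (hs : (0, 0) ∈ q) (ht : (w, h) ∈ q)
    {f : ℕ → Cell} {n : ℕ} (hinj : ∀ i < n, ∀ j < n, f i = f j → i = j)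
    (hmem : ∀ i < n, f i ∈ ptsR w h B W r q) (hsur : ∀ d ∈ ptsR w h B W r q, ∃ i < n, f i = d)
    {i j c : ℕ} (hi : i < r) (hj : j < r) (hc : c < 4)
    (h0 : ∀ p ∈ q, f 0 ≠ Ph w h B W i j c p) (hn : ∀ p ∈ q, f (n - 1) ≠ Ph w h B W i j c p)
    (hadj1 : ∀ m, m + 1 < n → (∃ p ∈ q, f m = Ph w h B W i j c p) → UAdj (f m) (f (m + 1)))
    (hadj2 : ∀ m, m + 1 < n → (∃ p ∈ q, f (m + 1) = Ph w h B W i j c p) →
      UAdj (f (m + 1)) (f m)) :
    HamPath q (0, 0) (w, h) := by
  classical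
  obtain ⟨eL, eR, hiso⟩ := isolG (r := r) (i := i) (j := j) hB hW hbox hc
  set A : Cell → Prop := fun d => ∃ p ∈ q, d = Ph w h B W i j c p with hA
  have hcross : ∀ x y, y ∈ ptsR w h B W r q → A x → ¬ A y → UAdj x y →
      (x = Ph w h B W i j c (0, 0) ∧ y = eL) ∨ (x = Ph w h B W i j c (w, h) ∧ y = eR) := by
    rintro x y hy ⟨p, hp, rfl⟩ hny hxy
    rcases hiso p hp y hy hxy with h1 | ⟨h1, h2⟩ | ⟨h1, h2⟩
    · exact absurd h1 hny
    · left; exact ⟨by rw [h1], h2⟩
    · right; exact ⟨by rw [h1], h2⟩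
  obtain ⟨a, b, hab, hbn, hAiff, hends⟩ := contigF hinj (A := A)
    (s := Ph w h B W i j c (0, 0)) (t := Ph w h B W i j c (w, h)) (eL := eL) (eR := eR)
    (fun m hm h1 h2 => hcross _ _ (hmem _ hm) h1 h2 (hadj1 m hm h1))
    (fun m hm h1 h2 => hcross _ _ (hmem _ (by omega)) h2 h1 (hadj2 m hm h2))
    (fun ⟨p, hp, h1⟩ => h0 p hp h1) (fun ⟨p, hp, h1⟩ => hn p hp h1)
    (by
      obtain ⟨m, hm, h1⟩ := hsur _ (Ph_mem (W := W) (B := B) (h := h) (w := w) (c := c) hi hj hs)
      exact ⟨m, hm, (0, 0), hs, h1⟩)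
  -- the preimages
  have hg : ∀ m, ∃ p, a ≤ m → m < b → (p ∈ q ∧ f m = Ph w h B W i j c p) := by
    intro m
    by_cases hm : a ≤ m ∧ m < b
    · obtain ⟨p, hp, h1⟩ := (hAiff m (by omega)).mpr hm
      exact ⟨p, fun _ _ => ⟨hp, h1⟩⟩
    · exact ⟨(0, 0), fun h1 h2 => absurd ⟨h1, h2⟩ hm⟩
  choose g hg using hg
  set l : List Cell := (List.range (b - a)).map (fun m => g (a + m)) with hl
  have hPinj : ∀ p ∈ q, ∀ p' ∈ q, Ph w h B W i j c p = Ph w h B W i j c p' → p = p' :=
    fun p hp p' hp' he => (Ph_inj hB hW hc hc (hbox p hp) (hbox p' hp') he).2.2.2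
  have hlnd : l.Nodup := by
    rw [hl]
    refine List.Nodup.map_on ?_ List.nodup_range
    intro m hm m' hm' he
    rw [List.mem_range] at hm hm'
    have h1 := (hg (a + m) (by omega) (by omega)).2
    have h2 := (hg (a + m') (by omega) (by omega)).2
    have h3 := hinj (a + m) (by omega) (a + m') (by omega) (by rw [h1, h2, he])
    omega
  have hlmem : ∀ p, p ∈ l ↔ p ∈ q := by
    intro p
    rw [hl, List.mem_map]
    constructor
    · rintro ⟨m, hm, rfl⟩
      rw [List.mem_range] at hm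
      exact (hg (a + m) (by omega) (by omega)).1
    · intro hp
      obtain ⟨m, hm, h1⟩ := hsur _ (Ph_mem (W := W) (B := B) (h := h) (w := w) (c := c) hi hj hp)
      have h2 := (hAiff m hm).mp ⟨p, hp, h1⟩
      refine ⟨m - a, List.mem_range.mpr (by omega), ?_⟩
      have h3 : a + (m - a) = m := by omega
      rw [h3]
      have h4 := hg m h2.1 h2.2
      exact hPinj _ h4.1 _ hp (h4.2.symm.trans h1)
  have hperm : l.Perm q := (List.perm_ext_iff_of_nodup hlnd hq).mpr hlmem
  have hlen : l.length = b - a := by rw [hl]; simp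
  have hchain : l.IsChain UAdj := by
    rw [List.isChain_iff_getElem]
    intro m hm
    rw [hlen] at hm
    simp only [hl, List.getElem_map, List.getElem_range]
    have h1 := hg (a + m) (by omega) (by omega)
    have h2 := hg (a + (m + 1)) (by omega) (by omega)
    have h3 := hadj1 (a + m) (by omega) ⟨_, h1.1, h1.2⟩
    rw [h1.2, show a + m + 1 = a + (m + 1) by ring, h2.2,
      Ph_adj hB hW (hbox _ h1.1) (hbox _ h2.1)] at h3
    exact h3
  have hhead : l.head? = some (g a) := by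
    have h1 : 0 < b - a := by omega
    rw [hl, List.head?_map, List.head?_range]
    simp [h1.ne']
  have hlast : l.getLast? = some (g (b - 1)) := by
    rw [List.getLast?_eq_getElem?, hlen]
    have h1 : b - a - 1 < l.length := by omega
    rw [List.getElem?_eq_getElem h1]
    simp only [hl, List.getElem_map, List.getElem_range]
    congr 2
    omega
  have hga := hg a le_rfl hab
  have hgb := hg (b - 1) (by omega) (by omega)
  rcases hends with ⟨h1, h2⟩ | ⟨h1, h2⟩
  · have h3 : g a = (0, 0) := hPinj _ hga.1 _ hs (hga.2.symm.trans h1)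
    have h4 : g (b - 1) = (w, h) := hPinj _ hgb.1 _ ht (hgb.2.symm.trans h2)
    exact ⟨l, hperm, hchain, by rw [hhead, h3], by rw [hlast, h4]⟩
  · have h3 : g a = (w, h) := hPinj _ hga.1 _ ht (hga.2.symm.trans h1)
    have h4 : g (b - 1) = (0, 0) := hPinj _ hgb.1 _ hs (hgb.2.symm.trans h2)
    refine ⟨l.reverse, (List.reverse_perm l).trans hperm, ?_, ?_, ?_⟩
    · rw [List.isChain_reverse]
      refine hchain.imp ?_
      intro x y hxy
      unfold UAdj at hxy ⊢
      omega
    · rw [List.head?_reverse, hlast, h4]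
    · rw [List.getLast?_reverse, hhead, h3]


/-- the whole argument with abstract parameters -/
theorem core {B W r E K Z R k Nt : ℕ} (hB : B = 4 * (E + 1) * (2 * (w + h + 4) + 4))
    (hW : W = B + (2 * (w + h + 4) + 4)) (hK : K = 2 * B + 2 * E) (hZ : 0 < Z)
    (hR : R = 4 * W * Z) (hr : r = 2 * B * R) (hk : k = R * K + Z)
    (hNtE : Nt + 1 = 2 * W + 2 * E) (hNt : Nt + 4 * (w + h) + 5 = 2 * W + 4 * q.length)
    (hq : q.Nodup) (hbox : ∀ p ∈ q, p.1 ≤ w ∧ p.2 ≤ h) (hs : (0, 0) ∈ q) (ht : (w, h) ∈ q)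
    {PR : List Cell} (hPR : PR.Perm (ptsR w h B W r q)) (hPRnd : PR.Nodup)
    (hst : ∀ a b c : ℝ, (a ≠ 0 ∨ b ≠ 0) → stabCount a b c (PR.map (rl W r)) ≤ k) :
    HamPath q (0, 0) (w, h) := by
  classical
  have hB0 : 0 < B := by rw [hB]; positivity
  have hW0 : 0 < W := by omega
  have hR0 : 0 < R := by rw [hR]; positivity
  have hr0 : 0 < r := by rw [hr]; positivity
  have hlen : PR.length = r * r * Nt := by
    rw [hPR.length_eq, ptsR_length hB0 hW hNt]
  have hMpos : 0 < r * W := by positivity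
  have hsum := sum_dst_le (l := PR) (M := r * W) (k := k)
    (fun p hp => ptsR_lt hB0 hW hbox p (hPR.mem_iff.mp hp)) hMpos
    (fun g _ _ => cr_u_le hW0 hst) (fun g _ _ => cr_v_le hW0 hst)
  obtain ⟨n, hn⟩ : ∃ n, n = PR.length := ⟨_, rfl⟩
  obtain ⟨f, hf⟩ : ∃ f : ℕ → Cell, f = fun i => PR.getD i (0, 0) := ⟨_, rfl⟩
  have hf' : ∀ i, PR.getD i (0, 0) = f i := fun i => by rw [hf]
  rw [← hn] at hsum hlen
  simp only [hf'] at hsum
  have hfget : ∀ i (hi : i < PR.length), f i = PR[i] := fun i hi => by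
    rw [hf]; exact List.getD_eq_getElem _ _ hi
  have hinj : ∀ i < n, ∀ j < n, f i = f j → i = j := by
    intro i hi j hj he
    rw [hn] at hi hj
    rw [hfget i hi, hfget j hj] at he
    exact (List.Nodup.getElem_inj_iff hPRnd).mp he
  have hmem : ∀ i < n, f i ∈ ptsR w h B W r q := by
    intro i hi
    rw [hn] at hi
    rw [hfget i hi, ← hPR.mem_iff]
    exact List.getElem_mem hi
  have hsur : ∀ d ∈ ptsR w h B W r q, ∃ i < n, f i = d := by
    intro d hd
    rw [← hPR.mem_iff, List.mem_iff_getElem] at hd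
    obtain ⟨i, hi, h1⟩ := hd
    exact ⟨i, by rw [hn]; exact hi, by rw [hfget i hi, h1]⟩
  -- counting
  obtain ⟨bad, hbad⟩ : ∃ bad : Finset ℕ, bad =
    (Finset.range (n - 1)).filter (fun i => 2 ≤ dst (f i) (f (i + 1))) := ⟨_, rfl⟩
  have hcount : (n - 1) + bad.card ≤ ∑ i ∈ Finset.range (n - 1), dst (f i) (f (i + 1)) := by
    have h1 : (n - 1) + bad.card =
        ∑ i ∈ Finset.range (n - 1), (1 + if 2 ≤ dst (f i) (f (i + 1)) then 1 else 0) := by
      rw [Finset.sum_add_distrib, hbad, Finset.card_filter]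
      simp
    rw [h1]
    refine Finset.sum_le_sum (fun i hi => ?_)
    rw [Finset.mem_range] at hi
    have h2 : 1 ≤ dst (f i) (f (i + 1)) := by
      refine dst_pos (fun he => ?_)
      have := hinj i (by omega) (i + 1) (by omega) he
      omega
    split_ifs with h3 <;> omega
  have hbadle : r * r * Nt - 1 + bad.card ≤ 2 * ((r * W - 1) * k) := by
    rw [← hlen]
    exact hcount.trans hsum
  have hfinal := param (by omega) hB hW hK hZ hR hr hk hNtE hbadle
  -- spoil set
  obtain ⟨Sp, hSp⟩ : ∃ Sp : Finset Cell, Sp =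
    {f 0, f (n - 1)} ∪ (bad.image f ∪ bad.image (fun i => f (i + 1))) := ⟨_, rfl⟩
  have hSpcard : Sp.card ≤ 2 + 2 * bad.card := by
    have h1 : ({f 0, f (n - 1)} : Finset Cell).card ≤ 2 := Finset.card_le_two
    have h2 : (bad.image f).card ≤ bad.card := Finset.card_image_le
    have h3 : (bad.image (fun i => f (i + 1))).card ≤ bad.card := Finset.card_image_le
    have h4 := Finset.card_union_le ({f 0, f (n - 1)} : Finset Cell)
      (bad.image f ∪ bad.image (fun i => f (i + 1)))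
    have h5 := Finset.card_union_le (bad.image f) (bad.image (fun i => f (i + 1)))
    rw [hSp]
    omega
  have hSp0 : f 0 ∈ Sp := by rw [hSp]; simp
  have hSpn : f (n - 1) ∈ Sp := by rw [hSp]; simp
  have hSp1 : ∀ m ∈ bad, f m ∈ Sp := by
    intro m hm
    rw [hSp, Finset.mem_union, Finset.mem_union, Finset.mem_image]
    exact Or.inr (Or.inl ⟨m, hm, rfl⟩)
  have hSp2 : ∀ m ∈ bad, f (m + 1) ∈ Sp := by
    intro m hm
    rw [hSp, Finset.mem_union, Finset.mem_union, Finset.mem_image, Finset.mem_image]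
    exact Or.inr (Or.inr ⟨m, hm, rfl⟩)
  obtain ⟨I, hI⟩ : ∃ I : Finset (ℕ × ℕ × ℕ),
    I = Finset.range r ×ˢ (Finset.range r ×ˢ Finset.range 4) := ⟨_, rfl⟩
  have hIcard : I.card = 4 * (r * r) := by
    rw [hI, Finset.card_product, Finset.card_product, Finset.card_range, Finset.card_range]
    ring
  have hImem : ∀ z ∈ I, z.1 < r ∧ z.2.1 < r ∧ z.2.2 < 4 := by
    intro z hz
    simpa only [hI, Finset.mem_product, Finset.mem_range] using hz
  obtain ⟨z, hz, hzun⟩ : ∃ z ∈ I, ∀ d ∈ Sp, ∀ p ∈ q, d ≠ Ph w h B W z.1 z.2.1 z.2.2 p := by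
    by_contra hcon
    push Not at hcon
    choose! d hd p hp he using hcon
    have h1 : I.card ≤ Sp.card := by
      refine Finset.card_le_card_of_injOn d (fun z hz => hd z hz) ?_
      intro z hz z' hz' hzz
      have hz1 := Finset.mem_coe.mp hz
      have hz2 := Finset.mem_coe.mp hz'
      rw [he z hz1, he z' hz2] at hzz
      have h2 := Ph_inj hB0 hW (hImem z hz1).2.2 (hImem z' hz2).2.2
        (hbox _ (hp z hz1)) (hbox _ (hp z' hz2)) hzz
      exact Prod.ext h2.1 (Prod.ext h2.2.1 h2.2.2.1)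
    omega
  have hz' := hImem z hz
  have hgood : ∀ m, m + 1 < n → m ∉ bad → dst (f m) (f (m + 1)) = 1 := by
    intro m hm hmb
    have h2 : 1 ≤ dst (f m) (f (m + 1)) := by
      refine dst_pos (fun he => ?_)
      have := hinj m (by omega) (m + 1) (by omega) he
      omega
    by_contra h3
    exact hmb (by rw [hbad, Finset.mem_filter, Finset.mem_range]; omega)
  refine pullback hB0 hW hq hbox hs ht hinj hmem hsur hz'.1 hz'.2.1 hz'.2.2
    (fun p hp => hzun _ hSp0 p hp) (fun p hp => hzun _ hSpn p hp) ?_ ?_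
  · rintro m hm ⟨p, hp, h1⟩
    exact dst_one (hgood m hm (fun hmb => hzun (f m) (hSp1 m hmb) p hp h1))
  · rintro m hm ⟨p, hp, h1⟩
    have h2 := dst_one (hgood m hm (fun hmb => hzun (f (m + 1)) (hSp2 m hmb) p hp h1))
    unfold UAdj at h2 ⊢
    omega

end

end T5

open T5

theorem no_case {w h : ℕ} (hw : 0 < w) (hh : 0 < h) {q : List Cell} (hq : q.Nodup)
    (hbox : ∀ p ∈ q, p.1 ≤ w ∧ p.2 ≤ h) (hs : (0, 0) ∈ q) (ht : (w, h) ∈ q)
    (hL : w + h + 1 ≤ q.length)
    (hP : PathStab (instOf w h q)) : HamPath q (0, 0) (w, h) := by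
  obtain ⟨hnd, _, P, hperm, hst⟩ := hP
  have hB : 0 < pB w h q.length := by unfold pB; positivity
  have hpts : (instOf w h q).1 = (ptsR w h (pB w h q.length) (pW w h q.length)
      (pr w h q.length) q).map (rl (pW w h q.length) (pr w h q.length)) :=
    ptsN_eq hB rfl hbox
  rw [hpts] at hperm hnd
  obtain ⟨PR, hPR, rfl⟩ := exists_preperm hperm
  have hPRnd : PR.Nodup := by
    have h1 : (PR.map (rl (pW w h q.length) (pr w h q.length))).Nodup :=
      hperm.nodup_iff.mpr hnd
    exact List.Nodup.of_map _ h1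
  have hW0 : 0 < pW w h q.length := by unfold pW; omega
  exact core (B := pB w h q.length) (W := pW w h q.length) (r := pr w h q.length)
    (E := pE w h q.length) (K := pK w h q.length) (Z := pZ w h q.length)
    (R := pR w h q.length) (k := pk w h q.length) (Nt := pN w h q.length)
    rfl rfl rfl (by unfold pZ; omega) rfl rfl rfl (by unfold pN; omega)
    (by unfold pN pE; omega) hq hbox hs ht hPR hPRnd hst

end Pool.Agent.R539
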