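import Pool.Agent.R539.PS.SDefs

/-!
# The reduction is computable in polynomial time
-/

namespace Pool.Agent.NPC.R539PS

open Pool.Agent.R539

section Gen

variable {α β γ : Type} [TEnc α] [TEnc β] [TEnc γ]

theorem poly_nat_int {f : α → ℕ} (hf : Poly f) : Poly (fun a => ((f a : ℕ) : ℤ)) :=
  Poly.of_toT <| (Poly.toT' (Poly.pair (Poly.const false) hf)).congr fun a => by
    change toT (false, f a) = toT (decide (((f a : ℕ) : ℤ) < 0), ((f a : ℕ) : ℤ).natAbs)
    have h1 : decide (((f a : ℕ) : ℤ) < 0) = false := by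
      rw [decide_eq_false_iff_not]; omega
    rw [h1, Int.natAbs_natCast]

theorem poly_nat_rat {f : α → ℕ} (hf : Poly f) : Poly (fun a => ((f a : ℕ) : ℚ)) :=
  Poly.of_toT <| (Poly.toT' (Poly.pair (poly_nat_int hf) (Poly.const 1))).congr fun a => by
    change toT (((f a : ℕ) : ℤ), 1) = toT ((((f a : ℕ) : ℚ)).num, (((f a : ℕ) : ℚ)).den)
    simp

theorem poly_replicate' {n : α → ℕ} {b : α → β} (hn : UPoly n) (hb : Poly b) :
    Poly (fun a => List.replicate (n a) (b a)) :=
  (Poly.map (F := fun a _ => b a) hn (hb.comp (Poly.fst Poly.id))).congr fun a => by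
    rw [List.map_replicate]

theorem poly_pow2 {n : α → ℕ} (hn : UPoly n) : Poly (fun a => 2 ^ (n a)) :=
  (Poly.valBits (Poly.append (poly_replicate' hn (Poly.const false)) (Poly.const [true]))).congr
    fun a => by rw [valB_replicate_false]; simp

theorem poly_vr {a b k : α → ℕ} (ha : Poly a) (hb : Poly b) (hk : UPoly k) :
    Poly (fun x => vr (a x) (b x) (k x)) :=
  Poly.map (F := fun x t => (a x, b x + t)) hk.range
    (Poly.pair (ha.comp (Poly.fst Poly.id))
      (Poly.add (hb.comp (Poly.fst Poly.id)) (Poly.snd Poly.id)))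

theorem poly_hr {a b k : α → ℕ} (ha : Poly a) (hb : Poly b) (hk : UPoly k) :
    Poly (fun x => hr (a x) (b x) (k x)) :=
  Poly.map (F := fun x t => (a x + t, b x)) hk.range
    (Poly.pair (Poly.add (ha.comp (Poly.fst Poly.id)) (Poly.snd Poly.id))
      (hb.comp (Poly.fst Poly.id)))

theorem poly_tr {a b : α → ℕ} {l : α → List Cell} (ha : Poly a) (hb : Poly b) (hl : Poly l) :
    Poly (fun x => tr (a x) (b x) (l x)) :=
  Poly.map (F := fun x (p : Cell) => (a x + p.1, b x + p.2)) hl
    (Poly.pair (Poly.add (ha.comp (Poly.fst Poly.id)) (Poly.fst (Poly.snd Poly.id)))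
      (Poly.add (hb.comp (Poly.fst Poly.id)) (Poly.snd (Poly.snd Poly.id))))

theorem upoly_sub {m n : α → ℕ} (hm : UPoly m) (hn : Poly n) : UPoly (fun a => m a - n a) :=
  UPoly.of_le (Poly.sub hm.toPoly hn) hm fun _ => Nat.sub_le _ _

end Gen

/-! ### The cells of a formula -/

theorem poly_ringC {α : Type} [TEnc α] {lo : α → Bool} {k : α → ℕ} (hlo : Poly lo) (hk : Poly k) :
    Poly (fun x => ringC (lo x) (k x)) := by
  have h : ∀ x, ringC (lo x) (k x) =
      (vr 2 2 3 ++ vr 2 9 4 ++ [(3, 2), (3, 11), (3, 12)] ++ vr 4 2 3 ++ vr 4 9 3 ++ vr 3 4 6 ++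
      (bif lo x then [(2, 1), (3, 1)] else [])) ++
      (bif decide (k x = 1) then [(2, 6), (2, 7)] else
        bif decide (k x = 2) then [(4, 6), (4, 7)] else []) := by
    intro x
    unfold ringC
    rw [Bool.cond_decide, Bool.cond_decide]
    cases lo x <;> rfl
  refine Poly.congr (Poly.append (Poly.append (Poly.const _)
    (Poly.cond hlo (Poly.const _) (Poly.const _))) (Poly.cond (Poly.decide_eq hk (Poly.const 1))
    (Poly.const _) (Poly.cond (Poly.decide_eq hk (Poly.const 2)) (Poly.const _) (Poly.const _))))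
    fun x => (h x).symm

theorem poly_tileC {α : Type} [TEnc α] {lo : α → Bool} {k : α → ℕ} (hlo : Poly lo) (hk : Poly k) :
    Poly (fun x => tileC (lo x) (k x)) :=
  Poly.append (Poly.const _) (poly_ringC hlo hk)

theorem poly_tileL {α : Type} [TEnc α] {ev : α → Bool} (h : Poly ev) :
    Poly (fun x => tileL (ev x)) := by
  refine Poly.congr (Poly.cond h (Poly.const (tileL true)) (Poly.const (tileL false))) fun x => ?_
  cases ev x <;> rfl

theorem poly_tileR {α : Type} [TEnc α] {ev : α → Bool} (h : Poly ev) :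
    Poly (fun x => tileR (ev x)) := by
  refine Poly.congr (Poly.cond h (Poly.const (tileR true)) (Poly.const (tileR false))) fun x => ?_
  cases ev x <;> rfl

/-- Formulas. -/
abbrev Fm3 := List (Lit ℕ × Lit ℕ × Lit ℕ)

theorem poly_litK {α : Type} [TEnc α] {c : α → Lit ℕ × Lit ℕ × Lit ℕ} {i : α → ℕ} (hc : Poly c)
    (hi : Poly i) : Poly (fun x => litK (c x) (i x)) := by
  have h1 := Poly.fst hc
  have h2 := Poly.fst (Poly.snd hc)
  have h3 := Poly.snd (Poly.snd hc)
  have key : ∀ {l : α → Lit ℕ}, Poly l → Poly (fun x => if (l x).1 = true then 1 else 2) :=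
    fun hl => Poly.ite (Poly.decide_bool (Poly.fst hl)) (Poly.const 1) (Poly.const 2)
  exact Poly.ite (Poly.decide_eq (Poly.snd h1) hi) (key h1)
    (Poly.ite (Poly.decide_eq (Poly.snd h2) hi) (key h2)
      (Poly.ite (Poly.decide_eq (Poly.snd h3) hi) (key h3) (Poly.const 0)))

theorem poly_litJ {α : Type} [TEnc α] {φ : α → Fm3} {i j : α → ℕ} (hφ : Poly φ) (hi : Poly i)
    (hj : Poly j) : Poly (fun x => litJ (φ x) (i x) (j x)) :=
  poly_litK (Poly.getD (d := fun _ => ((true, 0), (true, 0), (true, 0))) hφ hj (Poly.const _)) hi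

theorem poly_bandC {α : Type} [TEnc α] {φ : α → Fm3} {i : α → ℕ} (hφ : Poly φ) (hi : Poly i) :
    Poly (fun x => bandC (φ x).length (litJ (φ x)) (i x)) := by
  have hm : UPoly (fun x => (φ x).length) := UPoly.length hφ
  have hev : Poly (fun x => decide (i x % 2 = 0)) :=
    Poly.decide_eq (Poly.mod hi (Poly.const 2)) (Poly.const 0)
  have h13 : Poly (fun x => 13 * i x) := Poly.mul (Poly.const 13) hi
  refine Poly.append (Poly.append (poly_tr (Poly.const 0) h13 (poly_tileL hev)) ?_)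
    (poly_tr (Poly.mul (Poly.const 8) (Poly.add hm.toPoly (Poly.const 1))) h13 (poly_tileR hev))
  refine Poly.flatMap (F := fun x j => tr (8 * (j + 1)) (13 * i x)
    (tileC (decide (0 < i x)) (litJ (φ x) (i x) j))) hm.range ?_
  have hx : Poly (fun p : α × ℕ => p.1) := Poly.fst Poly.id
  have hj : Poly (fun p : α × ℕ => p.2) := Poly.snd Poly.id
  exact poly_tr (Poly.mul (Poly.const 8) (Poly.add hj (Poly.const 1))) (h13.comp hx)
    (poly_tileC (Poly.decide_lt (Poly.const 0) (hi.comp hx))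
      (poly_litJ (hφ.comp hx) (hi.comp hx) hj))

theorem poly_cellsOf : Poly cellsOf := by
  have hm : UPoly (fun φ : Fm3 => φ.length) := UPoly.length Poly.id
  have hn : UPoly (fun φ : Fm3 => 6 * φ.length + 1) :=
    UPoly.add (UPoly.mul (UPoly.const 6) hm) (UPoly.const 1)
  have h1 : Poly (fun p : Fm3 × ℕ => bandC p.1.length (litJ p.1) p.2) :=
    poly_bandC (φ := fun p : Fm3 × ℕ => p.1) (i := fun p => p.2) (Poly.fst Poly.id)
      (Poly.snd Poly.id)
  have h2 : Poly (fun φ : Fm3 => (List.range (6 * φ.length + 1)).flatMap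
      (fun i => bandC φ.length (litJ φ) i)) :=
    Poly.flatMap (F := fun (φ : Fm3) i => bandC φ.length (litJ φ) i) hn.range h1
  have h3 : Poly (fun _ : Fm3 => hr 0 0 4) := Poly.const _
  exact (Poly.append h3 h2).congr fun φ => by unfold cellsOf gridC; rfl

/-! ### The instance -/

section Inst

variable {α : Type} [TEnc α] {w h : α → ℕ} {q : α → List Cell}

theorem upoly_pE {L : α → ℕ} (hw : UPoly w) (hh : UPoly h) (hL : UPoly L) :
    UPoly (fun x => pE (w x) (h x) (L x)) :=
  upoly_sub (UPoly.mul (UPoly.const 2) hL)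
    (UPoly.mul (UPoly.const 2) (UPoly.add (UPoly.add hw hh) (UPoly.const 1))).toPoly

theorem upoly_wh (hw : UPoly w) (hh : UPoly h) : UPoly (fun x => 2 * (w x + h x + 4) + 4) :=
  UPoly.add (UPoly.mul (UPoly.const 2) (UPoly.add (UPoly.add hw hh) (UPoly.const 4)))
    (UPoly.const 4)

theorem upoly_pB {L : α → ℕ} (hw : UPoly w) (hh : UPoly h) (hL : UPoly L) :
    UPoly (fun x => pB (w x) (h x) (L x)) :=
  UPoly.mul (UPoly.mul (UPoly.const 4) (UPoly.add (upoly_pE hw hh hL) (UPoly.const 1)))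
    (upoly_wh hw hh)

theorem upoly_pW {L : α → ℕ} (hw : UPoly w) (hh : UPoly h) (hL : UPoly L) :
    UPoly (fun x => pW (w x) (h x) (L x)) :=
  UPoly.add (upoly_pB hw hh hL) (upoly_wh hw hh)

theorem upoly_pK {L : α → ℕ} (hw : UPoly w) (hh : UPoly h) (hL : UPoly L) :
    UPoly (fun x => pK (w x) (h x) (L x)) :=
  UPoly.add (UPoly.mul (UPoly.const 2) (upoly_pB hw hh hL))
    (UPoly.mul (UPoly.const 2) (upoly_pE hw hh hL))

theorem upoly_pN {L : α → ℕ} (hw : UPoly w) (hh : UPoly h) (hL : UPoly L) :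
    UPoly (fun x => pN (w x) (h x) (L x)) :=
  UPoly.add (upoly_sub (UPoly.mul (UPoly.const 2) (upoly_pW hw hh hL)) (Poly.const 1))
    (UPoly.mul (UPoly.const 2) (upoly_pE hw hh hL))

theorem upoly_pZ {L : α → ℕ} (hw : UPoly w) (hh : UPoly h) (hL : UPoly L) :
    UPoly (fun x => pZ (w x) (h x) (L x)) :=
  UPoly.add (UPoly.add (UPoly.add (UPoly.mul (UPoly.const 3) (upoly_pK hw hh hL))
    (UPoly.mul (UPoly.const 2) (upoly_pN hw hh hL)))
    (UPoly.mul (UPoly.const 4) (upoly_pW hw hh hL))) (UPoly.const 4)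

theorem upoly_pR {L : α → ℕ} (hw : UPoly w) (hh : UPoly h) (hL : UPoly L) :
    UPoly (fun x => pR (w x) (h x) (L x)) :=
  UPoly.mul (UPoly.mul (UPoly.const 4) (upoly_pW hw hh hL)) (upoly_pZ hw hh hL)

theorem upoly_pr {L : α → ℕ} (hw : UPoly w) (hh : UPoly h) (hL : UPoly L) :
    UPoly (fun x => pr (w x) (h x) (L x)) :=
  UPoly.mul (UPoly.mul (UPoly.const 2) (upoly_pB hw hh hL)) (upoly_pR hw hh hL)

theorem upoly_pk {L : α → ℕ} (hw : UPoly w) (hh : UPoly h) (hL : UPoly L) :
    UPoly (fun x => pk (w x) (h x) (L x)) :=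
  UPoly.add (UPoly.mul (upoly_pR hw hh hL) (upoly_pK hw hh hL)) (upoly_pZ hw hh hL)

theorem poly_pairL (hw : Poly w) (hh : Poly h) (hq : Poly q) :
    Poly (fun x => pairL (w x) (h x) (q x)) := by
  have hs : Poly (fun x => (q x).map Prod.swap) :=
    Poly.map (F := fun _ (p : Cell) => p.swap) hq
      (Poly.pair (Poly.snd (Poly.snd Poly.id)) (Poly.fst (Poly.snd Poly.id)))
  refine Poly.append (Poly.append (Poly.append hq ?_) ?_) ?_
  · exact Poly.cons (Poly.pair (Poly.add hw (Poly.const 1)) hh) (Poly.const [])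
  · exact poly_tr (Poly.add hw (Poly.const 2)) hh hs
  · exact Poly.cons (Poly.pair (Poly.add (Poly.add hw hh) (Poly.const 3)) (Poly.add hw hh))
      (Poly.const [])

theorem poly_gadL (hw : Poly w) (hh : Poly h) (hq : Poly q) :
    Poly (fun x => gadL (w x) (h x) (q x)) := by
  have hp := poly_pairL hw hh hq
  have hwh := Poly.add hw hh
  refine Poly.append (Poly.append hp ?_) ?_
  · exact poly_tr (Poly.add hwh (Poly.const 4)) hwh hp
  · exact Poly.cons (Poly.pair (Poly.mul (Poly.const 2) (Poly.add hwh (Poly.const 4)))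
      (Poly.mul (Poly.const 2) hwh)) (Poly.const [])

theorem poly_tileT {W x y : α → ℕ} (hw : UPoly w) (hh : UPoly h) (hW : UPoly W) (hq : Poly q)
    (hx : UPoly x) (hy : UPoly y) :
    Poly (fun a => tileT (w a) (h a) (W a) (q a) (x a) (y a)) := by
  have hwh := Poly.add hw.toPoly hh.toPoly
  have h24 : Poly (fun a => 2 * (w a + h a + 4)) :=
    Poly.mul (Poly.const 2) (Poly.add hwh (Poly.const 4))
  have h2 : Poly (fun a => 2 * (w a + h a)) := Poly.mul (Poly.const 2) hwh
  refine Poly.append (Poly.append (Poly.append (Poly.append ?_ ?_) ?_) ?_) ?_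
  · exact poly_vr (Poly.const 0) (Poly.const 0) (UPoly.add hy (UPoly.const 2))
  · exact poly_hr (Poly.const 1) (Poly.add hy.toPoly (Poly.const 1)) hx
  · exact poly_tr (Poly.add hx.toPoly (Poly.const 1)) (Poly.add hy.toPoly (Poly.const 1))
      (poly_gadL hw.toPoly hh.toPoly hq)
  · have hb : Poly (fun a => y a + 2 + 2 * (w a + h a)) :=
      Poly.add (Poly.add hy.toPoly (Poly.const 2)) h2
    exact poly_vr (Poly.add (Poly.add hx.toPoly (Poly.const 1)) h24) hb (upoly_sub hW hb)
  · have hb : Poly (fun a => x a + 2 + 2 * (w a + h a + 4)) :=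
      Poly.add (Poly.add hx.toPoly (Poly.const 2)) h24
    exact poly_hr hb (Poly.sub hW.toPoly (Poly.const 1)) (upoly_sub hW hb)

theorem pB_pos (w h L : ℕ) : 0 < pB w h L := by unfold pB; positivity

theorem upoly_ofs {B l : α → ℕ} (hB : UPoly B) (hB0 : ∀ a, 0 < B a) (hl : Poly l) :
    UPoly (fun a => ofs (B a) (l a)) :=
  UPoly.of_le (Poly.mod (Poly.div hl (Poly.const 2)) hB.toPoly) hB
    fun a => (Nat.mod_lt _ (hB0 a)).le

theorem poly_tileG {B W i j : α → ℕ} (hw : UPoly w) (hh : UPoly h) (hB : UPoly B)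
    (hB0 : ∀ a, 0 < B a) (hW : UPoly W) (hq : Poly q) (hi : Poly i) (hj : Poly j) :
    Poly (fun a => tileG (w a) (h a) (B a) (W a) (q a) (i a) (j a)) := by
  have hT := poly_tileT hw hh hW hq (upoly_ofs hB hB0 hj) (upoly_ofs hB hB0 hi)
  refine Poly.ite (Poly.decide_eq (Poly.mod hi (Poly.const 2)) (Poly.const 0)) hT ?_
  refine Poly.map (F := fun a (p : Cell) => (p.1, W a - 1 - p.2)) hT ?_
  exact Poly.pair (Poly.fst (Poly.snd Poly.id))
    (Poly.sub (Poly.sub (hW.toPoly.comp (Poly.fst Poly.id)) (Poly.const 1))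
      (Poly.snd (Poly.snd Poly.id)))

/-- the tile, with truncated exponents -/
theorem poly_tileP {B W r i j : α → ℕ} (hw : UPoly w) (hh : UPoly h) (hB : UPoly B)
    (hB0 : ∀ a, 0 < B a) (hW : UPoly W) (hr : UPoly r) (hq : Poly q) (hi : Poly i) (hj : Poly j) :
    Poly (fun a => (tileG (w a) (h a) (B a) (W a) (q a) (i a) (j a)).map fun p =>
      (xc (W a) (min (i a) (r a)) + p.1, yc (W a) (r a) (min (j a) (r a)) + p.2)) := by
  have hi' : UPoly (fun a => min (i a) (r a)) :=
    UPoly.of_le (Poly.min hi hr.toPoly) hr fun _ => min_le_right _ _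
  have hj' : UPoly (fun a => min (j a) (r a)) :=
    UPoly.of_le (Poly.min hj hr.toPoly) hr fun _ => min_le_right _ _
  have hx : Poly (fun a => xc (W a) (min (i a) (r a))) :=
    poly_pow2 (UPoly.mul hW (UPoly.add hi' (UPoly.const 1)))
  have hy : Poly (fun a => yc (W a) (r a) (min (j a) (r a))) :=
    poly_pow2 (UPoly.mul (UPoly.mul hW (UPoly.add hr (UPoly.const 2)))
      (UPoly.add hj' (UPoly.const 1)))
  refine Poly.map (F := fun a (p : Cell) => (xc (W a) (min (i a) (r a)) + p.1,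
    yc (W a) (r a) (min (j a) (r a)) + p.2)) (poly_tileG hw hh hB hB0 hW hq hi hj) ?_
  exact Poly.pair (Poly.add (hx.comp (Poly.fst Poly.id)) (Poly.fst (Poly.snd Poly.id)))
    (Poly.add (hy.comp (Poly.fst Poly.id)) (Poly.snd (Poly.snd Poly.id)))

/-- the tile, with truncated exponents -/
def tileP2 (w h : ℕ) (q : List Cell) (j i : ℕ) : List Cell :=
  (tileG w h (pB w h q.length) (pW w h q.length) q i j).map fun p =>
    (xc (pW w h q.length) (min i (pr w h q.length)) + p.1,
      yc (pW w h q.length) (pr w h q.length) (min j (pr w h q.length)) + p.2)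

theorem poly_tileP2 {i j : α → ℕ} (hw : UPoly w) (hh : UPoly h) (hq : Poly q) (hi : Poly i)
    (hj : Poly j) : Poly (fun a => tileP2 (w a) (h a) (q a) (j a) (i a)) := by
  have hL : UPoly (fun a => (q a).length) := UPoly.length hq
  have hr := upoly_pr hw hh hL
  have hB := upoly_pB hw hh hL
  have hW := upoly_pW hw hh hL
  exact poly_tileP (B := fun a => pB (w a) (h a) (q a).length)
    (W := fun a => pW (w a) (h a) (q a).length) (r := fun a => pr (w a) (h a) (q a).length)
    hw hh hB (fun _ => pB_pos _ _ _) hW hr hq hi hj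

/-- the row -/
def rowP2 (w h : ℕ) (q : List Cell) (j : ℕ) : List Cell :=
  (List.range (pr w h q.length)).flatMap fun i => tileP2 w h q j i

theorem poly_rowP2 {j : α → ℕ} (hw : UPoly w) (hh : UPoly h) (hq : Poly q)
    (hj : Poly j) : Poly (fun a => rowP2 (w a) (h a) (q a) (j a)) := by
  have hL : UPoly (fun a => (q a).length) := UPoly.length hq
  have hr := upoly_pr hw hh hL
  have h1 : Poly (fun p : α × ℕ => tileP2 (w p.1) (h p.1) (q p.1) (j p.1) p.2) :=
    poly_tileP2 (w := fun p : α × ℕ => w p.1) (h := fun p => h p.1) (q := fun p => q p.1)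
      (j := fun p => j p.1) (i := fun p => p.2) (hw.comp (Poly.fst Poly.id))
      (hh.comp (Poly.fst Poly.id)) (hq.comp (Poly.fst Poly.id)) (Poly.snd Poly.id)
      (hj.comp (Poly.fst Poly.id))
  exact Poly.flatMap (F := fun a i => tileP2 (w a) (h a) (q a) (j a) i) hr.range h1

theorem poly_ptsN (hw : UPoly w) (hh : UPoly h) (hq : Poly q) :
    Poly (fun a => ptsN (w a) (h a) (q a)) := by
  have hL : UPoly (fun a => (q a).length) := UPoly.length hq
  have hr := upoly_pr hw hh hL
  have h1 : Poly (fun p : α × ℕ => rowP2 (w p.1) (h p.1) (q p.1) p.2) :=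
    poly_rowP2 (w := fun p : α × ℕ => w p.1) (h := fun p => h p.1) (q := fun p => q p.1)
      (j := fun p => p.2) (hw.comp (Poly.fst Poly.id))
      (hh.comp (Poly.fst Poly.id)) (hq.comp (Poly.fst Poly.id)) (Poly.snd Poly.id)
  have h2 : Poly (fun a => (List.range (pr (w a) (h a) (q a).length)).flatMap
      fun j => rowP2 (w a) (h a) (q a) j) :=
    Poly.flatMap (F := fun a j => rowP2 (w a) (h a) (q a) j) hr.range h1
  refine h2.congr fun a => ?_
  unfold ptsN rowP2
  apply List.flatMap_congr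
  intro j hj
  apply List.flatMap_congr
  intro i hi
  rw [List.mem_range] at hi hj
  unfold tileP tileP2
  rw [min_eq_left hi.le, min_eq_left hj.le]

theorem poly_instOf (hw : UPoly w) (hh : UPoly h) (hq : Poly q) :
    Poly (fun a => instOf (w a) (h a) (q a)) := by
  refine Poly.pair ?_ (upoly_pk hw hh (UPoly.length hq)).toPoly
  refine Poly.map (F := fun _ (p : Cell) => toQ p) (poly_ptsN hw hh hq) ?_
  exact Poly.pair (poly_nat_rat (Poly.fst (Poly.snd Poly.id)))
    (poly_nat_rat (Poly.snd (Poly.snd Poly.id)))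

end Inst

theorem poly_inst_aux : Poly (fun φ : List (Lit ℕ × Lit ℕ × Lit ℕ) =>
    instOf (8 * φ.length + 10) (78 * φ.length + 12) (cellsOf φ)) := by
  have hm : UPoly (fun φ : Fm3 => φ.length) := UPoly.length Poly.id
  exact poly_instOf (UPoly.add (UPoly.mul (UPoly.const 8) hm) (UPoly.const 10))
    (UPoly.add (UPoly.mul (UPoly.const 78) hm) (UPoly.const 12)) poly_cellsOf

end Pool.Agent.NPC.R539PS

namespace Pool.Agent.R539

open Pool.Agent.NPC

theorem poly_inst : NPC.Poly (fun φ : List (Lit ℕ × Lit ℕ × Lit ℕ) =>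
    instOf (8 * φ.length + 10) (78 * φ.length + 12) (cellsOf φ)) :=
  Pool.Agent.NPC.R539PS.poly_inst_aux

end Pool.Agent.R539
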