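import Pool.Agent.R539.PS.GDefs

/-!
# Elementary facts about the cells of the grid
-/

namespace Pool.Agent.R539

open Pool.Agent.NPC

theorem mem_trB {x y : ℕ} {l : List Cell} {p : Cell} :
    p ∈ tr x y l ↔ ∃ q ∈ l, (x + q.1, y + q.2) = p := List.mem_map

theorem tr_nodupB {x y : ℕ} {l : List Cell} (h : l.Nodup) : (tr x y l).Nodup := by
  refine h.map ?_
  intro p q hpq
  simp only [Prod.mk.injEq] at hpq
  exact Prod.ext (by omega) (by omega)

theorem tileC_cases (lo : Bool) (k : ℕ) :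
    tileC lo k = tileC lo 0 ∨ tileC lo k = tileC lo 1 ∨ tileC lo k = tileC lo 2 := by
  by_cases h1 : k = 1
  · right; left; rw [h1]
  by_cases h2 : k = 2
  · right; right; rw [h2]
  left
  unfold tileC ringC
  rw [if_neg h1, if_neg h2]
  rfl

theorem tileC_nodup (lo : Bool) (k : ℕ) : (tileC lo k).Nodup := by
  rcases tileC_cases lo k with h | h | h <;> rw [h] <;> cases lo <;> decide

theorem tileC_box (lo : Bool) (k : ℕ) : ∀ p ∈ tileC lo k, p.1 ≤ 7 ∧ p.2 ≤ 12 := by
  rcases tileC_cases lo k with h | h | h <;> rw [h] <;> cases lo <;> decide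

theorem tileC_len (lo : Bool) (k : ℕ) : 62 ≤ (tileC lo k).length := by
  rcases tileC_cases lo k with h | h | h <;> rw [h] <;> cases lo <;> decide

theorem tileL_nodup (ev : Bool) : (tileL ev).Nodup := by cases ev <;> decide

theorem tileL_box (ev : Bool) : ∀ p ∈ tileL ev, 4 ≤ p.1 ∧ p.1 ≤ 7 ∧ p.2 ≤ 12 := by
  cases ev <;> decide

theorem tileR_nodup (ev : Bool) : (tileR ev).Nodup := by cases ev <;> decide

theorem tileR_box (ev : Bool) : ∀ p ∈ tileR ev, p.1 ≤ 2 ∧ p.2 ≤ 12 := by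
  cases ev <;> decide

theorem tileL_len (ev : Bool) : 21 ≤ (tileL ev).length := by cases ev <;> decide

/-- membership in the clause part of a band -/
theorem mem_mid {m : ℕ} {lit : ℕ → ℕ → ℕ} {i : ℕ} {p : Cell}
    (h : p ∈ (List.range m).flatMap
      (fun j => tr (8 * (j + 1)) (13 * i) (tileC (decide (0 < i)) (lit i j)))) :
    ∃ j < m, 8 * (j + 1) ≤ p.1 ∧ p.1 ≤ 8 * (j + 1) + 7 ∧ 13 * i ≤ p.2 ∧ p.2 ≤ 13 * i + 12 := by
  rw [List.mem_flatMap] at h
  obtain ⟨j, hj, hp⟩ := h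
  rw [mem_trB] at hp
  obtain ⟨q, hq, rfl⟩ := hp
  have hb := tileC_box _ _ q hq
  exact ⟨j, List.mem_range.mp hj, by simp only; omega, by simp only; omega, by simp only; omega,
    by simp only; omega⟩

theorem mem_bandC {m : ℕ} {lit : ℕ → ℕ → ℕ} {i : ℕ} {p : Cell} (h : p ∈ bandC m lit i) :
    4 ≤ p.1 ∧ p.1 ≤ 8 * m + 10 ∧ 13 * i ≤ p.2 ∧ p.2 ≤ 13 * i + 12 := by
  unfold bandC at h
  rw [List.mem_append, List.mem_append] at h
  rcases h with (h | h) | h
  · rw [mem_trB] at h
    obtain ⟨q, hq, rfl⟩ := h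
    have hb := tileL_box _ q hq
    simp only
    omega
  · obtain ⟨j, hj, h1, h2, h3, h4⟩ := mem_mid h
    omega
  · rw [mem_trB] at h
    obtain ⟨q, hq, rfl⟩ := h
    have hb := tileR_box _ q hq
    simp only
    omega

theorem bandC_nodup (m : ℕ) (lit : ℕ → ℕ → ℕ) (i : ℕ) : (bandC m lit i).Nodup := by
  unfold bandC
  rw [List.nodup_append', List.nodup_append']
  refine ⟨⟨tr_nodupB (tileL_nodup _), ?_, ?_⟩, tr_nodupB (tileR_nodup _), ?_⟩
  · rw [List.nodup_flatMap]
    refine ⟨fun j _ => tr_nodupB (tileC_nodup _ _), ?_⟩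
    refine List.Pairwise.imp ?_ (List.pairwise_lt_range (n := m))
    intro j j' hjj' p hp hp'
    rw [mem_trB] at hp hp'
    obtain ⟨q, hq, rfl⟩ := hp
    obtain ⟨q', hq', he⟩ := hp'
    have hb := tileC_box _ _ q hq
    have hb' := tileC_box _ _ q' hq'
    simp only [Prod.mk.injEq] at he
    omega
  · intro p hp hp'
    obtain ⟨j, hj, h1, h2, h3, h4⟩ := mem_mid hp'
    rw [mem_trB] at hp
    obtain ⟨q, hq, rfl⟩ := hp
    have hb := tileL_box _ q hq
    simp only at h1 h2 h3 h4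
    omega
  · intro p hp hp'
    rw [mem_trB] at hp'
    obtain ⟨q, hq, rfl⟩ := hp'
    have hb := tileR_box _ q hq
    rw [List.mem_append] at hp
    rcases hp with hp | hp
    · rw [mem_trB] at hp
      obtain ⟨q', hq', he⟩ := hp
      have hb' := tileL_box _ q' hq'
      simp only [Prod.mk.injEq] at he
      omega
    · obtain ⟨j, hj, h1, h2, h3, h4⟩ := mem_mid hp
      simp only at h1 h2 h3 h4
      omega

theorem gridC_nodup (m n : ℕ) (lit : ℕ → ℕ → ℕ) : (gridC m n lit).Nodup := by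
  unfold gridC
  rw [List.nodup_append']
  refine ⟨by decide, ?_, ?_⟩
  · rw [List.nodup_flatMap]
    refine ⟨fun i _ => bandC_nodup m lit i, ?_⟩
    refine List.Pairwise.imp ?_ (List.pairwise_lt_range (n := n))
    intro i i' hii' p hp hp'
    have h1 := mem_bandC hp
    have h2 := mem_bandC hp'
    omega
  · intro p hp hp'
    rw [List.mem_flatMap] at hp'
    obtain ⟨i, _, hp'⟩ := hp'
    have h1 := mem_bandC hp'
    have h2 : ∀ p ∈ hr 0 0 4, p.1 ≤ 3 := by decide
    have h3 := h2 p hp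
    omega

theorem gridC_box (m n : ℕ) (lit : ℕ → ℕ → ℕ) (_hn : 0 < n) :
    ∀ p ∈ gridC m n lit, p.1 ≤ 8 * m + 10 ∧ p.2 ≤ 13 * (n - 1) + 12 := by
  intro p hp
  unfold gridC at hp
  rw [List.mem_append, List.mem_flatMap] at hp
  rcases hp with hp | ⟨i, hi, hp⟩
  · have h2 : ∀ p ∈ hr 0 0 4, p.1 ≤ 3 ∧ p.2 = 0 := by decide
    have h3 := h2 p hp
    omega
  · have h1 := mem_bandC hp
    have h2 := List.mem_range.mp hi
    omega

theorem gridC_s (m n : ℕ) (lit : ℕ → ℕ → ℕ) : ((0, 0) : Cell) ∈ gridC m n lit := by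
  unfold gridC
  rw [List.mem_append]
  left
  decide

theorem gridC_t (m N : ℕ) (lit : ℕ → ℕ → ℕ) :
    ((8 * m + 10, 26 * N + 12) : Cell) ∈ gridC m (2 * N + 1) lit := by
  unfold gridC
  rw [List.mem_append, List.mem_flatMap]
  right
  refine ⟨2 * N, List.mem_range.mpr (by omega), ?_⟩
  unfold bandC
  rw [List.mem_append]
  right
  have h : decide (2 * N % 2 = 0) = true := by
    rw [decide_eq_true_eq]; omega
  rw [h, mem_trB]
  refine ⟨(2, 12), by decide, ?_⟩
  simp only [Prod.mk.injEq]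
  omega

theorem bandC_len (m : ℕ) (lit : ℕ → ℕ → ℕ) (i : ℕ) : 62 * m + 21 ≤ (bandC m lit i).length := by
  unfold bandC
  rw [List.length_append, List.length_append]
  have h1 : 21 ≤ (tr 0 (13 * i) (tileL (decide (i % 2 = 0)))).length := by
    unfold tr
    rw [List.length_map]
    exact tileL_len _
  have h2 : 62 * m ≤ ((List.range m).flatMap
      (fun j => tr (8 * (j + 1)) (13 * i) (tileC (decide (0 < i)) (lit i j)))).length := by
    induction m with
    | zero => simp
    | succ m ih =>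
      rw [List.range_succ, List.flatMap_append, List.length_append, List.flatMap_singleton]
      have h3 : 62 ≤ (tr (8 * (m + 1)) (13 * i) (tileC (decide (0 < i)) (lit i m))).length := by
        unfold tr
        rw [List.length_map]
        exact tileC_len _ _
      omega
  omega

theorem gridC_len (m : ℕ) (hm : 0 < m) (lit : ℕ → ℕ → ℕ) :
    (8 * m + 10) + (78 * m + 12) + 1 ≤ (gridC m (6 * m + 1) lit).length := by
  unfold gridC
  rw [List.length_append]
  have h : ∀ n : ℕ, n * (62 * m + 21) ≤ ((List.range n).flatMap (bandC m lit)).length := by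
    intro n
    induction n with
    | zero => simp
    | succ n ih =>
      rw [List.range_succ, List.flatMap_append, List.length_append, List.flatMap_singleton]
      have h3 := bandC_len m lit n
      rw [Nat.succ_mul]
      omega
  have h2 := h (6 * m + 1)
  nlinarith

theorem litK_true {c : Lit ℕ × Lit ℕ × Lit ℕ} {i : ℕ} {x : ℕ → Bool}
    (h : (litK c i = 1 ∧ x i = true) ∨ (litK c i = 2 ∧ x i = false)) :
    x c.1.2 = c.1.1 ∨ x c.2.1.2 = c.2.1.1 ∨ x c.2.2.2 = c.2.2.1 := by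
  obtain ⟨⟨b1, v1⟩, ⟨b2, v2⟩, ⟨b3, v3⟩⟩ := c
  unfold litK at h
  simp only at h ⊢
  by_cases h1 : v1 = i
  · left
    subst h1
    simp only [if_true] at h
    cases b1 <;> simp_all
  · rw [if_neg h1] at h
    by_cases h2 : v2 = i
    · right; left
      subst h2
      simp only [if_true] at h
      cases b2 <;> simp_all
    · rw [if_neg h2] at h
      by_cases h3 : v3 = i
      · right; right
        subst h3
        simp only [if_true] at h
        cases b3 <;> simp_all
      · rw [if_neg h3] at h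
        simp at h

theorem litK_of_holds {c : Lit ℕ × Lit ℕ × Lit ℕ} {x : ℕ → Bool}
    (h12 : c.1.2 ≠ c.2.1.2) (h13 : c.1.2 ≠ c.2.2.2) (h23 : c.2.1.2 ≠ c.2.2.2)
    (h : x c.1.2 = c.1.1 ∨ x c.2.1.2 = c.2.1.1 ∨ x c.2.2.2 = c.2.2.1) :
    ∃ i, (i = c.1.2 ∨ i = c.2.1.2 ∨ i = c.2.2.2) ∧
      ((litK c i = 1 ∧ x i = true) ∨ (litK c i = 2 ∧ x i = false)) := by
  obtain ⟨⟨b1, v1⟩, ⟨b2, v2⟩, ⟨b3, v3⟩⟩ := c
  simp only at h12 h13 h23 h
  rcases h with h | h | h
  · refine ⟨v1, Or.inl rfl, ?_⟩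
    unfold litK
    simp only [if_true]
    cases b1 <;> simp_all
  · refine ⟨v2, Or.inr (Or.inl rfl), ?_⟩
    unfold litK
    simp only [if_true]
    rw [if_neg h12]
    cases b2 <;> simp_all
  · refine ⟨v3, Or.inr (Or.inr rfl), ?_⟩
    unfold litK
    simp only [if_true]
    rw [if_neg h13, if_neg h23]
    cases b3 <;> simp_all

theorem lit_sat (φ : List (Lit ℕ × Lit ℕ × Lit ℕ)) (hd : Distinct3 φ) (hb : Bounded3 φ) :
    SAT3 φ ↔ ∃ x : ℕ → Bool, ∀ j < φ.length, ∃ i < 6 * φ.length + 1,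
      (litJ φ i j = 1 ∧ x i = true) ∨ (litJ φ i j = 2 ∧ x i = false) := by
  constructor
  · rintro ⟨x, hx⟩
    refine ⟨x, fun j hj => ?_⟩
    have hget : φ.getD j ((true, 0), (true, 0), (true, 0)) = φ[j] := by
      rw [List.getD_eq_getElem?_getD, List.getElem?_eq_getElem hj, Option.getD_some]
    have hmem : φ[j] ∈ φ := List.getElem_mem hj
    obtain ⟨h12, h13, h23⟩ := hd _ hmem
    obtain ⟨b1, b2, b3⟩ := hb _ hmem
    obtain ⟨i, hi, h⟩ := litK_of_holds h12 h13 h23 (hx _ hmem)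
    refine ⟨i, ?_, ?_⟩
    · rcases hi with rfl | rfl | rfl <;> omega
    · unfold litJ
      rw [hget]
      exact h
  · rintro ⟨x, hx⟩
    refine ⟨x, fun c hc => ?_⟩
    obtain ⟨j, hj, rfl⟩ := List.getElem_of_mem hc
    obtain ⟨i, _, h⟩ := hx j hj
    have hget : φ.getD j ((true, 0), (true, 0), (true, 0)) = φ[j] := by
      rw [List.getD_eq_getElem?_getD, List.getElem?_eq_getElem hj, Option.getD_some]
    unfold litJ at h
    rw [hget] at h
    exact litK_true h

end Pool.Agent.R539
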