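import Pool.Agent.R539.PS.Yes1

/-!
# The yes case: every line stabs few edges of the path
-/

namespace Pool.Agent.R539

theorem pow_big : ∀ W : ℕ, 5 ≤ W → 4 * W + 10 ≤ 2 ^ W := by
  intro W hW
  induction W, hW using Nat.le_induction with
  | base => norm_num
  | succ n hn ih => rw [pow_succ]; omega

section

variable {w h B W r R : ℕ} {q : List Cell}

theorem xc_super (hW5 : 5 ≤ W) {l l' : ℕ} (hl : l < l') :
    (2 * W + 2) * (xc W l + W) + xc W l + W ≤ xc W l' := by
  have h1 := xc_lt (show 0 < W by omega) hl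
  have h2 := W_lt_xc (W := W) l
  have h3 := pow_big W hW5
  have h4 : (4 * W + 10) * xc W l ≤ 2 ^ W * xc W l := Nat.mul_le_mul_right _ h3
  nlinarith

theorem yc_super (hW5 : 5 ≤ W) {l l' : ℕ} (hl : l < l') :
    (2 * xc W r + 2) * (yc W r l + W) + yc W r l + W ≤ yc W r l' := by
  have h1 := yc_lt (W := W) (r := r) hl
  have h2 := W_lt_yc (r := r) (show 0 < W by omega) l
  have h3 := pow_big W hW5
  have h5 : 2 ^ (W * (r + 2)) = 2 ^ W * xc W r := by
    unfold xc
    rw [← pow_add]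
    congr 1
    ring
  rw [h5] at h1
  have hM : 1 ≤ xc W r := Nat.one_le_two_pow
  have h6 : (2 * xc W r + 2) * (yc W r l + W) + yc W r l + W ≤
      (2 * xc W r + 3) * (2 * yc W r l) := by nlinarith
  have h7 : (2 * xc W r + 3) * (2 * yc W r l) ≤ (10 * xc W r) * yc W r l := by nlinarith
  have h8 : (10 * xc W r) * yc W r l ≤ 2 ^ W * xc W r * yc W r l := by
    apply Nat.mul_le_mul_right
    apply Nat.mul_le_mul_right
    omega
  omega

theorem mem_rowP_bd (hB : 0 < B) (hW : W = B + (2 * (w + h + 4) + 4))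
    (hbox : ∀ p ∈ q, p.1 ≤ w ∧ p.2 ≤ h) {j : ℕ} :
    ∀ p ∈ rowP w h B W r q j r, p.1 ≤ xc W r ∧ yc W r j ≤ p.2 ∧ p.2 < yc W r j + W := by
  intro p hp
  obtain ⟨i, hi, hi'⟩ := mem_rowP.1 hp
  have e1 := mem_tileP hB hW hbox p hi'
  have := xc_add (show 0 < W by omega) hi
  omega

/-- one lane, nearly vertical line -/
theorem laneC (hB : 0 < B) (hW : W = B + (2 * (w + h + 4) + 4)) (hr : r = 2 * B * R) (hR : 0 < R)
    (hc : q.IsChain UAdj) (hs : q.head? = some (0, 0)) (ht : q.getLast? = some (w, h))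
    (hbox : ∀ p ∈ q, p.1 ≤ w ∧ p.2 ≤ h) (hL : w + h + 1 ≤ q.length) (hq : q.Nodup)
    (α β : ℝ) (hβ : |β| * (2 * W) < 1) {j : ℕ} (_hj : j < r) :
    cr (fun p : Cell => decide (α + β * (p.2 : ℝ) < (p.1 : ℝ))) (rowP w h B W r q j r) ≤
      (2 * B + 2 * pE w h q.length) + 2 * W := by
  classical
  set k : ℤ := round (α + β * (yc W r j : ℝ)) with hk
  have hkα := abs_sub_round (α + β * (yc W r j : ℝ))
  rw [← hk, abs_le] at hkα
  have hr0 : 0 < r := by
    rw [hr]; positivity
  obtain ⟨n, hn⟩ := Nat.exists_eq_succ_of_ne_zero hr0.ne'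
  have h1 : cr (fun p : Cell => decide ((k + 1).toNat ≤ p.1)) (rowP w h B W r q j r) ≤
      2 * B + 2 * pE w h q.length := by
    have h2 := row_win_fst (r := r) hB hW hc hs ht hbox hL n (j / (2 * B)) (k + 1).toNat
    rw [← Nat.succ_eq_add_one n, ← hn] at h2
    refine le_trans ?_ h2
    refine Finset.single_le_sum (f := fun l => cr (fun p : Cell => decide ((k + 1).toNat ≤ p.1))
      (rowP w h B W r q l r)) (fun _ _ => Nat.zero_le _) ?_
    rw [Finset.mem_Ico]
    have h3 := Nat.div_add_mod j (2 * B)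
    have h4 := Nat.mod_lt j (show 0 < 2 * B by omega)
    have h5 : (j / (2 * B) + 1) * (2 * B) = 2 * B * (j / (2 * B)) + 2 * B := by ring
    have h6 : j / (2 * B) * (2 * B) = 2 * B * (j / (2 * B)) := by ring
    omega
  have h2 := cr_le_countP (fun p : Cell => decide (α + β * (p.2 : ℝ) < (p.1 : ℝ)))
    (fun p : Cell => decide ((k + 1).toNat ≤ p.1)) (rowP w h B W r q j r)
  have hcnt : (rowP w h B W r q j r).countP (fun a =>
      !((decide (α + β * (a.2 : ℝ) < (a.1 : ℝ))) == decide ((k + 1).toNat ≤ a.1))) ≤ W := by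
    rw [List.countP_eq_length_filter]
    set l' := (rowP w h B W r q j r).filter (fun a =>
      !((decide (α + β * (a.2 : ℝ) < (a.1 : ℝ))) == decide ((k + 1).toNat ≤ a.1))) with hl'
    have hmem : ∀ p ∈ l', p ∈ rowP w h B W r q j r ∧ (p.1 : ℤ) = k := by
      intro p hp
      rw [hl', List.mem_filter] at hp
      refine ⟨hp.1, ?_⟩
      have e := mem_rowP_bd hB hW hbox p hp.1
      have e2 : (p.2 : ℝ) - yc W r j < W := by
        have : (p.2 : ℝ) < yc W r j + W := by exact_mod_cast e.2.2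
        linarith
      have e3 : (0 : ℝ) ≤ (p.2 : ℝ) - yc W r j := by
        have : (yc W r j : ℝ) ≤ p.2 := by exact_mod_cast e.2.1
        linarith
      have e4 : |β * ((p.2 : ℝ) - yc W r j)| < 1 / 2 := by
        rw [abs_mul, abs_of_nonneg e3]
        have := mul_le_mul_of_nonneg_left e2.le (abs_nonneg β)
        linarith
      rw [abs_lt] at e4
      have e5 : α + β * (p.2 : ℝ) = (α + β * (yc W r j : ℝ)) + β * ((p.2 : ℝ) - yc W r j) := by
        ring
      by_contra hne
      have hp2 := hp.2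
      rcases lt_or_gt_of_ne hne with h3 | h3
      · have h4 : (((p.1 : ℤ) + 1 : ℤ) : ℝ) ≤ ((k : ℤ) : ℝ) := by exact_mod_cast h3
        push_cast at h4
        have h5 : ¬ (α + β * (p.2 : ℝ) < (p.1 : ℝ)) := by
          rw [e5]
          linarith [hkα.1, e4.1]
        have h6 : ¬ ((k + 1).toNat ≤ p.1) := by omega
        rw [decide_eq_false h5, decide_eq_false h6] at hp2
        simp at hp2
      · have h4 : ((k + 1 : ℤ) : ℝ) ≤ ((p.1 : ℤ) : ℝ) := by exact_mod_cast h3
        push_cast at h4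
        have h5 : α + β * (p.2 : ℝ) < (p.1 : ℝ) := by
          rw [e5]
          linarith [hkα.2, e4.2]
        have h6 : (k + 1).toNat ≤ p.1 := by omega
        rw [decide_eq_true h5, decide_eq_true h6] at hp2
        simp at hp2
    have hnd : l'.Nodup := (rowP_nodup hB hW hq hbox j r).filter _
    have hnd2 : (l'.map Prod.snd).Nodup := by
      refine List.Nodup.map_on ?_ hnd
      intro a ha b hb hab
      have h3 := (hmem a ha).2
      have h4 := (hmem b hb).2
      exact Prod.ext (by omega) hab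
    have hsub : (l'.map Prod.snd).toFinset ⊆ Finset.Ico (yc W r j) (yc W r j + W) := by
      intro y hy
      rw [List.mem_toFinset, List.mem_map] at hy
      obtain ⟨p, hp, rfl⟩ := hy
      have e := mem_rowP_bd hB hW hbox p (hmem p hp).1
      rw [Finset.mem_Ico]
      exact e.2
    have h3 := Finset.card_le_card hsub
    rw [List.toFinset_card_of_nodup hnd2, List.length_map, Nat.card_Ico] at h3
    omega
  omega

/-- nearly vertical lines -/
theorem caseV (hB : 0 < B) (hW : W = B + (2 * (w + h + 4) + 4)) (hr : r = 2 * B * R) (hR : 0 < R)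
    (hc : q.IsChain UAdj) (hs : q.head? = some (0, 0)) (ht : q.getLast? = some (w, h))
    (hbox : ∀ p ∈ q, p.1 ≤ w ∧ p.2 ≤ h) (hL : w + h + 1 ≤ q.length) (hq : q.Nodup)
    (α β : ℝ) (hβ : |β| * (2 * W) < 1) :
    ∑ j ∈ Finset.range r,
      cr (fun p : Cell => decide (α + β * (p.2 : ℝ) < (p.1 : ℝ))) (rowP w h B W r q j r) ≤
      (R + 1) * (2 * B + 2 * pE w h q.length) +
        2 * ((2 * B + 2 * pE w h q.length) + 2 * W) := by
  have hr0 : 0 < r := by
    rw [hr]; positivity
  obtain ⟨n, hn⟩ := Nat.exists_eq_succ_of_ne_zero hr0.ne'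
  refine lane (P := 2 * B) (R := R) (M := xc W r) (W := W) hr (by omega) (fun j => yc W r j)
    (fun j => rowP w h B W r q j r) ?_ ?_ ?_ ?_ α β ?_
  · intro l _ p hp
    exact (mem_rowP_bd hB hW hbox p hp).2
  · intro l _ p hp
    exact (mem_rowP_bd hB hW hbox p hp).1
  · intro l l' hl _
    exact yc_super (by omega) hl
  · intro a _ θ
    have h2 := row_win_fst (r := r) hB hW hc hs ht hbox hL n a θ
    rw [← Nat.succ_eq_add_one n, ← hn] at h2
    exact h2
  · intro l hl
    exact laneC hB hW hr hR hc hs ht hbox hL hq α β hβ hl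

/-- one row, nearly horizontal line -/
theorem rowH (hB : 0 < B) (hW : W = B + (2 * (w + h + 4) + 4)) (hr : r = 2 * B * R) (hR : 0 < R)
    (hc : q.IsChain UAdj) (hs : q.head? = some (0, 0)) (ht : q.getLast? = some (w, h))
    (hbox : ∀ p ∈ q, p.1 ≤ w ∧ p.2 ≤ h) (hL : w + h + 1 ≤ q.length)
    (α β : ℝ) (j : ℕ) :
    cr (fun p : Cell => decide (α + β * (p.1 : ℝ) < (p.2 : ℝ))) (rowP w h B W r q j r) ≤
      (R + 1) * (2 * B + 2 * pE w h q.length) + 2 * (2 * W - 1 + 2 * pE w h q.length) + 2 := by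
  have hr0 : 0 < r := by
    rw [hr]; positivity
  obtain ⟨n, hn⟩ := Nat.exists_eq_succ_of_ne_zero hr0.ne'
  have hsd : (fun p : Cell => decide (α + β * (p.1 : ℝ) < (p.2 : ℝ))) = sd (-β) 1 α := by
    funext p
    unfold sd
    rw [decide_eq_decide]
    constructor <;> intro h <;> linarith
  rw [hsd]
  have h1 := cr_rowP_sd (q := q) (r := r) hB hW (-β) 1 α j n
  rw [← Nat.succ_eq_add_one n, ← hn] at h1
  refine le_trans h1 (Nat.add_le_add_right ?_ 2)
  rw [← hsd]
  have h2 := lane (P := 2 * B) (R := R) (M := W) (W := W) (K := 2 * B + 2 * pE w h q.length)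
    (C := 2 * W - 1 + 2 * pE w h q.length) hr (by omega) (fun i => xc W i)
    (fun i => (tileG w h B W q i j).map fun p => (p.2, xc W i + p.1)) ?_ ?_ ?_ ?_
    (α - yc W r j) β ?_
  · refine le_trans (le_of_eq (Finset.sum_congr rfl fun i _ => ?_)) h2
    unfold tileP
    rw [cr_map, cr_map]
    refine cr_congr fun p _ => ?_
    rw [decide_eq_decide]
    push_cast
    constructor <;> intro h <;> linarith
  · intro l _ p hp
    rw [List.mem_map] at hp
    obtain ⟨c, hc', rfl⟩ := hp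
    have := mem_tileG hB hW hbox c hc'
    simp only
    omega
  · intro l _ p hp
    rw [List.mem_map] at hp
    obtain ⟨c, hc', rfl⟩ := hp
    have := mem_tileG hB hW hbox c hc'
    simp only
    omega
  · intro l l' hl _
    exact xc_super (by omega) hl
  · intro a _ θ
    have h3 := win_snd hB hW hc hs ht hbox hL j a θ
    refine le_trans (le_of_eq (Finset.sum_congr rfl fun l _ => ?_)) h3
    rw [cr_map]
  · intro l _
    refine le_trans (cr_le _ _) ?_
    rw [List.length_map]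
    have h4 := tileG_length (q := q) hB hW l j
    have h5 : pE w h q.length = 2 * q.length - 2 * (w + h + 1) := rfl
    omega

/-- nearly horizontal lines -/
theorem caseH (hB : 0 < B) (hW : W = B + (2 * (w + h + 4) + 4)) (hr : r = 2 * B * R) (hR : 0 < R)
    (hc : q.IsChain UAdj) (hs : q.head? = some (0, 0)) (ht : q.getLast? = some (w, h))
    (hbox : ∀ p ∈ q, p.1 ≤ w ∧ p.2 ≤ h) (hL : w + h + 1 ≤ q.length)
    (α β : ℝ) (hβ : |β| ≤ 2 * W) :
    ∑ j ∈ Finset.range r,
      cr (fun p : Cell => decide (α + β * (p.1 : ℝ) < (p.2 : ℝ))) (rowP w h B W r q j r) ≤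
      (R + 1) * (2 * B + 2 * pE w h q.length) + 2 * (2 * W - 1 + 2 * pE w h q.length) + 2 := by
  refine sum_le_of_unique (fun j _ => rowH hB hW hr hR hc hs ht hbox hL α β j) ?_
  intro j _ j' _ hjj
  by_contra hh
  push Not at hh
  obtain ⟨⟨p, hp, hpt⟩, _⟩ := cr_ne_zero hh.1
  obtain ⟨_, ⟨s, hs', hsf⟩⟩ := cr_ne_zero hh.2
  simp only [decide_eq_true_eq, decide_eq_false_iff_not, not_lt] at hpt hsf
  have e1 := mem_rowP_bd hB hW hbox p hp
  have e2 := mem_rowP_bd hB hW hbox s hs'
  have g := yc_super (W := W) (r := r) (by omega) hjj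
  have g2 := W_lt_yc (r := r) (show 0 < W by omega) j
  have a1 : (p.1 : ℝ) ≤ xc W r := by exact_mod_cast e1.1
  have a2 : (p.2 : ℝ) ≤ yc W r j + W := by exact_mod_cast e1.2.2.le
  have a3 : (s.1 : ℝ) ≤ xc W r := by exact_mod_cast e2.1
  have a4 : (yc W r j' : ℝ) ≤ s.2 := by exact_mod_cast e2.2.1
  have a5 : (0 : ℝ) ≤ p.1 := Nat.cast_nonneg _
  have a6 : (0 : ℝ) ≤ s.1 := Nat.cast_nonneg _
  have a7 : (0 : ℝ) ≤ W := Nat.cast_nonneg _
  have a8 : (0 : ℝ) ≤ xc W r := Nat.cast_nonneg _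
  have b1 : |β * (p.1 : ℝ)| ≤ 2 * W * xc W r := by
    rw [abs_mul, abs_of_nonneg a5]
    exact mul_le_mul hβ a1 a5 (by positivity)
  have b2 : |β * (s.1 : ℝ)| ≤ 2 * W * xc W r := by
    rw [abs_mul, abs_of_nonneg a6]
    exact mul_le_mul hβ a3 a6 (by positivity)
  rw [abs_le] at b1 b2
  have gR : ((2 * xc W r + 2) * ((yc W r j : ℝ) + W) + yc W r j + W : ℝ) ≤ yc W r j' := by
    exact_mod_cast g
  have g2R : (W : ℝ) < yc W r j := by exact_mod_cast g2
  have g3 : (2 * xc W r + 2 : ℝ) * (2 * W) ≤ (2 * xc W r + 2) * ((yc W r j : ℝ) + W) :=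
    mul_le_mul_of_nonneg_left (by linarith) (by positivity)
  have g4 : (2 * xc W r + 2 : ℝ) * (2 * W) = 2 * (2 * W * xc W r) + 4 * W := by ring
  linarith [b1.1, b2.2]

/-- the bound for one line, in one of the two normal positions -/
theorem yes_line (hB : 0 < B) (hW : W = B + (2 * (w + h + 4) + 4)) (hr : r = 2 * B * R)
    (hR : 0 < R)
    (hc : q.IsChain UAdj) (hs : q.head? = some (0, 0)) (ht : q.getLast? = some (w, h))
    (hbox : ∀ p ∈ q, p.1 ≤ w ∧ p.2 ≤ h) (hL : w + h + 1 ≤ q.length) (hq : q.Nodup)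
    (a b c : ℝ) (hab : |b| * (2 * W) < a ∨ (0 < b ∧ |a| ≤ 2 * W * b)) :
    stabCount a b c ((totP w h B W r q r).map toQ) ≤
      (R + 1) * (2 * B + 2 * pE w h q.length) +
        2 * ((2 * B + 2 * pE w h q.length) + 2 * W) + 2 * (2 * W - 1 + 2 * pE w h q.length) + 4 := by
  have hr0 : 0 < r := by rw [hr]; positivity
  refine le_trans (stabCount_le_cr a b c _) ?_
  refine le_trans (cr_totP_sd (w := w) (h := h) (B := B) (W := W) (r := r) (q := q)
    hB hW hr0 a b c) ?_
  rcases hab with hab | ⟨hb, hab⟩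
  · have ha : 0 < a := lt_of_le_of_lt (by positivity) hab
    have hsd : sd a b c = fun p : Cell => decide (c / a + (-(b / a)) * (p.2 : ℝ) < (p.1 : ℝ)) := by
      funext p
      unfold sd
      rw [decide_eq_decide]
      have : c / a + -(b / a) * (p.2 : ℝ) = (c - b * p.2) / a := by
        field_simp
        ring
      rw [this, div_lt_iff₀ ha]
      constructor <;> intro h <;> linarith
    have hβ : |(-(b / a))| * (2 * W) < 1 := by
      rw [abs_neg, abs_div, abs_of_pos ha, div_mul_eq_mul_div, div_lt_one ha]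
      exact hab
    have h1 := caseV (r := r) (R := R) hB hW hr hR hc hs ht hbox hL hq (c / a) (-(b / a)) hβ
    rw [← hsd] at h1
    omega
  · have hsd : sd a b c = fun p : Cell => decide (c / b + (-(a / b)) * (p.1 : ℝ) < (p.2 : ℝ)) := by
      funext p
      unfold sd
      rw [decide_eq_decide]
      have : c / b + -(a / b) * (p.1 : ℝ) = (c - a * p.1) / b := by
        field_simp
        ring
      rw [this, div_lt_iff₀ hb]
      constructor <;> intro h <;> linarith
    have hβ : |(-(a / b))| ≤ 2 * W := by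
      rw [abs_neg, abs_div, abs_of_pos hb, div_le_iff₀ hb]
      exact hab
    have h1 := caseH (r := r) (R := R) hB hW hr hR hc hs ht hbox hL (c / b) (-(a / b)) hβ
    rw [← hsd] at h1
    omega

/-- the bound for every line -/
theorem yes_all (hB : 0 < B) (hW : W = B + (2 * (w + h + 4) + 4)) (hr : r = 2 * B * R)
    (hR : 0 < R)
    (hc : q.IsChain UAdj) (hs : q.head? = some (0, 0)) (ht : q.getLast? = some (w, h))
    (hbox : ∀ p ∈ q, p.1 ≤ w ∧ p.2 ≤ h) (hL : w + h + 1 ≤ q.length) (hq : q.Nodup)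
    (a b c : ℝ) (hab : a ≠ 0 ∨ b ≠ 0) :
    stabCount a b c ((totP w h B W r q r).map toQ) ≤
      (R + 1) * (2 * B + 2 * pE w h q.length) +
        2 * ((2 * B + 2 * pE w h q.length) + 2 * W) + 2 * (2 * W - 1 + 2 * pE w h q.length) + 4 := by
  have hmain := fun a b c : ℝ => yes_line hB hW hr hR hc hs ht hbox hL hq a b c
  have hW0 : (0 : ℝ) ≤ 2 * W := by positivity
  by_cases h1 : |b| * (2 * W) < |a|
  · rcases le_or_gt 0 a with ha | ha
    · rw [abs_of_nonneg ha] at h1
      exact hmain a b c (Or.inl h1)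
    · rw [abs_of_neg ha] at h1
      rw [← stabCount_neg]
      exact hmain (-a) (-b) (-c) (Or.inl (by rwa [abs_neg]))
  · rw [not_lt] at h1
    have hb0 : b ≠ 0 := by
      rintro rfl
      rw [abs_zero, zero_mul] at h1
      have := abs_nonpos_iff.1 h1
      rcases hab with hab | hab
      · exact hab this
      · exact hab rfl
    rcases lt_or_gt_of_ne hb0 with hb | hb
    · rw [abs_of_neg hb] at h1
      rw [← stabCount_neg]
      refine hmain (-a) (-b) (-c) (Or.inr ⟨by linarith, ?_⟩)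
      rw [abs_neg]
      linarith
    · rw [abs_of_pos hb] at h1
      exact hmain a b c (Or.inr ⟨hb, by linarith⟩)

theorem two_le_len (hB : 0 < B) (hW : W = B + (2 * (w + h + 4) + 4)) (hr0 : 0 < r)
    (hbox : ∀ p ∈ q, p.1 ≤ w ∧ p.2 ≤ h) (hq : q.Nodup) :
    2 ≤ ((List.range r).flatMap fun j => (List.range r).flatMap fun i =>
      tileP w h B W r q i j).length := by
  have h1 : tileP w h B W r q 0 0 ⊆ ((List.range r).flatMap fun j => (List.range r).flatMap fun i =>
      tileP w h B W r q i j) := by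
    intro c hc'
    rw [List.mem_flatMap]
    refine ⟨0, List.mem_range.2 hr0, ?_⟩
    rw [List.mem_flatMap]
    exact ⟨0, List.mem_range.2 hr0, hc'⟩
  have h2 := (List.Nodup.subperm (tileP_nodup (r := r) hB hW hq hbox 0 0) h1).length_le
  have h3 := tileG_length (q := q) hB hW 0 0
  have h4 : (tileP w h B W r q 0 0).length = (tileG w h B W q 0 0).length := by
    simp [tileP]
  omega

end

theorem toQ_injective : Function.Injective toQ := by
  rintro ⟨a, b⟩ ⟨c, d⟩ hab
  simp only [toQ, Prod.mk.injEq, Nat.cast_inj] at hab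
  exact Prod.ext hab.1 hab.2

/-- The yes case. -/
theorem yes_case {w h : ℕ} {q : List Cell} (hq : q.Nodup)
    (hbox : ∀ p ∈ q, p.1 ≤ w ∧ p.2 ≤ h) (hL : w + h + 1 ≤ q.length)
    (hH : HamPath q (0, 0) (w, h)) : PathStab (instOf w h q) := by
  obtain ⟨p, hperm, hc, hs, ht⟩ := hH
  have hlen := hperm.length_eq
  have hpnd : p.Nodup := hperm.nodup_iff.2 hq
  have hpbox : ∀ c ∈ p, c.1 ≤ w ∧ c.2 ≤ h := fun c hc' => hbox c (hperm.mem_iff.1 hc')
  obtain ⟨L, hLdef⟩ : ∃ L, L = q.length := ⟨_, rfl⟩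
  obtain ⟨B, hBdef⟩ : ∃ B, B = pB w h L := ⟨_, rfl⟩
  obtain ⟨W, hWdef⟩ : ∃ W, W = pW w h L := ⟨_, rfl⟩
  obtain ⟨R, hRdef⟩ : ∃ R, R = pR w h L := ⟨_, rfl⟩
  obtain ⟨r, hrdef⟩ : ∃ r, r = pr w h L := ⟨_, rfl⟩
  have hB : 0 < B := by rw [hBdef]; unfold pB; positivity
  have hW : W = B + (2 * (w + h + 4) + 4) := by rw [hWdef, hBdef]; rfl
  have hZ : 0 < pZ w h L := Nat.lt_of_lt_of_le (by norm_num : 0 < 4) (Nat.le_add_left 4 _)
  have hR : 0 < R := by
    have h1 : R = 4 * W * pZ w h L := by rw [hRdef, hWdef]; rfl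
    rw [h1]
    exact Nat.mul_pos (Nat.mul_pos (by norm_num) (by omega)) hZ
  have hr : r = 2 * B * R := by rw [hrdef, hBdef, hRdef]; rfl
  have hr0 : 0 < r := by rw [hr]; positivity
  have hLp : w + h + 1 ≤ p.length := by rw [hlen]; exact hL
  have hpts : ptsN w h q = ((List.range r).flatMap fun j => (List.range r).flatMap fun i =>
      tileP w h B W r q i j) := by
    rw [hrdef, hBdef, hWdef, hLdef]
    rfl
  refine ⟨?_, ?_, (totP w h B W r p r).map toQ, ?_, ?_⟩
  · show ((ptsN w h q).map toQ).Nodup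
    rw [hpts]
    exact (all_nodup hB hW hq hbox r).map toQ_injective
  · show 2 ≤ ((ptsN w h q).map toQ).length
    rw [List.length_map, hpts]
    exact two_le_len hB hW hr0 hbox hq
  · show ((totP w h B W r p r).map toQ).Perm ((ptsN w h q).map toQ)
    rw [hpts]
    exact List.Perm.map _ (totP_perm hperm r)
  · intro a b c hab
    show stabCount a b c ((totP w h B W r p r).map toQ) ≤ pk w h q.length
    refine le_trans (yes_all hB hW hr hR hc hs ht hpbox hLp hpnd a b c hab) ?_
    rw [hlen, ← hLdef]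
    have hpk : pk w h L = R * pK w h L + pZ w h L := by rw [hRdef]; rfl
    have hpZ : pZ w h L = 3 * pK w h L + 2 * pN w h L + 4 * W + 4 := by rw [hWdef]; rfl
    have hpK : pK w h L = 2 * B + 2 * pE w h L := by rw [hBdef]; rfl
    have hpN : pN w h L = 2 * W - 1 + 2 * pE w h L := by rw [hWdef]; rfl
    have hR1 : (R + 1) * (2 * B + 2 * pE w h L) =
        R * (2 * B + 2 * pE w h L) + (2 * B + 2 * pE w h L) := by ring
    rw [hpk, hpZ, hpK, hpN, hR1]
    omega

end Pool.Agent.R539
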