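import Pool.Agent.R539.PS.T2
import Pool.Agent.R539.PS.T5
import Pool.Agent.R539.PS.T6a
import Pool.Agent.R539.PS.T6b
import Pool.Agent.R539.PS.Yes2

/-!
# The reduction, assuming the only-if part for the grid
-/

namespace Pool.Agent.R539

open Pool.Agent.NPC

/-- The equivalence of the reduction, from the two halves for the grid. -/
theorem reduction_correct
    (honly : ∀ {m N : ℕ}, 0 < m → ∀ lit : ℕ → ℕ → ℕ, (gridC m (2 * N + 1) lit).Nodup →
      HamPath (gridC m (2 * N + 1) lit) (0, 0) (8 * m + 10, 26 * N + 12) →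
      ∃ x : ℕ → Bool, ∀ j < m, ∃ i < 2 * N + 1,
        (lit i j = 1 ∧ x i = true) ∨ (lit i j = 2 ∧ x i = false))
    (φ : List (Lit ℕ × Lit ℕ × Lit ℕ)) (hd : Distinct3 φ) (hb : Bounded3 φ) (hne : φ ≠ []) :
    SAT3 φ ↔ PathStab (instOf (8 * φ.length + 10) (78 * φ.length + 12) (cellsOf φ)) := by
  have hm : 0 < φ.length := List.length_pos_iff.2 hne
  have hn : 6 * φ.length + 1 = 2 * (3 * φ.length) + 1 := by ring
  have hcells : cellsOf φ = gridC φ.length (2 * (3 * φ.length) + 1) (litJ φ) := by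
    rw [cellsOf, hn]
  have hnd : (cellsOf φ).Nodup := gridC_nodup _ _ _
  have hbox : ∀ p ∈ cellsOf φ, p.1 ≤ 8 * φ.length + 10 ∧ p.2 ≤ 78 * φ.length + 12 := by
    intro p hp
    have := gridC_box φ.length (6 * φ.length + 1) (litJ φ) (by omega) p hp
    omega
  have hL : (8 * φ.length + 10) + (78 * φ.length + 12) + 1 ≤ (cellsOf φ).length :=
    gridC_len _ hm _
  have hs : ((0, 0) : Cell) ∈ cellsOf φ := gridC_s _ _ _
  have ht : ((8 * φ.length + 10, 78 * φ.length + 12) : Cell) ∈ cellsOf φ := by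
    rw [hcells, show 78 * φ.length + 12 = 26 * (3 * φ.length) + 12 by ring]
    exact gridC_t _ _ _
  rw [lit_sat φ hd hb, hn]
  constructor
  · rintro ⟨x, hx⟩
    have h1 := grid_if hm (litJ φ) x hx
    refine yes_case hnd hbox hL ?_
    rw [hcells, show 78 * φ.length + 12 = 26 * (3 * φ.length) + 12 by ring]
    exact h1
  · intro h
    have h1 := no_case (by omega) (by omega) hnd hbox hs ht hL h
    rw [hcells, show 78 * φ.length + 12 = 26 * (3 * φ.length) + 12 by ring] at h1
    exact honly hm (litJ φ) (by rw [← hcells]; exact hnd) h1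

end Pool.Agent.R539
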