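import Pool.Agent.NPC.Sat2

/-!
# Grid cells, Hamiltonian paths in sets of cells, and the cells of a 3SAT formula
-/

namespace Pool.Agent.R539

open Pool.Agent.NPC

/-- Cells of the grid. -/
abbrev Cell := ℕ × ℕ

/-- Two cells are adjacent if they differ by one unit step. -/
def UAdj (p q : Cell) : Prop :=
  (p.1 = q.1 ∧ (p.2 = q.2 + 1 ∨ q.2 = p.2 + 1)) ∨ (p.2 = q.2 ∧ (p.1 = q.1 + 1 ∨ q.1 = p.1 + 1))

instance (p q : Cell) : Decidable (UAdj p q) := by unfold UAdj; infer_instance

/-- There is a Hamiltonian path with unit steps from `s` to `t` through the cells listed in `Q`. -/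
def HamPath (Q : List Cell) (s t : Cell) : Prop :=
  ∃ l : List Cell, l.Perm Q ∧ l.IsChain UAdj ∧ l.head? = some s ∧ l.getLast? = some t

/-- A vertical run of cells. -/
def vr (a b k : ℕ) : List Cell := (List.range k).map fun t => (a, b + t)

/-- A horizontal run of cells. -/
def hr (a b k : ℕ) : List Cell := (List.range k).map fun t => (a + t, b)

/-- Translation of a list of cells. -/
def tr (x y : ℕ) (l : List Cell) : List Cell := l.map fun p => (x + p.1, y + p.2)

/-- The cells of the ring in a clause tile (with its tips, the middle element and the domino). -/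
def ringC (lo : Bool) (k : ℕ) : List Cell :=
  vr 2 2 3 ++ vr 2 9 4 ++ [(3, 2), (3, 11), (3, 12)] ++ vr 4 2 3 ++ vr 4 9 3 ++ vr 3 4 6 ++
    (if lo then [(2, 1), (3, 1)] else []) ++
    (if k = 1 then [(2, 6), (2, 7)] else if k = 2 then [(4, 6), (4, 7)] else [])

/-- The cells of a clause tile: `lo` says that the tile is not in the lowest band; `k` is `1` for a
positive literal, `2` for a negative literal, `0` if the variable does not occur in the clause. -/
def tileC (lo : Bool) (k : ℕ) : List Cell :=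
  vr 0 0 5 ++ vr 0 9 3 ++ hr 1 0 6 ++ vr 6 1 4 ++ vr 6 9 3 ++ [(7, 11)] ++ vr 1 4 6 ++ vr 5 4 6 ++
    vr 7 4 6 ++ ringC lo k

/-- The cells of a tile at the left end. -/
def tileL (ev : Bool) : List Cell :=
  vr 6 0 12 ++ vr 7 4 6 ++ [(7, 11)] ++ (if ev then [(4, 0), (5, 0)] else (5, 0) :: vr 4 0 13)

/-- The cells of a tile at the right end. -/
def tileR (ev : Bool) : List Cell :=
  vr 0 0 12 ++ (if ev then (1, 0) :: vr 2 0 13 else [(1, 0), (2, 0)])

/-- The cells of the band `i`, for `m` clauses; `lit i j` tells how the variable `i` occurs in the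
clause `j` (`1` positive, `2` negative, otherwise not at all). -/
def bandC (m : ℕ) (lit : ℕ → ℕ → ℕ) (i : ℕ) : List Cell :=
  tr 0 (13 * i) (tileL (decide (i % 2 = 0))) ++
  (List.range m).flatMap (fun j => tr (8 * (j + 1)) (13 * i) (tileC (decide (0 < i)) (lit i j))) ++
  tr (8 * (m + 1)) (13 * i) (tileR (decide (i % 2 = 0)))

/-- The cells for `m` clauses and `n` variables. -/
def gridC (m n : ℕ) (lit : ℕ → ℕ → ℕ) : List Cell :=
  hr 0 0 4 ++ (List.range n).flatMap (bandC m lit)

/-- How the variable `i` occurs in the clause `c`. -/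
def litK (c : Lit ℕ × Lit ℕ × Lit ℕ) (i : ℕ) : ℕ :=
  if c.1.2 = i then (if c.1.1 then 1 else 2)
  else if c.2.1.2 = i then (if c.2.1.1 then 1 else 2)
  else if c.2.2.2 = i then (if c.2.2.1 then 1 else 2)
  else 0

/-- How the variable `i` occurs in the clause number `j`. -/
def litJ (φ : List (Lit ℕ × Lit ℕ × Lit ℕ)) (i j : ℕ) : ℕ :=
  litK (φ.getD j ((true, 0), (true, 0), (true, 0))) i

/-- The cells of the formula `φ`. -/
def cellsOf (φ : List (Lit ℕ × Lit ℕ × Lit ℕ)) : List Cell :=
  gridC φ.length (6 * φ.length + 1) (litJ φ)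

end Pool.Agent.R539
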