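import Pool.Agent.R539.PS.Runs

/-!
# The four copies of a set of cells
-/

namespace Pool.Agent.R539

section

variable {w h : ℕ} {q : List Cell}

theorem swap_head? {l : List Cell} {p : Cell} (hp : l.head? = some p) :
    (l.map Prod.swap).head? = some p.swap := by simp [hp]

theorem swap_getLast? {l : List Cell} {p : Cell} (hp : l.getLast? = some p) :
    (l.map Prod.swap).getLast? = some p.swap := by simp [hp]

theorem pairL_length (w h : ℕ) (q : List Cell) : (pairL w h q).length = 2 * q.length + 2 := by
  simp only [pairL, List.length_append, List.length_cons, List.length_nil, tr_length,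
    List.length_map]
  omega

theorem gadL_length (w h : ℕ) (q : List Cell) : (gadL w h q).length = 4 * q.length + 5 := by
  simp only [gadL, List.length_append, List.length_cons, List.length_nil, tr_length,
    pairL_length]
  omega

theorem pairL_perm {q' : List Cell} (hq : q.Perm q') : (pairL w h q).Perm (pairL w h q') := by
  unfold pairL tr
  exact ((hq.append_right _).append ((hq.map _).map _)).append_right _

theorem gadL_perm {q' : List Cell} (hq : q.Perm q') : (gadL w h q).Perm (gadL w h q') := by
  unfold gadL tr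
  exact ((pairL_perm hq).append ((pairL_perm hq).map _)).append_right _

theorem pairL_box (hbox : ∀ p ∈ q, p.1 ≤ w ∧ p.2 ≤ h) :
    ∀ p ∈ pairL w h q, p.1 ≤ w + h + 3 ∧ p.2 ≤ w + h := by
  intro p hp
  simp only [pairL, List.mem_append, List.mem_singleton, mem_tr, List.mem_map] at hp
  rcases hp with ((hp | rfl) | ⟨c, ⟨d, hd, rfl⟩, h1, h2⟩) | rfl
  · have := hbox p hp; omega
  · exact ⟨by simp only; omega, by simp only; omega⟩
  · have := hbox d hd
    simp only [Prod.fst_swap, Prod.snd_swap] at h1 h2
    omega
  · exact ⟨by simp only; omega, by simp only; omega⟩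

theorem gadL_box (hbox : ∀ p ∈ q, p.1 ≤ w ∧ p.2 ≤ h) :
    ∀ p ∈ gadL w h q, p.1 ≤ 2 * (w + h + 4) ∧ p.2 ≤ 2 * (w + h) := by
  intro p hp
  simp only [gadL, List.mem_append, List.mem_singleton, mem_tr] at hp
  rcases hp with (hp | ⟨c, hc, h1, h2⟩) | rfl
  · have := pairL_box hbox p hp; omega
  · have := pairL_box hbox c hc; omega
  · exact ⟨by simp only; omega, by simp only; omega⟩

theorem pairL_nodup (hq : q.Nodup) (hbox : ∀ p ∈ q, p.1 ≤ w ∧ p.2 ≤ h) :
    (pairL w h q).Nodup := by
  have hsw : (tr (w + 2) h (q.map Prod.swap)).Nodup :=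
    tr_nodup (hq.map Prod.swap_injective)
  simp only [pairL]
  rw [List.nodup_append, List.nodup_append, List.nodup_append]
  refine ⟨⟨⟨hq, by simp, ?_⟩, hsw, ?_⟩, by simp, ?_⟩
  · intro a ha b hb hab
    rw [List.mem_singleton] at hb
    subst hb; subst hab
    have := hbox _ ha
    simp only at this
    omega
  · intro a ha b hb hab
    subst hab
    simp only [mem_tr, List.mem_map] at hb
    obtain ⟨c, ⟨d, hd, rfl⟩, h1, h2⟩ := hb
    have := hbox d hd
    simp only [Prod.fst_swap, Prod.snd_swap] at h1 h2
    rw [List.mem_append, List.mem_singleton] at ha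
    rcases ha with ha | rfl
    · have := hbox _ ha; omega
    · simp only at h1; omega
  · intro a ha b hb hab
    rw [List.mem_singleton] at hb
    subst hb; subst hab
    simp only [List.mem_append, List.mem_singleton, mem_tr, List.mem_map, Prod.mk.injEq] at ha
    rcases ha with (ha | ha) | ⟨c, ⟨d, hd, rfl⟩, h1, h2⟩
    · have := hbox _ ha; simp only at this; omega
    · omega
    · have := hbox d hd
      simp only [Prod.fst_swap, Prod.snd_swap] at h1 h2
      omega

theorem gadL_nodup (hq : q.Nodup) (hbox : ∀ p ∈ q, p.1 ≤ w ∧ p.2 ≤ h) :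
    (gadL w h q).Nodup := by
  simp only [gadL]
  rw [List.nodup_append, List.nodup_append]
  refine ⟨⟨pairL_nodup hq hbox, tr_nodup (pairL_nodup hq hbox), ?_⟩, by simp, ?_⟩
  · intro a ha b hb hab
    subst hab
    rw [mem_tr] at hb
    obtain ⟨c, hc, h1, h2⟩ := hb
    have := pairL_box hbox _ ha
    have := pairL_box hbox _ hc
    omega
  · intro a ha b hb hab
    rw [List.mem_singleton] at hb
    subst hb; subst hab
    simp only [List.mem_append, mem_tr] at ha
    rcases ha with ha | ⟨c, hc, h1, h2⟩
    · have := pairL_box hbox _ ha; simp only at this; omega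
    · have := pairL_box hbox _ hc; omega

theorem pairL_head? {a : Cell} (hs : q.head? = some a) : (pairL w h q).head? = some a := by
  simp [pairL, hs]

theorem pairL_getLast? (w h : ℕ) (q : List Cell) :
    (pairL w h q).getLast? = some (w + h + 3, w + h) := by
  simp only [pairL, List.getLast?_append, List.getLast?_singleton, Option.some_or]

theorem gadL_head? {a : Cell} (hs : q.head? = some a) : (gadL w h q).head? = some a := by
  have := pairL_head? (w := w) (h := h) hs
  simp [gadL, this]

theorem gadL_getLast? (w h : ℕ) (q : List Cell) :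
    (gadL w h q).getLast? = some (2 * (w + h + 4), 2 * (w + h)) := by
  simp only [gadL, List.getLast?_append, List.getLast?_singleton, Option.some_or]

theorem ad_self (a : ℕ) : ad a a = 0 := by simp [ad]
theorem ad_succ (a : ℕ) : ad a (a + 1) = 1 := by simp [ad]

theorem hlen_pairL (hs : q.head? = some (0, 0)) (ht : q.getLast? = some (w, h)) :
    hlen (pairL w h q) = hlen q + vlen q + 3 := by
  unfold pairL
  have h1 : (q ++ [(w + 1, h)]).getLast? = some (w + 1, h) := by simp
  have h2 : (tr (w + 2) h (q.map Prod.swap)).head? = some (w + 2, h) := by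
    rw [tr_head? (swap_head? hs)]; simp
  have h3 : (tr (w + 2) h (q.map Prod.swap)).getLast? = some (w + 2 + h, h + w) := by
    rw [tr_getLast? (swap_getLast? ht)]; simp
  have h4 : (q ++ [(w + 1, h)] ++ tr (w + 2) h (q.map Prod.swap)).getLast? =
      some (w + 2 + h, h + w) := by
    rw [List.getLast?_append, h3]; rfl
  rw [hlen_append _ _ h4 (List.head?_cons ..), hlen_append _ _ h1 h2,
    hlen_append _ _ ht (List.head?_cons ..), hlen_tr, hlen_swap]
  simp only [hlen, ad]
  omega

theorem vlen_pairL (hs : q.head? = some (0, 0)) (ht : q.getLast? = some (w, h)) :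
    vlen (pairL w h q) = hlen q + vlen q := by
  unfold pairL
  have h1 : (q ++ [(w + 1, h)]).getLast? = some (w + 1, h) := by simp
  have h2 : (tr (w + 2) h (q.map Prod.swap)).head? = some (w + 2, h) := by
    rw [tr_head? (swap_head? hs)]; simp
  have h3 : (tr (w + 2) h (q.map Prod.swap)).getLast? = some (w + 2 + h, h + w) := by
    rw [tr_getLast? (swap_getLast? ht)]; simp
  have h4 : (q ++ [(w + 1, h)] ++ tr (w + 2) h (q.map Prod.swap)).getLast? =
      some (w + 2 + h, h + w) := by
    rw [List.getLast?_append, h3]; rfl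
  rw [vlen_append _ _ h4 (List.head?_cons ..), vlen_append _ _ h1 h2,
    vlen_append _ _ ht (List.head?_cons ..), vlen_tr, vlen_swap]
  simp only [vlen, ad]
  omega

theorem hlen_gadL (hc : q.IsChain UAdj) (hs : q.head? = some (0, 0))
    (ht : q.getLast? = some (w, h)) : hlen (gadL w h q) = 2 * q.length + 6 := by
  unfold gadL
  have h1 := pairL_getLast? w h q
  have h2 : (tr (w + h + 4) (w + h) (pairL w h q)).head? = some (w + h + 4, w + h) := by
    rw [tr_head? (pairL_head? hs)]; simp
  have h3 : (tr (w + h + 4) (w + h) (pairL w h q)).getLast? =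
      some (w + h + 4 + (w + h + 3), w + h + (w + h)) := by
    rw [tr_getLast? h1]
  have h4 : (pairL w h q ++ tr (w + h + 4) (w + h) (pairL w h q)).getLast? =
      some (w + h + 4 + (w + h + 3), w + h + (w + h)) := by
    rw [List.getLast?_append, h3]; rfl
  rw [hlen_append _ _ h4 (List.head?_cons ..), hlen_append _ _ h1 h2, hlen_tr,
    hlen_pairL hs ht]
  have := hlen_add_vlen hc
  have hpos : 0 < q.length := by
    cases q with
    | nil => simp at hs
    | cons a l => simp
  simp only [hlen, ad]
  omega

theorem vlen_gadL (hc : q.IsChain UAdj) (hs : q.head? = some (0, 0))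
    (ht : q.getLast? = some (w, h)) : vlen (gadL w h q) + 2 = 2 * q.length := by
  unfold gadL
  have h1 := pairL_getLast? w h q
  have h2 : (tr (w + h + 4) (w + h) (pairL w h q)).head? = some (w + h + 4, w + h) := by
    rw [tr_head? (pairL_head? hs)]; simp
  have h3 : (tr (w + h + 4) (w + h) (pairL w h q)).getLast? =
      some (w + h + 4 + (w + h + 3), w + h + (w + h)) := by
    rw [tr_getLast? h1]
  have h4 : (pairL w h q ++ tr (w + h + 4) (w + h) (pairL w h q)).getLast? =
      some (w + h + 4 + (w + h + 3), w + h + (w + h)) := by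
    rw [List.getLast?_append, h3]; rfl
  rw [vlen_append _ _ h4 (List.head?_cons ..), vlen_append _ _ h1 h2, vlen_tr,
    vlen_pairL hs ht]
  have := hlen_add_vlen hc
  have hpos : 0 < q.length := by
    cases q with
    | nil => simp at hs
    | cons a l => simp
  simp only [vlen, ad]
  omega

/-- The excess of crossings over one, for vertical lines. -/
def exx (w h : ℕ) (q : List Cell) (t : ℕ) : ℕ :=
  if 1 ≤ t ∧ t ≤ 2 * (w + h + 4) then cr (fun p : Cell => decide (t ≤ p.1)) (gadL w h q) - 1 else 0

/-- The excess of crossings over one, for horizontal lines. -/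
def exy (w h : ℕ) (q : List Cell) (t : ℕ) : ℕ :=
  if 1 ≤ t ∧ t ≤ 2 * (w + h) then cr (fun p : Cell => decide (t ≤ p.2)) (gadL w h q) - 1 else 0

theorem sum_exx (hc : q.IsChain UAdj) (hs : q.head? = some (0, 0))
    (ht : q.getLast? = some (w, h)) (hbox : ∀ p ∈ q, p.1 ≤ w ∧ p.2 ≤ h)
    (hL : w + h + 1 ≤ q.length) :
    ∑ t ∈ Finset.Icc 1 (2 * (w + h + 4)), exx w h q t = pE w h q.length := by
  have h1 := sum_cr_fst (2 * (w + h + 4)) (l := gadL w h q) (fun p hp => (gadL_box hbox p hp).1)
  rw [hlen_gadL hc hs ht] at h1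
  have h2 : ∑ t ∈ Finset.Icc 1 (2 * (w + h + 4)), (exx w h q t + 1) = 2 * q.length + 6 := by
    rw [← h1]
    refine Finset.sum_congr rfl fun t htt => ?_
    rw [Finset.mem_Icc] at htt
    rw [exx, if_pos htt]
    have := cr_pos (f := fun p : Cell => decide (t ≤ p.1)) (gadL_head? (w := w) (h := h) hs)
      (gadL_getLast? w h q) (by
        simp only [ne_eq, decide_eq_decide]
        omega)
    omega
  rw [Finset.sum_add_distrib] at h2
  simp only [Finset.sum_const, Nat.card_Icc, smul_eq_mul, mul_one] at h2
  unfold pE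
  omega

theorem sum_exy (hc : q.IsChain UAdj) (hs : q.head? = some (0, 0))
    (ht : q.getLast? = some (w, h)) (hbox : ∀ p ∈ q, p.1 ≤ w ∧ p.2 ≤ h)
    (hL : w + h + 1 ≤ q.length) :
    ∑ t ∈ Finset.Icc 1 (2 * (w + h)), exy w h q t = pE w h q.length := by
  have h1 := sum_cr_snd (2 * (w + h)) (l := gadL w h q) (fun p hp => (gadL_box hbox p hp).2)
  have h0 := vlen_gadL hc hs ht
  have h2 : ∑ t ∈ Finset.Icc 1 (2 * (w + h)), (exy w h q t + 1) = vlen (gadL w h q) := by
    rw [← h1]
    refine Finset.sum_congr rfl fun t htt => ?_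
    rw [Finset.mem_Icc] at htt
    rw [exy, if_pos htt]
    have := cr_pos (f := fun p : Cell => decide (t ≤ p.2)) (gadL_head? (w := w) (h := h) hs)
      (gadL_getLast? w h q) (by
        simp only [ne_eq, decide_eq_decide]
        omega)
    omega
  rw [Finset.sum_add_distrib] at h2
  simp only [Finset.sum_const, Nat.card_Icc, smul_eq_mul, mul_one] at h2
  unfold pE
  omega

/-- shifted sums of a function supported on an interval -/
theorem sum_shift_le (B n c θ : ℕ) (f : ℕ → ℕ) (hf : ∀ t, t ∉ Finset.Icc 1 n → f t = 0) :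
    ∑ o ∈ Finset.range B, f (θ - (o + c)) ≤ ∑ t ∈ Finset.Icc 1 n, f t := by
  classical
  have h0 : f 0 = 0 := hf 0 (by simp)
  rw [← Finset.sum_filter_add_sum_filter_not (Finset.range B) (fun o => o + c < θ)]
  have h1 : ∑ o ∈ Finset.range B with ¬ (o + c < θ), f (θ - (o + c)) = 0 := by
    refine Finset.sum_eq_zero fun o ho => ?_
    rw [Finset.mem_filter] at ho
    rw [show θ - (o + c) = 0 by omega, h0]
  rw [h1, add_zero]
  have h2 : ∑ o ∈ Finset.range B with (o + c < θ), f (θ - (o + c)) =
      ∑ t ∈ ((Finset.range B).filter (fun o => o + c < θ)).image (fun o => θ - (o + c)), f t := by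
    rw [Finset.sum_image]
    intro a ha b hb hab
    simp only [Finset.coe_filter, Set.mem_ofPred_eq] at ha hb
    simp only at hab
    omega
  rw [h2]
  rw [← Finset.sum_filter_of_ne (p := fun t => t ∈ Finset.Icc 1 n)
    (fun t _ ht => by by_contra hh; exact ht (hf t hh))]
  refine Finset.sum_le_sum_of_subset ?_
  intro t ht
  rw [Finset.mem_filter] at ht
  exact ht.2

end

end Pool.Agent.R539
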