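import Pool.Agent.R539.PS.CR

/-!
# The lane lemma
-/

namespace Pool.Agent.R539

theorem cr_ne_zero {α : Type*} {f : α → Bool} {l : List α} (h : cr f l ≠ 0) :
    (∃ a ∈ l, f a = true) ∧ (∃ a ∈ l, f a = false) := by
  constructor
  · by_contra hh
    push Not at hh
    exact h (cr_const (c := false) fun a ha => by simpa using hh a ha)
  · by_contra hh
    push Not at hh
    exact h (cr_const (c := true) fun a ha => by simpa using hh a ha)

theorem sum_le_of_unique {s : Finset ℕ} {f : ℕ → ℕ} {C : ℕ} (h1 : ∀ l ∈ s, f l ≤ C)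
    (h2 : ∀ l ∈ s, ∀ l' ∈ s, l < l' → f l = 0 ∨ f l' = 0) : ∑ l ∈ s, f l ≤ C := by
  by_cases h : ∀ l ∈ s, f l = 0
  · rw [Finset.sum_eq_zero h]
    exact Nat.zero_le _
  · push Not at h
    obtain ⟨l0, hl0, hne⟩ := h
    rw [Finset.sum_eq_single l0]
    · exact h1 l0 hl0
    · intro l hl hll
      rcases Nat.lt_or_gt_of_ne hll with h3 | h3
      · rcases h2 l hl l0 hl0 h3 with h4 | h4
        · exact h4
        · exact absurd h4 hne
      · rcases h2 l0 hl0 l hl h3 with h4 | h4
        · exact absurd h4 hne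
        · exact h4
    · intro h3; exact absurd hl0 h3

theorem sum_windows (g : ℕ → ℕ) (P : ℕ) : ∀ R : ℕ,
    ∑ l ∈ Finset.range (P * R), g l =
      ∑ a ∈ Finset.range R, ∑ l ∈ Finset.Ico (a * P) ((a + 1) * P), g l
  | 0 => by simp
  | R + 1 => by
    rw [Finset.sum_range_succ, ← sum_windows g P R, Finset.range_eq_Ico, Finset.range_eq_Ico,
      show P * (R + 1) = (R + 1) * P by ring, show P * R = R * P by ring]
    rw [Finset.sum_Ico_consecutive]
    · omega
    · nlinarith

/-- Two thresholds, changing once: the sum of the loads. -/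
theorem sum_two {R P K : ℕ} (hP : 0 < P) (L1 L2 : ℕ → ℕ) (l0 : ℕ)
    (h1 : ∀ a < R, ∑ l ∈ Finset.Ico (a * P) ((a + 1) * P), L1 l ≤ K)
    (h2 : ∀ a < R, ∑ l ∈ Finset.Ico (a * P) ((a + 1) * P), L2 l ≤ K) :
    ∑ l ∈ Finset.range (P * R), ((if l < l0 then L1 l else 0) + (if l0 < l then L2 l else 0)) ≤
      (R + 1) * K := by
  rw [sum_windows]
  have key : ∀ a ∈ Finset.range R, ∑ l ∈ Finset.Ico (a * P) ((a + 1) * P),
      ((if l < l0 then L1 l else 0) + (if l0 < l then L2 l else 0)) ≤
        K + (if a = l0 / P then K else 0) := by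
    intro a ha
    rw [Finset.mem_range] at ha
    have hh1 := h1 a ha
    have hh2 := h2 a ha
    have hdm := Nat.div_add_mod l0 P
    have hml := Nat.mod_lt l0 hP
    rcases Nat.lt_trichotomy a (l0 / P) with h3 | h3 | h3
    · have h4 : (a + 1) * P ≤ l0 := by
        have := Nat.mul_le_mul_right P (show a + 1 ≤ l0 / P from h3)
        have h5 : P * (l0 / P) = l0 / P * P := Nat.mul_comm _ _
        omega
      rw [if_neg (by omega), add_zero]
      refine le_trans (Finset.sum_le_sum fun l hl => ?_) hh1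
      rw [Finset.mem_Ico] at hl
      rw [if_pos (by omega), if_neg (by omega)]
      omega
    · rw [if_pos h3, Finset.sum_add_distrib]
      refine add_le_add ?_ ?_
      · refine le_trans (Finset.sum_le_sum fun l hl => ?_) hh1
        split_ifs <;> omega
      · refine le_trans (Finset.sum_le_sum fun l hl => ?_) hh2
        split_ifs <;> omega
    · have h4 : l0 < a * P := by
        have := Nat.mul_le_mul_right P (show l0 / P + 1 ≤ a from h3)
        have h5 : P * (l0 / P) = l0 / P * P := Nat.mul_comm _ _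
        have h6 : (l0 / P + 1) * P = l0 / P * P + P := by ring
        omega
      rw [if_neg (by omega), add_zero]
      refine le_trans (Finset.sum_le_sum fun l hl => ?_) hh2
      rw [Finset.mem_Ico] at hl
      rw [if_neg (by omega), if_pos (by omega)]
      omega
  refine le_trans (Finset.sum_le_sum key) ?_
  rw [Finset.sum_add_distrib, Finset.sum_const, Finset.card_range, smul_eq_mul, add_mul, one_mul]
  refine Nat.add_le_add_left ?_ _
  rw [Finset.sum_ite_eq']
  split_ifs <;> omega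

theorem lane {r P R K C M W : ℕ} (hr : r = P * R) (hP : 0 < P) (Z : ℕ → ℕ)
    (π : ℕ → List (ℕ × ℕ))
    (hz : ∀ l < r, ∀ p ∈ π l, Z l ≤ p.2 ∧ p.2 < Z l + W) (hw : ∀ l < r, ∀ p ∈ π l, p.1 ≤ M)
    (hZ : ∀ l l', l < l' → l' < r → (2 * M + 2) * (Z l + W) + Z l + W ≤ Z l')
    (hload : ∀ a < R, ∀ θ : ℕ, ∑ l ∈ Finset.Ico (a * P) ((a + 1) * P),
      cr (fun p : ℕ × ℕ => decide (θ ≤ p.1)) (π l) ≤ K)
    (α β : ℝ)
    (hC : ∀ l < r, cr (fun p : ℕ × ℕ => decide (α + β * (p.2 : ℝ) < (p.1 : ℝ))) (π l) ≤ C) :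
    ∑ l ∈ Finset.range r, cr (fun p : ℕ × ℕ => decide (α + β * (p.2 : ℝ) < (p.1 : ℝ))) (π l) ≤
      (R + 1) * K + 2 * C := by
  classical
  set side : ℕ × ℕ → Bool := fun p => decide (α + β * (p.2 : ℝ) < (p.1 : ℝ)) with hside
  have hZmono : ∀ l l', l < l' → l' < r → Z l + W ≤ Z l' := by
    intro l l' h1 h2
    have := hZ l l' h1 h2
    have h3 : 0 ≤ (2 * M + 2) * (Z l + W) := Nat.zero_le _
    omega
  -- lanes that are not small
  have hbig : ∑ l ∈ (Finset.range r).filter (fun l => ¬ (|β| * ((Z l : ℝ) + W) < 1 / 2)),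
      cr side (π l) ≤ C := by
    refine sum_le_of_unique ?_ ?_
    · intro l hl
      rw [Finset.mem_filter, Finset.mem_range] at hl
      exact hC l hl.1
    · intro l hl l' hl' hll
      rw [Finset.mem_filter, Finset.mem_range] at hl hl'
      by_contra hh
      push Not at hh
      obtain ⟨⟨p, hp, hpt⟩, ⟨p', hp', hpf⟩⟩ := cr_ne_zero hh.1
      obtain ⟨⟨s, hs, hst⟩, ⟨s', hs', hsf⟩⟩ := cr_ne_zero hh.2
      simp only [hside, decide_eq_true_eq, decide_eq_false_iff_not, not_lt] at hpt hpf hst hsf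
      have e1 := hz l hl.1 p hp
      have e2 := hz l hl.1 p' hp'
      have e3 := hz l' hl'.1 s hs
      have e4 := hz l' hl'.1 s' hs'
      have f1 := hw l hl.1 p hp
      have f3 := hw l' hl'.1 s hs
      have g := hZ l l' hll hl'.1
      have hb := hl.2
      rw [not_lt] at hb
      have gR : ((2 * M + 2) * ((Z l : ℝ) + W) + Z l + W : ℝ) ≤ Z l' := by exact_mod_cast g
      have hM : (0 : ℝ) ≤ M := Nat.cast_nonneg _
      have hp'0 : (0 : ℝ) ≤ p'.1 := Nat.cast_nonneg _
      have hs'0 : (0 : ℝ) ≤ s'.1 := Nat.cast_nonneg _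
      have f1R : (p.1 : ℝ) ≤ M := by exact_mod_cast f1
      have f3R : (s.1 : ℝ) ≤ M := by exact_mod_cast f3
      have e1R : (p.2 : ℝ) ≤ Z l + W := by exact_mod_cast e1.2.le
      have e2R : (p'.2 : ℝ) ≤ Z l + W := by exact_mod_cast e2.2.le
      have e3R : (Z l' : ℝ) ≤ s.2 := by exact_mod_cast e3.1
      have e4R : (Z l' : ℝ) ≤ s'.2 := by exact_mod_cast e4.1
      rcases le_or_gt 0 β with hβ | hβ
      · rw [abs_of_nonneg hβ] at hb
        have h1 : β * ((2 * M + 2) * ((Z l : ℝ) + W)) ≤ β * (s.2 - p'.2) := by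
          apply mul_le_mul_of_nonneg_left _ hβ
          linarith
        nlinarith
      · rw [abs_of_neg hβ] at hb
        have h1 : (-β) * ((2 * M + 2) * ((Z l : ℝ) + W)) ≤ (-β) * (s'.2 - p.2) := by
          apply mul_le_mul_of_nonneg_left _ (by linarith)
          linarith
        nlinarith
  -- small lanes
  set k : ℤ := round α with hk
  have hkα := abs_sub_round α
  have hsm : ∀ l < r, |β| * ((Z l : ℝ) + W) < 1 / 2 → ∀ p ∈ π l,
      ((k < p.1 → side p = true) ∧ ((p.1 : ℤ) < k → side p = false)) := by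
    intro l hl hs p hp
    have e := hz l hl p hp
    have eR : (p.2 : ℝ) ≤ Z l + W := by exact_mod_cast e.2.le
    have h0 : (0 : ℝ) ≤ p.2 := Nat.cast_nonneg _
    have h1 : |β * p.2| < 1 / 2 := by
      rw [abs_mul, abs_of_nonneg h0]
      exact lt_of_le_of_lt (mul_le_mul_of_nonneg_left eR (abs_nonneg _)) hs
    rw [abs_lt] at h1
    rw [abs_le] at hkα
    constructor
    · intro h2
      have h3 : ((k + 1 : ℤ) : ℝ) ≤ ((p.1 : ℤ) : ℝ) := by exact_mod_cast h2
      push_cast at h3
      rw [hside]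
      simp only [decide_eq_true_eq]
      linarith [hkα.2, h1.2]
    · intro h2
      have h3 : (((p.1 : ℤ) + 1 : ℤ) : ℝ) ≤ ((k : ℤ) : ℝ) := by exact_mod_cast h2
      push_cast at h3
      rw [hside]
      simp only [decide_eq_false_iff_not, not_lt]
      linarith [hkα.1, h1.1]
  -- the two kinds
  have kind1 : ∀ l < r, |β| * ((Z l : ℝ) + W) < 1 / 2 →
      (∀ p ∈ π l, (p.1 : ℤ) = k → side p = true) →
      cr side (π l) = cr (fun p : ℕ × ℕ => decide (k.toNat ≤ p.1)) (π l) := by
    intro l hl hs hp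
    refine cr_congr fun p hpm => ?_
    have := hsm l hl hs p hpm
    rcases lt_trichotomy (p.1 : ℤ) k with h | h | h
    · rw [this.2 h]; symm; rw [decide_eq_false_iff_not]; omega
    · rw [hp p hpm h]; symm; rw [decide_eq_true_eq]; omega
    · rw [this.1 h]; symm; rw [decide_eq_true_eq]; omega
  have kind2 : ∀ l < r, |β| * ((Z l : ℝ) + W) < 1 / 2 →
      (∀ p ∈ π l, (p.1 : ℤ) = k → side p = false) →
      cr side (π l) = cr (fun p : ℕ × ℕ => decide ((k + 1).toNat ≤ p.1)) (π l) := by
    intro l hl hs hp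
    refine cr_congr fun p hpm => ?_
    have := hsm l hl hs p hpm
    rcases lt_trichotomy (p.1 : ℤ) k with h | h | h
    · rw [this.2 h]; symm; rw [decide_eq_false_iff_not]; omega
    · rw [hp p hpm h]; symm; rw [decide_eq_false_iff_not]; omega
    · rw [this.1 h]; symm; rw [decide_eq_true_eq]; omega
  have hex : ∃ l0 θ1 θ2 : ℕ, ∀ l < r, |β| * ((Z l : ℝ) + W) < 1 / 2 →
      (l < l0 → cr side (π l) = cr (fun p : ℕ × ℕ => decide (θ1 ≤ p.1)) (π l)) ∧
      (l0 < l → cr side (π l) = cr (fun p : ℕ × ℕ => decide (θ2 ≤ p.1)) (π l)) := by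
    rcases le_or_gt 0 β with hβ | hβ
    · by_cases hb : ∃ l, l < r ∧ |β| * ((Z l : ℝ) + W) < 1 / 2 ∧
        ∃ p ∈ π l, (p.1 : ℤ) = k ∧ side p = false
      · refine ⟨Nat.find hb, k.toNat, (k + 1).toNat, fun l hl hs => ⟨fun h => ?_, fun h => ?_⟩⟩
        · refine kind1 l hl hs fun p hp hpk => ?_
          by_contra hh
          rw [Bool.not_eq_true] at hh
          exact Nat.find_min hb h ⟨hl, hs, p, hp, hpk, hh⟩
        · obtain ⟨hm1, _, p0, hp0, hp0k, hp0f⟩ := Nat.find_spec hb
          refine kind2 l hl hs fun p hp hpk => ?_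
          have e1 := hz _ hm1 p0 hp0
          have e2 := hz l hl p hp
          have e3 := hZmono _ _ h hl
          have e4 : (p0.2 : ℝ) ≤ p.2 := by exact_mod_cast (by omega : p0.2 ≤ p.2)
          have e5 : (p0.1 : ℝ) = p.1 := by
            exact_mod_cast (show (p0.1 : ℤ) = p.1 by rw [hp0k, hpk])
          simp only [hside, decide_eq_false_iff_not, not_lt] at hp0f ⊢
          have := mul_le_mul_of_nonneg_left e4 hβ
          linarith
      · refine ⟨r, k.toNat, (k + 1).toNat, fun l hl hs => ⟨fun h => ?_, fun h => ?_⟩⟩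
        · refine kind1 l hl hs fun p hp hpk => ?_
          by_contra hh
          rw [Bool.not_eq_true] at hh
          exact hb ⟨l, hl, hs, p, hp, hpk, hh⟩
        · omega
    · by_cases hb : ∃ l, l < r ∧ |β| * ((Z l : ℝ) + W) < 1 / 2 ∧
        ∃ p ∈ π l, (p.1 : ℤ) = k ∧ side p = true
      · refine ⟨Nat.find hb, (k + 1).toNat, k.toNat, fun l hl hs => ⟨fun h => ?_, fun h => ?_⟩⟩
        · refine kind2 l hl hs fun p hp hpk => ?_
          by_contra hh
          rw [Bool.not_eq_false] at hh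
          exact Nat.find_min hb h ⟨hl, hs, p, hp, hpk, hh⟩
        · obtain ⟨hm1, _, p0, hp0, hp0k, hp0f⟩ := Nat.find_spec hb
          refine kind1 l hl hs fun p hp hpk => ?_
          have e1 := hz _ hm1 p0 hp0
          have e2 := hz l hl p hp
          have e3 := hZmono _ _ h hl
          have e4 : (p0.2 : ℝ) ≤ p.2 := by exact_mod_cast (by omega : p0.2 ≤ p.2)
          have e5 : (p0.1 : ℝ) = p.1 := by
            exact_mod_cast (show (p0.1 : ℤ) = p.1 by rw [hp0k, hpk])
          simp only [hside, decide_eq_true_eq] at hp0f ⊢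
          have := mul_le_mul_of_nonpos_left e4 hβ.le
          linarith
      · refine ⟨r, (k + 1).toNat, k.toNat, fun l hl hs => ⟨fun h => ?_, fun h => ?_⟩⟩
        · refine kind2 l hl hs fun p hp hpk => ?_
          by_contra hh
          rw [Bool.not_eq_false] at hh
          exact hb ⟨l, hl, hs, p, hp, hpk, hh⟩
        · omega
  obtain ⟨l0, θ1, θ2, hl0⟩ := hex
  have hsmall : ∑ l ∈ (Finset.range r).filter (fun l => |β| * ((Z l : ℝ) + W) < 1 / 2),
      cr side (π l) ≤ (R + 1) * K + C := by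
    have h1 := sum_two (R := R) (K := K) hP
      (fun l => cr (fun p : ℕ × ℕ => decide (θ1 ≤ p.1)) (π l))
      (fun l => cr (fun p : ℕ × ℕ => decide (θ2 ≤ p.1)) (π l)) l0
      (fun a ha => hload a ha θ1) (fun a ha => hload a ha θ2)
    rw [← hr] at h1
    have h2 : ∑ l ∈ Finset.range r, (if l = l0 then (if l0 < r then C else 0) else 0) ≤ C := by
      rw [Finset.sum_ite_eq']
      split_ifs <;> omega
    refine le_trans ?_ (add_le_add h1 h2)
    rw [← Finset.sum_add_distrib]
    refine le_trans ?_ (Finset.sum_le_sum_of_subset (Finset.filter_subset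
      (fun l => |β| * ((Z l : ℝ) + W) < 1 / 2) (Finset.range r)))
    refine Finset.sum_le_sum fun l hl => ?_
    rw [Finset.mem_filter, Finset.mem_range] at hl
    have h3 := hl0 l hl.1 hl.2
    rcases Nat.lt_trichotomy l l0 with h | h | h
    · rw [if_pos h, if_neg (by omega), if_neg (by omega), h3.1 h]
      omega
    · subst h
      rw [if_neg (by omega), if_neg (by omega), if_pos rfl, if_pos hl.1]
      have := hC l hl.1
      omega
    · rw [if_neg (by omega), if_pos h, if_neg (by omega), h3.2 h]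
      omega
  have htot := Finset.sum_filter_add_sum_filter_not (Finset.range r)
    (fun l => |β| * ((Z l : ℝ) + W) < 1 / 2) (fun l => cr side (π l))
  rw [← htot]
  omega

end Pool.Agent.R539
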