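import Pool.Agent.R539.PS.Win

/-!
# Rows of tiles
-/

namespace Pool.Agent.R539

/-- indicator of a change -/
def chg (a b : Bool) : ℕ := if a = b then 0 else 1

theorem chg_le (a b : Bool) : chg a b ≤ 1 := by unfold chg; split_ifs <;> omega

theorem chg_not (a b : Bool) : chg (!a) (!b) = chg a b := by cases a <;> cases b <;> rfl

/-- a monotone sequence changes at most once -/
theorem sum_chg_mono {s : ℕ → Bool} (hs : ∀ i j, i ≤ j → s i = true → s j = true) (n : ℕ) :
    ∑ i ∈ Finset.range n, chg (s i) (s (i + 1)) ≤ 1 ∧
      (s n = false → ∑ i ∈ Finset.range n, chg (s i) (s (i + 1)) = 0) := by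
  induction n with
  | zero => simp
  | succ n ih =>
    rw [Finset.sum_range_succ]
    constructor
    · by_cases h : s n = true
      · have h2 := hs n (n + 1) (by omega) h
        rw [h, h2]
        have := ih.1
        have h3 : chg true true = 0 := rfl
        omega
      · rw [Bool.not_eq_true] at h
        rw [ih.2 h]
        have := chg_le (s n) (s (n + 1))
        omega
    · intro h
      have h2 : s n = false := by
        by_contra hh
        rw [Bool.not_eq_false] at hh
        rw [hs n (n + 1) (by omega) hh] at h
        simp at h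
      rw [ih.2 h2, h, h2]
      simp [chg]

theorem sum_chg_le {s : ℕ → Bool} (hs : (∀ i j, i ≤ j → s i = true → s j = true) ∨
    (∀ i j, i ≤ j → s j = true → s i = true)) (n : ℕ) :
    ∑ i ∈ Finset.range n, chg (s i) (s (i + 1)) ≤ 1 := by
  rcases hs with hs | hs
  · exact (sum_chg_mono hs n).1
  · have := (sum_chg_mono (s := fun i => !(s i)) (by
      intro i j hij h
      simp only [Bool.not_eq_true'] at h ⊢
      by_contra hh
      rw [Bool.not_eq_false] at hh
      rw [hs i j hij hh] at h
      simp at h) n).1
    simpa only [chg_not] using this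

section

variable {w h B W r : ℕ} {q : List Cell}

/-- The row of tiles number `j`, the first `n` tiles. -/
def rowP (w h B W r : ℕ) (q : List Cell) (j n : ℕ) : List Cell :=
  (List.range n).flatMap fun i => tileP w h B W r q i j

theorem rowP_succ (j n : ℕ) :
    rowP w h B W r q j (n + 1) = rowP w h B W r q j n ++ tileP w h B W r q n j := by
  unfold rowP
  rw [List.range_succ, List.flatMap_append]
  simp

/-- head of a tile -/
def hdP (W r i j : ℕ) : Cell := (xc W i, yc W r j + (if i % 2 = 0 then 0 else W - 1))

/-- last point of a tile -/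
def laP (W r i j : ℕ) : Cell := (xc W i + (W - 1), yc W r j + (if i % 2 = 0 then W - 1 else 0))

theorem tileP_head? (i j : ℕ) : (tileP w h B W r q i j).head? = some (hdP W r i j) := by
  unfold tileP tileG hdP
  have := tileT_head? (w := w) (h := h) (W := W) (q := q) (x := ofs B j) (y := ofs B i)
  split_ifs <;> simp [this]

theorem tileP_getLast? (hB : 0 < B) (hW : W = B + (2 * (w + h + 4) + 4)) (i j : ℕ) :
    (tileP w h B W r q i j).getLast? = some (laP W r i j) := by
  unfold tileP tileG laP
  have h1 := ofs_lt hB j
  have := tileT_getLast? (w := w) (h := h) (W := W) (q := q) (x := ofs B j) (y := ofs B i)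
    (by omega)
  split_ifs <;> simp [this]

theorem rowP_head? (j : ℕ) {n : ℕ} (hn : 0 < n) :
    (rowP w h B W r q j n).head? = some (hdP W r 0 j) := by
  induction n with
  | zero => omega
  | succ n ih =>
    rw [rowP_succ]
    cases n with
    | zero => simp [rowP, tileP_head?]
    | succ n => rw [List.head?_append, ih (by omega)]; rfl

theorem rowP_getLast? (hB : 0 < B) (hW : W = B + (2 * (w + h + 4) + 4)) (j n : ℕ) :
    (rowP w h B W r q j (n + 1)).getLast? = some (laP W r n j) := by
  rw [rowP_succ, List.getLast?_append, tileP_getLast? hB hW]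
  rfl

theorem mem_tileG (hB : 0 < B) (hW : W = B + (2 * (w + h + 4) + 4))
    (hbox : ∀ p ∈ q, p.1 ≤ w ∧ p.2 ≤ h) {i j : ℕ} :
    ∀ p ∈ tileG w h B W q i j, p.1 < W ∧ p.2 < W := by
  intro p hp
  have h1 := ofs_lt hB i
  have h2 := ofs_lt hB j
  unfold tileG at hp
  split_ifs at hp
  · exact tileT_box (by omega) (by omega) hbox p hp
  · rw [List.mem_map] at hp
    obtain ⟨c, hc, rfl⟩ := hp
    have := tileT_box (by omega) (by omega) hbox c hc
    simp only
    omega

theorem mem_tileP (hB : 0 < B) (hW : W = B + (2 * (w + h + 4) + 4))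
    (hbox : ∀ p ∈ q, p.1 ≤ w ∧ p.2 ≤ h) {i j : ℕ} :
    ∀ p ∈ tileP w h B W r q i j, (xc W i ≤ p.1 ∧ p.1 < xc W i + W) ∧
      (yc W r j ≤ p.2 ∧ p.2 < yc W r j + W) := by
  intro p hp
  unfold tileP at hp
  rw [List.mem_map] at hp
  obtain ⟨c, hc, rfl⟩ := hp
  have := mem_tileG hB hW hbox c hc
  simp only
  omega

theorem mem_rowP {j n : ℕ} {p : Cell} :
    p ∈ rowP w h B W r q j n ↔ ∃ i < n, p ∈ tileP w h B W r q i j := by
  simp [rowP, List.mem_flatMap]

/-- the crossing number of a row -/
theorem cr_rowP (hB : 0 < B) (hW : W = B + (2 * (w + h + 4) + 4)) (f : Cell → Bool) (j n : ℕ) :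
    cr f (rowP w h B W r q j (n + 1)) = ∑ i ∈ Finset.range (n + 1), cr f (tileP w h B W r q i j) +
      ∑ i ∈ Finset.range n, chg (f (laP W r i j)) (f (hdP W r (i + 1) j)) := by
  induction n with
  | zero => simp [rowP]
  | succ n ih =>
    have e1 := Finset.sum_range_succ (fun i => cr f (tileP w h B W r q i j)) (n + 1)
    have e2 := Finset.sum_range_succ
      (fun i => chg (f (laP W r i j)) (f (hdP W r (i + 1) j))) n
    have e3 : (if f (laP W r n j) = f (hdP W r (n + 1) j) then 0 else 1) =
      chg (f (laP W r n j)) (f (hdP W r (n + 1) j)) := rfl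
    rw [rowP_succ, cr_append f _ _ (rowP_getLast? hB hW j n) (tileP_head? (n + 1) j), ih, e1, e2,
      e3]
    ring

theorem xc_lt (hW : 0 < W) {i i' : ℕ} (hi : i < i') : 2 ^ W * xc W i ≤ xc W i' := by
  unfold xc
  rw [← pow_add]
  refine Nat.pow_le_pow_right (by omega) ?_
  nlinarith

theorem W_lt_xc (i : ℕ) : W < xc W i := by
  unfold xc
  calc W < 2 ^ W := Nat.lt_two_pow_self
    _ ≤ 2 ^ (W * (i + 1)) := Nat.pow_le_pow_right (by omega) (by nlinarith)

theorem xc_add (hW : 0 < W) {i i' : ℕ} (hi : i < i') : xc W i + W < xc W i' := by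
  have h1 := xc_lt hW hi
  have h2 := W_lt_xc (W := W) i
  have h3 : 2 ≤ 2 ^ W := by
    calc 2 = 2 ^ 1 := by norm_num
      _ ≤ 2 ^ W := Nat.pow_le_pow_right (by omega) hW
  nlinarith

/-- the load of a window of rows, vertical lines -/
theorem row_win_fst (hB : 0 < B) (hW : W = B + (2 * (w + h + 4) + 4))
    (hc : q.IsChain UAdj) (hs : q.head? = some (0, 0)) (ht : q.getLast? = some (w, h))
    (hbox : ∀ p ∈ q, p.1 ≤ w ∧ p.2 ≤ h) (hL : w + h + 1 ≤ q.length) (n a θ : ℕ) :
    ∑ l ∈ Finset.Ico (a * (2 * B)) ((a + 1) * (2 * B)),
      cr (fun p : Cell => decide (θ ≤ p.1)) (rowP w h B W r q l (n + 1)) ≤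
        2 * B + 2 * pE w h q.length := by
  have hW0 : 0 < W := by omega
  by_cases hin : ∃ i0 < n + 1, xc W i0 < θ ∧ θ ≤ xc W i0 + (W - 1)
  · obtain ⟨i0, hi0, h1, h2⟩ := hin
    have key : ∀ l, cr (fun p : Cell => decide (θ ≤ p.1)) (rowP w h B W r q l (n + 1)) =
        cr (fun p : Cell => decide (θ - xc W i0 ≤ p.1)) (tileG w h B W q i0 l) := by
      intro l
      rw [cr_rowP hB hW]
      rw [Finset.sum_eq_single i0]
      · rw [Finset.sum_eq_zero, add_zero]
        · unfold tileP
          rw [cr_map]
          refine cr_congr fun a _ => ?_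
          rw [decide_eq_decide]
          simp only
          omega
        · intro i _
          unfold chg
          rw [if_pos]
          rw [decide_eq_decide]
          simp only [laP, hdP]
          rcases Nat.lt_trichotomy i i0 with h3 | h3 | h3
          · have := xc_add hW0 h3
            rcases Nat.lt_or_ge (i + 1) i0 with h4 | h4
            · have := xc_add hW0 h4; omega
            · have : i + 1 = i0 := by omega
              rw [this]; omega
          · subst h3
            have := xc_add hW0 (show i < i + 1 by omega)
            omega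
          · have := xc_add hW0 h3
            have := xc_add hW0 (show i < i + 1 by omega)
            omega
      · intro i _ hne
        rcases Nat.lt_or_gt_of_ne hne with h3 | h3
        · have := xc_add hW0 h3
          refine cr_const (c := false) fun p hp => ?_
          have := mem_tileP hB hW hbox p hp
          rw [decide_eq_false_iff_not]
          omega
        · have := xc_add hW0 h3
          refine cr_const (c := true) fun p hp => ?_
          have := mem_tileP hB hW hbox p hp
          rw [decide_eq_true_eq]
          omega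
      · intro h3
        rw [Finset.mem_range] at h3
        omega
    rw [Finset.sum_congr rfl fun l _ => key l]
    exact win_fst hB hW hc hs ht hbox hL i0 a _
  · push Not at hin
    have key : ∀ l, cr (fun p : Cell => decide (θ ≤ p.1)) (rowP w h B W r q l (n + 1)) ≤ 1 := by
      intro l
      rw [cr_rowP hB hW]
      rw [Finset.sum_eq_zero, zero_add]
      · have h1 : ∀ i ∈ Finset.range n, chg (decide (θ ≤ (laP W r i l).1))
            (decide (θ ≤ (hdP W r (i + 1) l).1)) =
            chg ((fun i => decide (θ ≤ xc W i)) i) ((fun i => decide (θ ≤ xc W i)) (i + 1)) := by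
          intro i hi
          rw [Finset.mem_range] at hi
          have := hin i (by omega)
          have e1 : decide (θ ≤ (laP W r i l).1) = decide (θ ≤ xc W i) := by
            rw [decide_eq_decide]
            simp only [laP]
            omega
          rw [e1]
          rfl
        rw [Finset.sum_congr rfl h1]
        refine sum_chg_le (Or.inl ?_) n
        intro i j hij h
        rw [decide_eq_true_eq] at h ⊢
        rcases Nat.eq_or_lt_of_le hij with rfl | hij
        · exact h
        · have := xc_add hW0 hij; omega
      · intro i hi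
        rw [Finset.mem_range] at hi
        have := hin i (by omega)
        refine cr_const (c := decide (θ ≤ xc W i)) fun p hp => ?_
        have := mem_tileP hB hW hbox p hp
        rw [decide_eq_decide]
        omega
    refine le_trans (Finset.sum_le_sum fun l _ => key l) ?_
    simp only [Finset.sum_const, Nat.card_Ico, smul_eq_mul, mul_one]
    rw [add_mul, one_mul]
    omega

end

end Pool.Agent.R539
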