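import Pool.Agent.R539.PS.SDefs
import Pool.Agent.R539.PS.CR

/-!
# Runs of cells, translations, and the lengths of paths
-/

namespace Pool.Agent.R539

theorem mem_vr {a b k : ℕ} {p : Cell} : p ∈ vr a b k ↔ p.1 = a ∧ b ≤ p.2 ∧ p.2 < b + k := by
  rcases p with ⟨x, y⟩
  simp only [vr, List.mem_map, List.mem_range, Prod.mk.injEq]
  constructor
  · rintro ⟨t, ht, h1, h2⟩; omega
  · rintro ⟨h1, h2, h3⟩; exact ⟨y - b, by omega, by omega, by omega⟩

theorem mem_hr {a b k : ℕ} {p : Cell} : p ∈ hr a b k ↔ p.2 = b ∧ a ≤ p.1 ∧ p.1 < a + k := by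
  rcases p with ⟨x, y⟩
  simp only [hr, List.mem_map, List.mem_range, Prod.mk.injEq]
  constructor
  · rintro ⟨t, ht, h1, h2⟩; omega
  · rintro ⟨h1, h2, h3⟩; exact ⟨x - a, by omega, by omega, by omega⟩

theorem mem_tr {x y : ℕ} {l : List Cell} {p : Cell} :
    p ∈ tr x y l ↔ ∃ q ∈ l, p.1 = x + q.1 ∧ p.2 = y + q.2 := by
  rcases p with ⟨u, v⟩
  simp only [tr, List.mem_map, Prod.mk.injEq]
  constructor
  · rintro ⟨q, hq, h1, h2⟩; exact ⟨q, hq, h1.symm, h2.symm⟩
  · rintro ⟨q, hq, h1, h2⟩; exact ⟨q, hq, h1.symm, h2.symm⟩

@[simp] theorem vr_length (a b k : ℕ) : (vr a b k).length = k := by simp [vr]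
@[simp] theorem hr_length (a b k : ℕ) : (hr a b k).length = k := by simp [hr]
@[simp] theorem tr_length (x y : ℕ) (l : List Cell) : (tr x y l).length = l.length := by simp [tr]

theorem vr_nodup (a b k : ℕ) : (vr a b k).Nodup := by
  unfold vr
  refine List.Nodup.map ?_ List.nodup_range
  intro s t h
  simp only [Prod.mk.injEq] at h
  omega

theorem hr_nodup (a b k : ℕ) : (hr a b k).Nodup := by
  unfold hr
  refine List.Nodup.map ?_ List.nodup_range
  intro s t h
  simp only [Prod.mk.injEq] at h
  omega

theorem tr_nodup {x y : ℕ} {l : List Cell} (h : l.Nodup) : (tr x y l).Nodup := by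
  unfold tr
  refine List.Nodup.map ?_ h
  rintro ⟨a, b⟩ ⟨c, d⟩ h
  simp only [Prod.mk.injEq] at h ⊢
  omega

theorem tr_head? {x y : ℕ} {l : List Cell} {p : Cell} (h : l.head? = some p) :
    (tr x y l).head? = some (x + p.1, y + p.2) := by
  simp [tr, h]

theorem tr_getLast? {x y : ℕ} {l : List Cell} {p : Cell} (h : l.getLast? = some p) :
    (tr x y l).getLast? = some (x + p.1, y + p.2) := by
  simp [tr, h]

theorem vr_head? {a b k : ℕ} (h : 0 < k) : (vr a b k).head? = some (a, b) := by
  obtain ⟨k, rfl⟩ := Nat.exists_eq_succ_of_ne_zero h.ne'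
  simp [vr, List.range_succ_eq_map]

theorem vr_getLast? {a b k : ℕ} (h : 0 < k) : (vr a b k).getLast? = some (a, b + k - 1) := by
  obtain ⟨k, rfl⟩ := Nat.exists_eq_succ_of_ne_zero h.ne'
  simp only [vr, Nat.succ_eq_add_one, List.range_succ, List.map_append, List.map_cons, List.map_nil,
    List.getLast?_append, List.getLast?_singleton, Option.some_or, Option.some.injEq,
    Prod.mk.injEq, true_and]
  omega

theorem hr_head? {a b k : ℕ} (h : 0 < k) : (hr a b k).head? = some (a, b) := by
  obtain ⟨k, rfl⟩ := Nat.exists_eq_succ_of_ne_zero h.ne'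
  simp [hr, List.range_succ_eq_map]

theorem hr_getLast? {a b k : ℕ} (h : 0 < k) : (hr a b k).getLast? = some (a + k - 1, b) := by
  obtain ⟨k, rfl⟩ := Nat.exists_eq_succ_of_ne_zero h.ne'
  simp only [hr, Nat.succ_eq_add_one, List.range_succ, List.map_append, List.map_cons, List.map_nil,
    List.getLast?_append, List.getLast?_singleton, Option.some_or, Option.some.injEq,
    Prod.mk.injEq, and_true]
  omega

/-- The absolute value of the difference of two natural numbers. -/
def ad (a b : ℕ) : ℕ := (a - b) + (b - a)

/-- Horizontal length of a path. -/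
def hlen : List Cell → ℕ
  | [] => 0
  | [_] => 0
  | a :: b :: l => ad a.1 b.1 + hlen (b :: l)

/-- Vertical length of a path. -/
def vlen : List Cell → ℕ
  | [] => 0
  | [_] => 0
  | a :: b :: l => ad a.2 b.2 + vlen (b :: l)

theorem hlen_append : ∀ (l l' : List Cell) {a b : Cell}, l.getLast? = some a →
    l'.head? = some b → hlen (l ++ l') = hlen l + ad a.1 b.1 + hlen l'
  | [], _, _, _, h, _ => by simp at h
  | [x], [], _, _, _, h' => by simp at h'
  | [x], y :: l', a, b, h, h' => by
    simp only [List.getLast?_singleton, Option.some.injEq, List.head?_cons] at h h'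
    subst h; subst h'
    simp [hlen]
  | x :: y :: l, l', a, b, h, h' => by
    have h2 : (y :: l).getLast? = some a := by
      rw [List.getLast?_cons_cons] at h
      exact h
    have := hlen_append (y :: l) l' h2 h'
    simp only [List.cons_append, hlen] at this ⊢
    omega

theorem vlen_append : ∀ (l l' : List Cell) {a b : Cell}, l.getLast? = some a →
    l'.head? = some b → vlen (l ++ l') = vlen l + ad a.2 b.2 + vlen l'
  | [], _, _, _, h, _ => by simp at h
  | [x], [], _, _, _, h' => by simp at h'
  | [x], y :: l', a, b, h, h' => by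
    simp only [List.getLast?_singleton, Option.some.injEq, List.head?_cons] at h h'
    subst h; subst h'
    simp [vlen]
  | x :: y :: l, l', a, b, h, h' => by
    have h2 : (y :: l).getLast? = some a := by
      rw [List.getLast?_cons_cons] at h
      exact h
    have := vlen_append (y :: l) l' h2 h'
    simp only [List.cons_append, vlen] at this ⊢
    omega

theorem hlen_tr (x y : ℕ) : ∀ l : List Cell, hlen (tr x y l) = hlen l
  | [] => rfl
  | [_] => rfl
  | a :: b :: l => by
    have := hlen_tr x y (b :: l)
    simp only [tr, List.map_cons, hlen] at this ⊢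
    rw [this]
    simp only [ad]
    omega

theorem vlen_tr (x y : ℕ) : ∀ l : List Cell, vlen (tr x y l) = vlen l
  | [] => rfl
  | [_] => rfl
  | a :: b :: l => by
    have := vlen_tr x y (b :: l)
    simp only [tr, List.map_cons, vlen] at this ⊢
    rw [this]
    simp only [ad]
    omega

theorem hlen_swap : ∀ l : List Cell, hlen (l.map Prod.swap) = vlen l
  | [] => rfl
  | [_] => rfl
  | a :: b :: l => by
    have := hlen_swap (b :: l)
    simp only [List.map_cons, hlen, vlen, Prod.fst_swap] at this ⊢
    rw [this]

theorem vlen_swap : ∀ l : List Cell, vlen (l.map Prod.swap) = hlen l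
  | [] => rfl
  | [_] => rfl
  | a :: b :: l => by
    have := vlen_swap (b :: l)
    simp only [List.map_cons, hlen, vlen, Prod.snd_swap] at this ⊢
    rw [this]

/-- a path with unit steps -/
theorem hlen_add_vlen : ∀ {l : List Cell}, l.IsChain UAdj → hlen l + vlen l = l.length - 1
  | [], _ => rfl
  | [_], _ => rfl
  | a :: b :: l, h => by
    rw [List.isChain_cons_cons] at h
    have := hlen_add_vlen h.2
    have h1 := h.1
    simp only [hlen, vlen, List.length_cons] at this ⊢
    unfold UAdj at h1
    simp only [ad]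
    omega

/-- The horizontal length is the sum of the numbers of crossings of the vertical lines. -/
theorem sum_cr_fst (M : ℕ) : ∀ {l : List Cell}, (∀ p ∈ l, p.1 ≤ M) →
    ∑ θ ∈ Finset.Icc 1 M, cr (fun p : Cell => decide (θ ≤ p.1)) l = hlen l
  | [], _ => by simp [hlen]
  | [_], _ => by simp [hlen]
  | a :: b :: l, h => by
    have ih := sum_cr_fst M (l := b :: l) (fun p hp => h p (List.mem_cons_of_mem _ hp))
    simp only [cr_cons_cons, hlen, Finset.sum_add_distrib]
    rw [ih]
    congr 1
    have ha := h a (by simp)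
    have hb := h b (by simp)
    have : ∀ θ ∈ Finset.Icc 1 M, (if decide (θ ≤ a.1) = decide (θ ≤ b.1) then 0 else 1) =
        if θ ∈ Finset.Ioc (min a.1 b.1) (max a.1 b.1) then 1 else 0 := by
      intro θ _
      simp only [Finset.mem_Ioc, decide_eq_decide]
      by_cases h1 : θ ≤ a.1 <;> by_cases h2 : θ ≤ b.1
      · rw [if_pos (by tauto), if_neg (by omega)]
      · rw [if_neg (by tauto), if_pos (by omega)]
      · rw [if_neg (by tauto), if_pos (by omega)]
      · rw [if_pos (by tauto), if_neg (by omega)]
    rw [Finset.sum_congr rfl this, Finset.sum_ite_mem]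
    rw [show Finset.Icc 1 M ∩ Finset.Ioc (min a.1 b.1) (max a.1 b.1) =
      Finset.Ioc (min a.1 b.1) (max a.1 b.1) from ?_]
    · simp only [Finset.sum_const, Nat.card_Ioc, smul_eq_mul, mul_one, ad]
      omega
    · ext θ
      simp only [Finset.mem_inter, Finset.mem_Icc, Finset.mem_Ioc]
      omega

theorem cr_swap (f : Cell → Bool) (l : List Cell) :
    cr f (l.map Prod.swap) = cr (fun p => f p.swap) l := cr_map f _ l

theorem sum_cr_snd (M : ℕ) {l : List Cell} (h : ∀ p ∈ l, p.2 ≤ M) :
    ∑ θ ∈ Finset.Icc 1 M, cr (fun p : Cell => decide (θ ≤ p.2)) l = vlen l := by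
  rw [← hlen_swap, ← sum_cr_fst M]
  · refine Finset.sum_congr rfl fun θ _ => ?_
    rw [cr_swap]
    rfl
  · intro p hp
    rw [List.mem_map] at hp
    obtain ⟨q, hq, rfl⟩ := hp
    exact h q hq

/-- monotone lists -/
theorem cr_mono_append {α : Type*} {f : α → Bool} : ∀ {l l' : List α},
    l.IsChain (fun a b => f a = true → f b = true) → (∀ b ∈ l', f b = true) →
    cr f (l ++ l') ≤ 1 ∧ (∀ a, (l ++ l').head? = some a → f a = true → cr f (l ++ l') = 0)
  | [], l', _, h' => by
    rw [List.nil_append, cr_const h']
    simp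
  | [a], l', _, h' => by
    cases l' with
    | nil => simp
    | cons b l' =>
      rw [List.singleton_append, cr_cons_cons, cr_const h', h' b (by simp)]
      constructor
      · split_ifs <;> omega
      · intro x hx hx'
        simp only [List.head?_cons, Option.some.injEq] at hx
        subst hx
        rw [hx']
        simp
  | a :: b :: l, l', h, h' => by
    rw [List.isChain_cons_cons] at h
    have ih := cr_mono_append (l := b :: l) (l' := l') h.2 h'
    simp only [List.cons_append, cr_cons_cons] at ih ⊢
    have h1 := h.1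
    have ih2 := ih.2 b (by simp)
    constructor
    · by_cases hb : f b = true
      · rw [ih2 hb]
        split_ifs <;> omega
      · have ha : ¬ f a = true := fun ha => hb (h1 ha)
        rw [if_pos (by simp only [Bool.not_eq_true] at ha hb; rw [ha, hb])]
        have := ih.1
        omega
    · intro x hx hx'
      simp only [List.head?_cons, Option.some.injEq] at hx
      subst hx
      rw [ih2 (h1 hx'), hx', h1 hx']
      simp

theorem cr_mono {α : Type*} {f : α → Bool} {l : List α}
    (h : l.IsChain (fun a b => f a = true → f b = true)) : cr f l ≤ 1 := by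
  have := (cr_mono_append (l' := []) h (by simp)).1
  rwa [List.append_nil] at this

/-- a part with value false before a monotone list -/
theorem cr_false_append_mono {α : Type*} {f : α → Bool} {l l' : List α}
    (h : ∀ a ∈ l, f a = false) (h' : l'.IsChain (fun a b => f a = true → f b = true)) :
    cr f (l ++ l') ≤ 1 := by
  apply cr_mono
  rw [List.isChain_append]
  refine ⟨?_, h', ?_⟩
  · refine List.Pairwise.isChain (List.pairwise_of_forall_mem_list fun a ha b _ hfa => ?_)
    rw [h a ha] at hfa
    simp at hfa
  · intro a ha b _ hfa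
    rw [h a (List.mem_of_getLast? (by simpa using ha))] at hfa
    simp at hfa

end Pool.Agent.R539
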