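import Pool.Agent.R539.PS.GDefs

/-!
# The path-stabbing problem and the point sets built from a set of cells
-/

namespace Pool.Agent.R539

open Pool.Agent.NPC

open Classical in
/-- The number of edges of the polygonal path with the vertex list `P` that are stabbed by the line
`a x + b y = c` (the two end points lie strictly on opposite sides). -/
noncomputable def stabCount (a b c : ℝ) (P : List (ℚ × ℚ)) : ℕ :=
  (P.zip P.tail).countP fun e =>
    decide ((a * e.1.1 + b * e.1.2 - c) * (a * e.2.1 + b * e.2.2 - c) < 0)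

/-- The decision problem: the instance is a list `I.1` of at least two different points with
rational coordinates and a number `I.2`; the question is whether there is a spanning path all of
whose stabbing numbers are at most `I.2`. -/
def PathStab (I : List (ℚ × ℚ) × ℕ) : Prop :=
  I.1.Nodup ∧ 2 ≤ I.1.length ∧
    ∃ P : List (ℚ × ℚ), P.Perm I.1 ∧
      ∀ a b c : ℝ, (a ≠ 0 ∨ b ≠ 0) → stabCount a b c P ≤ I.2

/-- Two copies of a set of cells with corners `(0, 0)` and `(w, h)`, the second one transposed,
joined by cells. -/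
def pairL (w h : ℕ) (q : List Cell) : List Cell :=
  q ++ [(w + 1, h)] ++ tr (w + 2) h (q.map Prod.swap) ++ [(w + h + 3, w + h)]

/-- Four copies of a set of cells. -/
def gadL (w h : ℕ) (q : List Cell) : List Cell :=
  pairL w h q ++ tr (w + h + 4) (w + h) (pairL w h q) ++ [(2 * (w + h + 4), 2 * (w + h))]

/-- Excess. -/
def pE (w h L : ℕ) : ℕ := 2 * L - 2 * (w + h + 1)

/-- Number of shifts. -/
def pB (w h L : ℕ) : ℕ := 4 * (pE w h L + 1) * (2 * (w + h + 4) + 4)

/-- Side length of the tiles. -/
def pW (w h L : ℕ) : ℕ := pB w h L + (2 * (w + h + 4) + 4)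

/-- Load of a window of lanes. -/
def pK (w h L : ℕ) : ℕ := 2 * pB w h L + 2 * pE w h L

/-- Number of cells of a tile. -/
def pN (w h L : ℕ) : ℕ := 2 * pW w h L - 1 + 2 * pE w h L

/-- Noise. -/
def pZ (w h L : ℕ) : ℕ := 3 * pK w h L + 2 * pN w h L + 4 * pW w h L + 4

/-- Number of windows. -/
def pR (w h L : ℕ) : ℕ := 4 * pW w h L * pZ w h L

/-- Number of tiles in a row or in a column. -/
def pr (w h L : ℕ) : ℕ := 2 * pB w h L * pR w h L

/-- The bound for the stabbing number. -/
def pk (w h L : ℕ) : ℕ := pR w h L * pK w h L + pZ w h L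

/-- The cells of a tile with side length `W` and offsets `x`, `y`. -/
def tileT (w h W : ℕ) (q : List Cell) (x y : ℕ) : List Cell :=
  vr 0 0 (y + 2) ++ hr 1 (y + 1) x ++ tr (x + 1) (y + 1) (gadL w h q) ++
    vr (x + 1 + 2 * (w + h + 4)) (y + 2 + 2 * (w + h)) (W - (y + 2 + 2 * (w + h))) ++
    hr (x + 2 + 2 * (w + h + 4)) (W - 1) (W - (x + 2 + 2 * (w + h + 4)))

/-- The offset in the lane `l`. -/
def ofs (B l : ℕ) : ℕ := (l / 2) % B

/-- The cells of the tile in column `i` and row `j`; it is reflected if `i` is odd. -/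
def tileG (w h B W : ℕ) (q : List Cell) (i j : ℕ) : List Cell :=
  if i % 2 = 0 then tileT w h W q (ofs B j) (ofs B i)
  else (tileT w h W q (ofs B j) (ofs B i)).map fun p => (p.1, W - 1 - p.2)

/-- The `x`-coordinate of the tiles in column `i`. -/
def xc (W i : ℕ) : ℕ := 2 ^ (W * (i + 1))

/-- The `y`-coordinate of the tiles in row `j`. -/
def yc (W r j : ℕ) : ℕ := 2 ^ (W * (r + 2) * (j + 1))

/-- The points of the tile in column `i` and row `j`. -/
def tileP (w h B W r : ℕ) (q : List Cell) (i j : ℕ) : List Cell :=
  (tileG w h B W q i j).map fun p => (xc W i + p.1, yc W r j + p.2)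

/-- All points, with natural coordinates. -/
def ptsN (w h : ℕ) (q : List Cell) : List Cell :=
  (List.range (pr w h q.length)).flatMap fun j => (List.range (pr w h q.length)).flatMap fun i =>
    tileP w h (pB w h q.length) (pW w h q.length) (pr w h q.length) q i j

/-- Points with natural coordinates as points with rational coordinates. -/
def toQ (p : Cell) : ℚ × ℚ := ((p.1 : ℚ), (p.2 : ℚ))

/-- The instance of the path-stabbing problem. -/
def instOf (w h : ℕ) (q : List Cell) : List (ℚ × ℚ) × ℕ :=
  ((ptsN w h q).map toQ, pk w h q.length)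

end Pool.Agent.R539
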