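import Mathlib
import Pool.Agent.R539.PS.GDefs

/-!
Degrees in a Hamiltonian path of cells, and membership in the set of cells.
-/

set_option autoImplicit false

namespace Pool.Agent.R539.T1x

/-- consecutive in the list, in either order -/
def Ed (l : List Cell) (p q : Cell) : Prop :=
  (∃ l₁ l₂, l = l₁ ++ p :: q :: l₂) ∨ ∃ l₁ l₂, l = l₁ ++ q :: p :: l₂

theorem Ed.symm {l : List Cell} {p q : Cell} (h : Ed l p q) : Ed l q p := h.elim Or.inr Or.inl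

theorem Ed.mem {l : List Cell} {p q : Cell} (h : Ed l p q) : p ∈ l ∧ q ∈ l := by
  rcases h with ⟨l₁, l₂, rfl⟩ | ⟨l₁, l₂, rfl⟩ <;> simp

theorem uadj_symm {p q : Cell} (h : UAdj p q) : UAdj q p := by
  unfold UAdj at *
  omega

theorem Ed.adj {l : List Cell} (hl : l.IsChain UAdj) {p q : Cell} (h : Ed l p q) : UAdj p q := by
  rcases h with ⟨l₁, l₂, rfl⟩ | ⟨l₁, l₂, rfl⟩
  · have := hl.right_of_append
    exact (List.isChain_cons_cons.1 this).1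
  · have := hl.right_of_append
    exact uadj_symm (List.isChain_cons_cons.1 this).1

/-- an inner point has exactly two neighbours -/
theorem two_nb {l : List Cell} (hn : l.Nodup) {p : Cell} (hp : p ∈ l) (h0 : l.head? ≠ some p)
    (h1 : l.getLast? ≠ some p) : ∃ a b, a ≠ b ∧ ∀ q, Ed l p q ↔ q = a ∨ q = b := by
  obtain ⟨s, t, rfl⟩ := List.append_of_mem hp
  have hs : s ≠ [] := by
    rintro rfl
    simp at h0
  have ht : t ≠ [] := by
    rintro rfl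
    simp at h1
  obtain ⟨s', a, rfl⟩ := List.eq_nil_or_concat s |>.resolve_left hs
  obtain ⟨b, t', rfl⟩ := List.exists_cons_of_ne_nil ht
  have hn2 := hn
  rw [List.nodup_append] at hn
  obtain ⟨hn1, hn3, hn4⟩ := hn
  have hps : p ∉ s'.concat a := fun h => hn4 p h p (by simp) rfl
  have hpt : p ∉ b :: t' := (List.nodup_cons.1 hn3).1
  refine ⟨a, b, fun hab => ?_, fun q => ⟨?_, ?_⟩⟩
  · subst hab
    exact hn4 a (by simp) a (by simp) rfl
  · rintro (⟨l₁, l₂, h⟩ | ⟨l₁, l₂, h⟩)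
    · have := (List.append_cons_inj_of_notMem hps hpt).1 h
      obtain ⟨-, -, h2⟩ := this
      right
      exact (List.cons.inj h2).1.symm
    · left
      have h' : s'.concat a ++ p :: b :: t' = (l₁ ++ [q]) ++ p :: l₂ := by
        rw [h]; simp
      have := (List.append_cons_inj_of_notMem hps hpt).1 h'
      obtain ⟨h2, -, -⟩ := this
      have h3 := congrArg List.getLast? h2
      simp at h3
      exact h3.symm
  · rintro (rfl | rfl)
    · right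
      exact ⟨s', b :: t', by simp⟩
    · left
      exact ⟨s'.concat a, t', rfl⟩

open Classical in
/-- horizontal edges -/
noncomputable def RE (l : List Cell) (x y : ℕ) : ℕ := if Ed l (x, y) (x + 1, y) then 1 else 0

open Classical in
/-- vertical edges -/
noncomputable def UE (l : List Cell) (x y : ℕ) : ℕ := if Ed l (x, y) (x, y + 1) then 1 else 0

theorem RE_le (l : List Cell) (x y : ℕ) : RE l x y ≤ 1 := by
  unfold RE; split_ifs <;> omega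

theorem UE_le (l : List Cell) (x y : ℕ) : UE l x y ≤ 1 := by
  unfold UE; split_ifs <;> omega

theorem RE_zero {l : List Cell} {x y : ℕ} (h : (x, y) ∉ l) : RE l x y = 0 :=
  if_neg fun h' => h h'.mem.1

theorem RE_zero' {l : List Cell} {x y : ℕ} (h : (x + 1, y) ∉ l) : RE l x y = 0 :=
  if_neg fun h' => h h'.mem.2

theorem UE_zero {l : List Cell} {x y : ℕ} (h : (x, y) ∉ l) : UE l x y = 0 :=
  if_neg fun h' => h h'.mem.1

theorem UE_zero' {l : List Cell} {x y : ℕ} (h : (x, y + 1) ∉ l) : UE l x y = 0 :=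
  if_neg fun h' => h h'.mem.2

theorem ite_iff {P Q : Prop} {iP : Decidable P} {iQ : Decidable Q} (h : P ↔ Q) :
    (@ite ℕ P iP 1 0) = @ite ℕ Q iQ 1 0 := by
  by_cases hP : P
  · rw [if_pos hP, if_pos (h.1 hP)]
  · rw [if_neg hP, if_neg fun hQ => hP (h.2 hQ)]

theorem ite_or {q a b : Cell} (hab : a ≠ b) :
    (if q = a ∨ q = b then 1 else 0 : ℕ) = (if q = a then 1 else 0) + (if q = b then 1 else 0) := by
  by_cases h1 : q = a
  · have h2 : q ≠ b := fun h => hab (h1.symm.trans h)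
    simp [h1, hab]
  · by_cases h2 : q = b
    · simp [h2, hab.symm]
    · simp [h1, h2]

theorem sum_one {x y : ℕ} {c : Cell} (h : UAdj (x + 1, y + 1) c) :
    (if ((x + 1 + 1, y + 1) : Cell) = c then 1 else 0 : ℕ) + (if ((x, y + 1) : Cell) = c then 1 else 0) +
    (if ((x + 1, y + 1 + 1) : Cell) = c then 1 else 0) + (if ((x + 1, y) : Cell) = c then 1 else 0) = 1 := by
  obtain ⟨c1, c2⟩ := c
  unfold UAdj at h
  simp only at h
  have h' : (c1 = x + 1 ∧ c2 = y) ∨ (c1 = x + 1 ∧ c2 = y + 1 + 1) ∨ (c1 = x ∧ c2 = y + 1) ∨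
      (c1 = x + 1 + 1 ∧ c2 = y + 1) := by omega
  clear h
  rcases h' with ⟨rfl, rfl⟩ | ⟨rfl, rfl⟩ | ⟨rfl, rfl⟩ | ⟨rfl, rfl⟩ <;> simp [Prod.mk.injEq] <;> omega

/-- the degree equation -/
theorem deg {l : List Cell} (hn : l.Nodup) (hl : l.IsChain UAdj) {x y : ℕ} (hp : (x + 1, y + 1) ∈ l)
    (h0 : l.head? ≠ some (x + 1, y + 1)) (h1 : l.getLast? ≠ some (x + 1, y + 1)) :
    RE l (x + 1) (y + 1) + RE l x (y + 1) + UE l (x + 1) (y + 1) + UE l (x + 1) y = 2 := by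
  obtain ⟨a, b, hab, H⟩ := two_nb hn hp h0 h1
  have ha : Ed l (x + 1, y + 1) a := (H a).2 (Or.inl rfl)
  have hb : Ed l (x + 1, y + 1) b := (H b).2 (Or.inr rfl)
  have ua := sum_one (ha.adj hl)
  have ub := sum_one (hb.adj hl)
  have e1 : RE l (x + 1) (y + 1) = (if ((x + 1 + 1, y + 1) : Cell) = a then 1 else 0) +
      (if ((x + 1 + 1, y + 1) : Cell) = b then 1 else 0) := by
    rw [← ite_or hab]
    unfold RE
    exact ite_iff (H _)
  have e2 : RE l x (y + 1) = (if ((x, y + 1) : Cell) = a then 1 else 0) +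
      (if ((x, y + 1) : Cell) = b then 1 else 0) := by
    rw [← ite_or hab]
    unfold RE
    exact ite_iff ((Iff.intro Ed.symm Ed.symm).trans (H _))
  have e3 : UE l (x + 1) (y + 1) = (if ((x + 1, y + 1 + 1) : Cell) = a then 1 else 0) +
      (if ((x + 1, y + 1 + 1) : Cell) = b then 1 else 0) := by
    rw [← ite_or hab]
    unfold UE
    exact ite_iff (H _)
  have e4 : UE l (x + 1) y = (if ((x + 1, y) : Cell) = a then 1 else 0) +
      (if ((x + 1, y) : Cell) = b then 1 else 0) := by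
    rw [← ite_or hab]
    unfold UE
    exact ite_iff ((Iff.intro Ed.symm Ed.symm).trans (H _))
  rw [e1, e2, e3, e4]
  linarith

/-- crossing the boundary of a set -/
theorem crossing (C : Cell → Prop) : ∀ (l : List Cell) (a : Cell), l.head? = some a → ¬ C a →
    (∃ c ∈ l, C c) → ∃ p q, (∃ l₁ l₂, l = l₁ ++ p :: q :: l₂) ∧ ¬ C p ∧ C q := by
  intro l
  induction l with
  | nil => intro a h; simp at h
  | cons x t ih =>
    intro a ha hCa ⟨c, hc, hCc⟩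
    simp at ha
    subst ha
    have hct : c ∈ t := by
      rcases List.mem_cons.1 hc with h | h
      · subst h; exact absurd hCc hCa
      · exact h
    obtain ⟨b, t', rfl⟩ := List.exists_cons_of_ne_nil (List.ne_nil_of_mem hct)
    by_cases hb : C b
    · exact ⟨x, b, ⟨[], t', rfl⟩, hCa, hb⟩
    · obtain ⟨p, q, ⟨l₁, l₂, h⟩, h2⟩ := ih b rfl hb ⟨c, hct, hCc⟩
      exact ⟨p, q, ⟨x :: l₁, l₂, by rw [h]; rfl⟩, h2⟩

/-! membership -/

theorem mem_vr {a b k x y : ℕ} : (x, y) ∈ vr a b k ↔ x = a ∧ b ≤ y ∧ y < b + k := by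
  unfold vr
  simp only [List.mem_map, List.mem_range, Prod.mk.injEq]
  constructor
  · rintro ⟨t, ht, rfl, rfl⟩
    omega
  · rintro ⟨rfl, h1, h2⟩
    exact ⟨y - b, by omega, rfl, by omega⟩

theorem mem_hr {a b k x y : ℕ} : (x, y) ∈ hr a b k ↔ y = b ∧ a ≤ x ∧ x < a + k := by
  unfold hr
  simp only [List.mem_map, List.mem_range, Prod.mk.injEq]
  constructor
  · rintro ⟨t, ht, rfl, rfl⟩
    omega
  · rintro ⟨rfl, h1, h2⟩
    exact ⟨x - a, by omega, by omega, rfl⟩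

theorem mem_tr {x y p q : ℕ} {l : List Cell} :
    (p, q) ∈ tr x y l ↔ ∃ a b, (a, b) ∈ l ∧ p = x + a ∧ q = y + b := by
  unfold tr
  simp only [List.mem_map, Prod.exists, Prod.mk.injEq]
  constructor
  · rintro ⟨a, b, h, h1, h2⟩
    exact ⟨a, b, h, h1.symm, h2.symm⟩
  · rintro ⟨a, b, h, h1, h2⟩
    exact ⟨a, b, h, h1.symm, h2.symm⟩

/-- the cells of a clause tile, as a formula -/
def TC (lo : Prop) (k a b : ℕ) : Prop :=
  (a = 0 ∧ (b ≤ 4 ∨ (9 ≤ b ∧ b ≤ 11))) ∨ (b = 0 ∧ 1 ≤ a ∧ a ≤ 6) ∨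
  (a = 6 ∧ ((1 ≤ b ∧ b ≤ 4) ∨ (9 ≤ b ∧ b ≤ 11))) ∨ (a = 7 ∧ b = 11) ∨
  ((a = 1 ∨ a = 3 ∨ a = 5 ∨ a = 7) ∧ 4 ≤ b ∧ b ≤ 9) ∨
  (a = 2 ∧ ((2 ≤ b ∧ b ≤ 4) ∨ (9 ≤ b ∧ b ≤ 12))) ∨ (a = 3 ∧ (b = 2 ∨ b = 11 ∨ b = 12)) ∨
  (a = 4 ∧ ((2 ≤ b ∧ b ≤ 4) ∨ (9 ≤ b ∧ b ≤ 11))) ∨ (lo ∧ b = 1 ∧ (a = 2 ∨ a = 3)) ∨
  (k = 1 ∧ a = 2 ∧ (b = 6 ∨ b = 7)) ∨ (k = 2 ∧ a = 4 ∧ (b = 6 ∨ b = 7))

instance (lo : Prop) [Decidable lo] (k a b : ℕ) : Decidable (TC lo k a b) := by unfold TC; infer_instance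

theorem TC_congr {lo : Prop} {k k' a b : ℕ} (h1 : k = 1 ↔ k' = 1) (h2 : k = 2 ↔ k' = 2) :
    TC lo k a b ↔ TC lo k' a b := by
  unfold TC
  rw [h1, h2]

theorem tileC_le {lo : Bool} {k a b : ℕ} (h : (a, b) ∈ tileC lo k) : a < 8 ∧ b < 13 := by
  have h1 : ∀ (lo : Bool) (k : Fin 3), ∀ p ∈ tileC lo k, p.1 < 8 ∧ p.2 < 13 := by decide +kernel
  by_cases hk : k < 3
  · exact h1 lo ⟨k, hk⟩ _ h
  · have : tileC lo k = tileC lo 0 := by
      unfold tileC ringC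
      rw [if_neg (by omega : ¬ k = 1), if_neg (by omega : ¬ k = 2)]
      rfl
    rw [this] at h
    exact h1 lo 0 _ h

theorem tileC_dec : ∀ (lo : Bool) (k : Fin 3) (a : Fin 8) (b : Fin 13),
    ((a : ℕ), (b : ℕ)) ∈ tileC lo k ↔ TC (lo = true) k a b := by decide +kernel

theorem mem_tileC {lo : Bool} {k a b : ℕ} : (a, b) ∈ tileC lo k ↔ TC (lo = true) k a b := by
  constructor
  · intro h
    obtain ⟨h1, h2⟩ := tileC_le h
    by_cases hk : k < 3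
    · exact (tileC_dec lo ⟨k, hk⟩ ⟨a, h1⟩ ⟨b, h2⟩).1 h
    · have : tileC lo k = tileC lo 0 := by
        unfold tileC ringC
        rw [if_neg (by omega : ¬ k = 1), if_neg (by omega : ¬ k = 2)]
        rfl
      rw [this] at h
      have h3 := (tileC_dec lo 0 ⟨a, h1⟩ ⟨b, h2⟩).1 h
      exact (TC_congr (k := 0) (by omega) (by omega)).1 h3
  · intro h
    have h1 : a < 8 ∧ b < 13 := by
      unfold TC at h
      casesm* _ ∨ _ <;> omega
    by_cases hk : k < 3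
    · exact (tileC_dec lo ⟨k, hk⟩ ⟨a, h1.1⟩ ⟨b, h1.2⟩).2 h
    · have : tileC lo k = tileC lo 0 := by
        unfold tileC ringC
        rw [if_neg (by omega : ¬ k = 1), if_neg (by omega : ¬ k = 2)]
        rfl
      rw [this]
      refine (tileC_dec lo 0 ⟨a, h1.1⟩ ⟨b, h1.2⟩).2 ?_
      exact (TC_congr (k' := 0) (by omega) (by omega)).1 h
theorem TC_le {lo : Prop} {k a b : ℕ} (h : TC lo k a b) : a ≤ 7 ∧ b ≤ 12 := by
  unfold TC at h
  casesm* _ ∨ _ <;> omega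

theorem mem_tileL {ev : Bool} {a b : ℕ} : (a, b) ∈ tileL ev ↔
    (a = 6 ∧ b ≤ 11) ∨ (a = 7 ∧ 4 ≤ b ∧ b ≤ 9) ∨ (a = 7 ∧ b = 11) ∨ (a = 5 ∧ b = 0) ∨
      (a = 4 ∧ b = 0) ∨ (ev = false ∧ a = 4 ∧ b ≤ 12) := by
  unfold tileL
  cases ev <;>
    simp [mem_vr] <;> omega

theorem mem_tileR {ev : Bool} {a b : ℕ} : (a, b) ∈ tileR ev ↔
    (a = 0 ∧ b ≤ 11) ∨ (a = 1 ∧ b = 0) ∨ (a = 2 ∧ b = 0) ∨ (ev = true ∧ a = 2 ∧ b ≤ 12) := by
  unfold tileR
  cases ev <;>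
    simp [mem_vr] <;> omega

theorem mem_gridC {m n : ℕ} {lit : ℕ → ℕ → ℕ} {x y : ℕ} : (x, y) ∈ gridC m n lit ↔
    (y = 0 ∧ x < 4) ∨ ∃ i < n, (∃ b, y = 13 * i + b ∧ (x, b) ∈ tileL (decide (i % 2 = 0))) ∨
      (∃ j < m, ∃ a b, x = 8 * (j + 1) + a ∧ y = 13 * i + b ∧ TC (0 < i) (lit i j) a b) ∨
      ∃ a b, x = 8 * (m + 1) + a ∧ y = 13 * i + b ∧ (a, b) ∈ tileR (decide (i % 2 = 0)) := by
  unfold gridC bandC
  simp only [List.mem_append, List.mem_flatMap, List.mem_range, mem_hr, mem_tr, mem_tileC,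
    decide_eq_true_eq]
  constructor
  · rintro (h | ⟨i, hi, (⟨a, b, h, h1, h2⟩ | ⟨j, hj, a, b, h, h1, h2⟩) | ⟨a, b, h, h1, h2⟩⟩)
    · left; omega
    · right
      refine ⟨i, hi, Or.inl ⟨b, h2, ?_⟩⟩
      have : x = a := by omega
      rw [this]; exact h
    · right
      exact ⟨i, hi, Or.inr (Or.inl ⟨j, hj, a, b, h1, h2, h⟩)⟩
    · right
      exact ⟨i, hi, Or.inr (Or.inr ⟨a, b, h1, h2, h⟩)⟩
  · rintro (h | ⟨i, hi, ⟨b, h2, h⟩ | ⟨j, hj, a, b, h1, h2, h⟩ | ⟨a, b, h1, h2, h⟩⟩)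
    · left; omega
    · right
      exact ⟨i, hi, Or.inl (Or.inl ⟨x, b, h, by omega, h2⟩)⟩
    · right
      exact ⟨i, hi, Or.inl (Or.inr ⟨j, hj, a, b, h, h1, h2⟩)⟩
    · right
      exact ⟨i, hi, Or.inr ⟨a, b, h, h1, h2⟩⟩

/-- cells of a clause tile -/
theorem memT {m n : ℕ} {lit : ℕ → ℕ → ℕ} {i j A b : ℕ} (hi : i < n) (hj : j < m) (hA : 8 ≤ A)
    (hA' : A ≤ 15) (hb : b ≤ 12) :
    (8 * j + A, 13 * i + b) ∈ gridC m n lit ↔ TC (0 < i) (lit i j) (A - 8) b := by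
  rw [mem_gridC]
  constructor
  · rintro (h | ⟨i', hi', ⟨b', h2, h⟩ | ⟨j', hj', a', b', h1, h2, h⟩ | ⟨a', b', h1, h2, h⟩⟩)
    · omega
    · rw [mem_tileL] at h
      omega
    · obtain ⟨ha', hb'⟩ := TC_le h
      have e1 : i' = i := by omega
      have e2 : j' = j := by omega
      subst e1 e2
      have e3 : a' = A - 8 := by omega
      have e4 : b' = b := by omega
      rw [← e3, ← e4]
      exact h
    · rw [mem_tileR] at h
      omega
  · intro h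
    right
    exact ⟨i, hi, Or.inr (Or.inl ⟨j, hj, A - 8, b, by omega, rfl, h⟩)⟩

/-- the column before a clause tile -/
theorem mem7 {m n : ℕ} {lit : ℕ → ℕ → ℕ} {i j b : ℕ} (hj : j < m) (hb : b ≤ 12)
    (h : (8 * j + 7, 13 * i + b) ∈ gridC m n lit) : b = 11 ∨ (4 ≤ b ∧ b ≤ 9) := by
  rw [mem_gridC] at h
  rcases h with (h | ⟨i', hi', ⟨b', h2, h⟩ | ⟨j', hj', a', b', h1, h2, h⟩ | ⟨a', b', h1, h2, h⟩⟩)
  · omega
  · rw [mem_tileL] at h
    omega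
  · obtain ⟨ha', hb'⟩ := TC_le h
    have e3 : a' = 7 := by omega
    have e4 : b' = b := by omega
    subst e3 e4
    unfold TC at h
    omega
  · rw [mem_tileR] at h
    omega

/-- the left end -/
theorem memL {m n : ℕ} {lit : ℕ → ℕ → ℕ} {i a b : ℕ} (hi : i < n) (hb : b ≤ 12) (hb' : 1 ≤ b)
    (ha : 5 ≤ a) (ha' : a ≤ 7) : (a, 13 * i + b) ∈ gridC m n lit ↔
      (a = 6 ∧ b ≤ 11) ∨ (a = 7 ∧ 4 ≤ b ∧ b ≤ 9) ∨ (a = 7 ∧ b = 11) := by
  rw [mem_gridC]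
  constructor
  · rintro (h | ⟨i', hi', ⟨b', h2, h⟩ | ⟨j', hj', a', b', h1, h2, h⟩ | ⟨a', b', h1, h2, h⟩⟩)
    · omega
    · rw [mem_tileL] at h
      omega
    · omega
    · omega
  · intro h
    right
    refine ⟨i, hi, Or.inl ⟨b, rfl, ?_⟩⟩
    rw [mem_tileL]
    omega

end Pool.Agent.R539.T1x
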