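import Mathlib
import Pool.Agent.R539.PS.T1a

/-!
A Hamiltonian path of the set of cells gives a satisfying assignment.
-/

set_option autoImplicit false
set_option linter.unusedSimpArgs false

namespace Pool.Agent.R539.T1x

/-- a path through the cells -/
structure GP (m n : ℕ) (lit : ℕ → ℕ → ℕ) (l : List Cell) : Prop where
  nodup : l.Nodup
  chain : l.IsChain UAdj
  head : l.head? = some (0, 0)
  last : ∀ x y : ℕ, l.getLast? = some (x, y) → 8 * m + 8 ≤ x
  mem : ∀ x y : ℕ, (x, y) ∈ l ↔ (x, y) ∈ gridC m n lit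

variable {m n : ℕ} {lit : ℕ → ℕ → ℕ} {l : List Cell}

theorem GP.deg (h : GP m n lit l) {x x' y y' : ℕ} (hx : x = x' + 1) (hy : y = y' + 1)
    (hm : (x, y) ∈ gridC m n lit) (hx2 : x < 8 * m + 8) :
    RE l x y + RE l x' y + UE l x y + UE l x y' = 2 := by
  subst hx hy
  refine T1x.deg h.nodup h.chain ((h.mem _ _).2 hm) ?_ ?_
  · rw [h.head]
    simp
  · intro h2
    have := h.last _ _ h2
    omega

theorem GP.zero (h : GP m n lit l) {x x' y y' : ℕ} (hx : x = x' + 1) (hy : y = y' + 1)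
    (hm : (x, y) ∉ gridC m n lit) : RE l x y = 0 ∧ RE l x' y = 0 ∧ UE l x y = 0 ∧ UE l x y' = 0 := by
  subst hx hy
  have hm' : (x' + 1, y' + 1) ∉ l := fun h2 => hm ((h.mem _ _).1 h2)
  exact ⟨RE_zero hm', RE_zero' hm', UE_zero hm', UE_zero' hm'⟩

/-- degree equation in a clause tile -/
theorem GP.D (h : GP m n lit l) {i j : ℕ} (hi : i < n) (hj : j < m) (A A' b b' : ℕ) (hA : A = A' + 1)
    (hb : b = b' + 1) (h8 : 8 ≤ A) (h15 : A ≤ 15) (h12 : b ≤ 12) (ht : TC (0 < i) (lit i j) (A - 8) b) :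
    RE l (8 * j + A) (13 * i + b) + RE l (8 * j + A') (13 * i + b) + UE l (8 * j + A) (13 * i + b) +
      UE l (8 * j + A) (13 * i + b') = 2 :=
  h.deg (by omega) (by omega) ((memT hi hj h8 h15 h12).2 ht) (by omega)

/-- absent cells in a clause tile -/
theorem GP.Z (h : GP m n lit l) {i j : ℕ} (hi : i < n) (hj : j < m) (A A' b b' : ℕ) (hA : A = A' + 1)
    (hb : b = b' + 1) (h8 : 8 ≤ A) (h15 : A ≤ 15) (h12 : b ≤ 12) (ht : ¬ TC (0 < i) (lit i j) (A - 8) b) :
    RE l (8 * j + A) (13 * i + b) = 0 ∧ RE l (8 * j + A') (13 * i + b) = 0 ∧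
      UE l (8 * j + A) (13 * i + b) = 0 ∧ UE l (8 * j + A) (13 * i + b') = 0 :=
  h.zero (by omega) (by omega) fun h2 => ht ((memT hi hj h8 h15 h12).1 h2)

/-- absent cells in the column before a clause tile -/
theorem GP.Z7 (h : GP m n lit l) {i j : ℕ} (hj : j < m) (b b' : ℕ)
    (hb : b = b' + 1) (h12 : b ≤ 12) (ht : ¬ (b = 11 ∨ (4 ≤ b ∧ b ≤ 9))) :
    RE l (8 * j + 7) (13 * i + b) = 0 ∧ RE l (8 * j + 6) (13 * i + b) = 0 ∧
      UE l (8 * j + 7) (13 * i + b) = 0 ∧ UE l (8 * j + 7) (13 * i + b') = 0 :=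
  h.zero (by omega) (by omega) fun h2 => ht (mem7 hj h12 h2)

/-- row 4 -/
theorem GP.row4 (h : GP m n lit l) {i j : ℕ} (hi : i < n) (hj : j < m) :
    RE l (8 * j + 8) (13 * i + 4) + RE l (8 * j + 7) (13 * i + 4) = 1 ∧
    RE l (8 * j + 9) (13 * i + 4) = RE l (8 * j + 7) (13 * i + 4) ∧
    RE l (8 * j + 12) (13 * i + 4) + RE l (8 * j + 7) (13 * i + 4) = 1 ∧
    RE l (8 * j + 13) (13 * i + 4) = RE l (8 * j + 7) (13 * i + 4) ∧
    RE l (8 * j + 14) (13 * i + 4) + RE l (8 * j + 7) (13 * i + 4) = 1 := by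
  have z1 := h.Z7 (i := i) hj 3 2 rfl (by norm_num) (by norm_num)
  have z2 := h.Z hi hj 9 8 3 2 rfl rfl (by norm_num) (by norm_num) (by norm_num) (by simp [TC])
  have z3 := h.Z hi hj 8 7 5 4 rfl rfl (by norm_num) (by norm_num) (by norm_num) (by simp [TC])
  have z4 := h.Z hi hj 10 9 5 4 rfl rfl (by norm_num) (by norm_num) (by norm_num) (by simp [TC])
  have z5 := h.Z hi hj 12 11 5 4 rfl rfl (by norm_num) (by norm_num) (by norm_num) (by simp [TC])
  have z6 := h.Z hi hj 14 13 5 4 rfl rfl (by norm_num) (by norm_num) (by norm_num) (by simp [TC])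
  have z7 := h.Z hi hj 11 10 3 2 rfl rfl (by norm_num) (by norm_num) (by norm_num) (by simp [TC])
  have z8 := h.Z hi hj 13 12 3 2 rfl rfl (by norm_num) (by norm_num) (by norm_num) (by simp [TC])
  have z9 := h.Z hi hj 15 14 3 2 rfl rfl (by norm_num) (by norm_num) (by norm_num) (by simp [TC])
  have d1 := h.D hi hj 8 7 3 2 rfl rfl (by norm_num) (by norm_num) (by norm_num) (by simp [TC])
  have d2 := h.D hi hj 8 7 4 3 rfl rfl (by norm_num) (by norm_num) (by norm_num) (by simp [TC])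
  have d3 := h.D hi hj 9 8 5 4 rfl rfl (by norm_num) (by norm_num) (by norm_num) (by simp [TC])
  have d4 := h.D hi hj 9 8 4 3 rfl rfl (by norm_num) (by norm_num) (by norm_num) (by simp [TC])
  have d5 := h.D hi hj 10 9 3 2 rfl rfl (by norm_num) (by norm_num) (by norm_num) (by simp [TC])
  have d6 := h.D hi hj 10 9 4 3 rfl rfl (by norm_num) (by norm_num) (by norm_num) (by simp [TC])
  have d7 := h.D hi hj 11 10 5 4 rfl rfl (by norm_num) (by norm_num) (by norm_num) (by simp [TC])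
  have d8 := h.D hi hj 11 10 4 3 rfl rfl (by norm_num) (by norm_num) (by norm_num) (by simp [TC])
  have d9 := h.D hi hj 12 11 3 2 rfl rfl (by norm_num) (by norm_num) (by norm_num) (by simp [TC])
  have d10 := h.D hi hj 12 11 4 3 rfl rfl (by norm_num) (by norm_num) (by norm_num) (by simp [TC])
  have d11 := h.D hi hj 13 12 5 4 rfl rfl (by norm_num) (by norm_num) (by norm_num) (by simp [TC])
  have d12 := h.D hi hj 13 12 4 3 rfl rfl (by norm_num) (by norm_num) (by norm_num) (by simp [TC])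
  have d13 := h.D hi hj 14 13 3 2 rfl rfl (by norm_num) (by norm_num) (by norm_num) (by simp [TC])
  have d14 := h.D hi hj 14 13 4 3 rfl rfl (by norm_num) (by norm_num) (by norm_num) (by simp [TC])
  have u1 := UE_le l (8 * j + 8) (13 * i + 3)
  have u2 := UE_le l (8 * j + 8) (13 * i + 2)
  have u3 := UE_le l (8 * j + 9) (13 * i + 5)
  have u4 := UE_le l (8 * j + 9) (13 * i + 4)
  have u5 := UE_le l (8 * j + 10) (13 * i + 3)
  have u6 := UE_le l (8 * j + 10) (13 * i + 2)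
  have u7 := UE_le l (8 * j + 11) (13 * i + 5)
  have u8 := UE_le l (8 * j + 11) (13 * i + 4)
  have u9 := UE_le l (8 * j + 12) (13 * i + 3)
  have u10 := UE_le l (8 * j + 12) (13 * i + 2)
  have u11 := UE_le l (8 * j + 13) (13 * i + 5)
  have u12 := UE_le l (8 * j + 13) (13 * i + 4)
  have u13 := UE_le l (8 * j + 14) (13 * i + 3)
  have u14 := UE_le l (8 * j + 14) (13 * i + 2)
  omega

/-- row 9 -/
theorem GP.row9 (h : GP m n lit l) {i j : ℕ} (hi : i < n) (hj : j < m) :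
    RE l (8 * j + 8) (13 * i + 9) + RE l (8 * j + 7) (13 * i + 9) = 1 ∧
    RE l (8 * j + 9) (13 * i + 9) = RE l (8 * j + 7) (13 * i + 9) ∧
    RE l (8 * j + 12) (13 * i + 9) + RE l (8 * j + 7) (13 * i + 9) = 1 ∧
    RE l (8 * j + 13) (13 * i + 9) = RE l (8 * j + 7) (13 * i + 9) ∧
    RE l (8 * j + 14) (13 * i + 9) + RE l (8 * j + 7) (13 * i + 9) = 1 := by
  have z1 := h.Z7 (i := i) hj 10 9 rfl (by norm_num) (by norm_num)
  have z2 := h.Z hi hj 9 8 10 9 rfl rfl (by norm_num) (by norm_num) (by norm_num) (by simp [TC])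
  have z3 := h.Z hi hj 8 7 8 7 rfl rfl (by norm_num) (by norm_num) (by norm_num) (by simp [TC])
  have z4 := h.Z hi hj 10 9 8 7 rfl rfl (by norm_num) (by norm_num) (by norm_num) (by simp [TC])
  have z5 := h.Z hi hj 12 11 8 7 rfl rfl (by norm_num) (by norm_num) (by norm_num) (by simp [TC])
  have z6 := h.Z hi hj 14 13 8 7 rfl rfl (by norm_num) (by norm_num) (by norm_num) (by simp [TC])
  have z7 := h.Z hi hj 11 10 10 9 rfl rfl (by norm_num) (by norm_num) (by norm_num) (by simp [TC])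
  have z8 := h.Z hi hj 13 12 10 9 rfl rfl (by norm_num) (by norm_num) (by norm_num) (by simp [TC])
  have z9 := h.Z hi hj 15 14 10 9 rfl rfl (by norm_num) (by norm_num) (by norm_num) (by simp [TC])
  have d1 := h.D hi hj 8 7 10 9 rfl rfl (by norm_num) (by norm_num) (by norm_num) (by simp [TC])
  have d2 := h.D hi hj 8 7 9 8 rfl rfl (by norm_num) (by norm_num) (by norm_num) (by simp [TC])
  have d3 := h.D hi hj 9 8 8 7 rfl rfl (by norm_num) (by norm_num) (by norm_num) (by simp [TC])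
  have d4 := h.D hi hj 9 8 9 8 rfl rfl (by norm_num) (by norm_num) (by norm_num) (by simp [TC])
  have d5 := h.D hi hj 10 9 10 9 rfl rfl (by norm_num) (by norm_num) (by norm_num) (by simp [TC])
  have d6 := h.D hi hj 10 9 9 8 rfl rfl (by norm_num) (by norm_num) (by norm_num) (by simp [TC])
  have d7 := h.D hi hj 11 10 8 7 rfl rfl (by norm_num) (by norm_num) (by norm_num) (by simp [TC])
  have d8 := h.D hi hj 11 10 9 8 rfl rfl (by norm_num) (by norm_num) (by norm_num) (by simp [TC])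
  have d9 := h.D hi hj 12 11 10 9 rfl rfl (by norm_num) (by norm_num) (by norm_num) (by simp [TC])
  have d10 := h.D hi hj 12 11 9 8 rfl rfl (by norm_num) (by norm_num) (by norm_num) (by simp [TC])
  have d11 := h.D hi hj 13 12 8 7 rfl rfl (by norm_num) (by norm_num) (by norm_num) (by simp [TC])
  have d12 := h.D hi hj 13 12 9 8 rfl rfl (by norm_num) (by norm_num) (by norm_num) (by simp [TC])
  have d13 := h.D hi hj 14 13 10 9 rfl rfl (by norm_num) (by norm_num) (by norm_num) (by simp [TC])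
  have d14 := h.D hi hj 14 13 9 8 rfl rfl (by norm_num) (by norm_num) (by norm_num) (by simp [TC])
  have u1 := UE_le l (8 * j + 8) (13 * i + 10)
  have u2 := UE_le l (8 * j + 8) (13 * i + 9)
  have u3 := UE_le l (8 * j + 9) (13 * i + 8)
  have u4 := UE_le l (8 * j + 9) (13 * i + 7)
  have u5 := UE_le l (8 * j + 10) (13 * i + 10)
  have u6 := UE_le l (8 * j + 10) (13 * i + 9)
  have u7 := UE_le l (8 * j + 11) (13 * i + 8)
  have u8 := UE_le l (8 * j + 11) (13 * i + 7)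
  have u9 := UE_le l (8 * j + 12) (13 * i + 10)
  have u10 := UE_le l (8 * j + 12) (13 * i + 9)
  have u11 := UE_le l (8 * j + 13) (13 * i + 8)
  have u12 := UE_le l (8 * j + 13) (13 * i + 7)
  have u13 := UE_le l (8 * j + 14) (13 * i + 10)
  have u14 := UE_le l (8 * j + 14) (13 * i + 9)
  omega

/-- from one tile to the next one -/
theorem GP.next (h : GP m n lit l) {i j : ℕ} (hi : i < n) (hj : j + 1 < m) :
    RE l (8 * j + 15) (13 * i + 4) = RE l (8 * j + 7) (13 * i + 4) ∧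
    RE l (8 * j + 15) (13 * i + 9) = RE l (8 * j + 7) (13 * i + 9) := by
  have hj' : j < m := by omega
  have r4 := h.row4 hi hj'
  have r9 := h.row9 hi hj'
  have z1 := h.Z hi hj 8 7 5 4 rfl rfl (by norm_num) (by norm_num) (by norm_num) (by simp [TC])
  have z2 := h.Z hi hj 8 7 8 7 rfl rfl (by norm_num) (by norm_num) (by norm_num) (by simp [TC])
  have e7 : 8 * (j + 1) + 7 = 8 * j + 15 := by ring
  have e8 : 8 * (j + 1) + 8 = 8 * j + 16 := by ring
  rw [e7, e8] at z1 z2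
  have z3 := h.Z hi hj' 14 13 5 4 rfl rfl (by norm_num) (by norm_num) (by norm_num) (by simp [TC])
  have z4 := h.Z hi hj' 14 13 8 7 rfl rfl (by norm_num) (by norm_num) (by norm_num) (by simp [TC])
  have z5 := h.Z hi hj' 15 14 3 2 rfl rfl (by norm_num) (by norm_num) (by norm_num) (by simp [TC])
  have z6 := h.Z hi hj' 15 14 10 9 rfl rfl (by norm_num) (by norm_num) (by norm_num) (by simp [TC])
  have d1 := h.D hi hj' 15 14 5 4 rfl rfl (by norm_num) (by norm_num) (by norm_num) (by simp [TC])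
  have d2 := h.D hi hj' 15 14 4 3 rfl rfl (by norm_num) (by norm_num) (by norm_num) (by simp [TC])
  have d3 := h.D hi hj' 15 14 8 7 rfl rfl (by norm_num) (by norm_num) (by norm_num) (by simp [TC])
  have d4 := h.D hi hj' 15 14 9 8 rfl rfl (by norm_num) (by norm_num) (by norm_num) (by simp [TC])
  have z7 := h.Z hi hj' 14 13 5 4 rfl rfl (by norm_num) (by norm_num) (by norm_num) (by simp [TC])
  have u1 := UE_le l (8 * j + 15) (13 * i + 5)
  have u2 := UE_le l (8 * j + 15) (13 * i + 4)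
  have u3 := UE_le l (8 * j + 15) (13 * i + 8)
  have u4 := UE_le l (8 * j + 15) (13 * i + 7)
  omega

/-- degree equation at the left end -/
theorem GP.DL (h : GP m n lit l) {i : ℕ} (hi : i < n) (a a' b b' : ℕ) (ha : a = a' + 1)
    (hb : b = b' + 1) (h5 : 5 ≤ a) (h7 : a ≤ 7) (h12 : b ≤ 12)
    (ht : (a = 6 ∧ b ≤ 11) ∨ (a = 7 ∧ 4 ≤ b ∧ b ≤ 9) ∨ (a = 7 ∧ b = 11)) :
    RE l a (13 * i + b) + RE l a' (13 * i + b) + UE l a (13 * i + b) + UE l a (13 * i + b') = 2 :=
  h.deg ha (by omega) ((memL hi h12 (by omega) h5 h7).2 ht) (by omega)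

/-- absent cells at the left end -/
theorem GP.ZL (h : GP m n lit l) {i : ℕ} (hi : i < n) (a a' b b' : ℕ) (ha : a = a' + 1)
    (hb : b = b' + 1) (h5 : 5 ≤ a) (h7 : a ≤ 7) (h12 : b ≤ 12)
    (ht : ¬ ((a = 6 ∧ b ≤ 11) ∨ (a = 7 ∧ 4 ≤ b ∧ b ≤ 9) ∨ (a = 7 ∧ b = 11))) :
    RE l a (13 * i + b) = 0 ∧ RE l a' (13 * i + b) = 0 ∧ UE l a (13 * i + b) = 0 ∧
      UE l a (13 * i + b') = 0 :=
  h.zero ha (by omega) fun h2 => ht ((memL hi h12 (by omega) h5 h7).1 h2)

/-- the left end -/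
theorem GP.left (h : GP m n lit l) (hm : 0 < m) {i : ℕ} (hi : i < n) :
    RE l 7 (13 * i + 4) = RE l 7 (13 * i + 9) := by
  have a3 := h.ZL hi 5 4 3 2 rfl rfl (by norm_num) (by norm_num) (by norm_num) (by norm_num)
  have a4 := h.ZL hi 5 4 4 3 rfl rfl (by norm_num) (by norm_num) (by norm_num) (by norm_num)
  have a5 := h.ZL hi 5 4 5 4 rfl rfl (by norm_num) (by norm_num) (by norm_num) (by norm_num)
  have a6 := h.ZL hi 5 4 6 5 rfl rfl (by norm_num) (by norm_num) (by norm_num) (by norm_num)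
  have a7 := h.ZL hi 5 4 7 6 rfl rfl (by norm_num) (by norm_num) (by norm_num) (by norm_num)
  have a8 := h.ZL hi 5 4 8 7 rfl rfl (by norm_num) (by norm_num) (by norm_num) (by norm_num)
  have a9 := h.ZL hi 5 4 9 8 rfl rfl (by norm_num) (by norm_num) (by norm_num) (by norm_num)
  have a10 := h.ZL hi 5 4 10 9 rfl rfl (by norm_num) (by norm_num) (by norm_num) (by norm_num)
  have c3 := h.ZL hi 7 6 3 2 rfl rfl (by norm_num) (by norm_num) (by norm_num) (by norm_num)
  have c10 := h.ZL hi 7 6 10 9 rfl rfl (by norm_num) (by norm_num) (by norm_num) (by norm_num)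
  have g5 := h.Z hi hm 8 7 5 4 rfl rfl (by norm_num) (by norm_num) (by norm_num) (by simp [TC])
  have g6 := h.Z hi hm 8 7 6 5 rfl rfl (by norm_num) (by norm_num) (by norm_num) (by simp [TC])
  have g7 := h.Z hi hm 8 7 7 6 rfl rfl (by norm_num) (by norm_num) (by norm_num) (by simp [TC])
  have g8 := h.Z hi hm 8 7 8 7 rfl rfl (by norm_num) (by norm_num) (by norm_num) (by simp [TC])
  simp only [mul_zero, zero_add] at g5 g6 g7 g8
  have d3 := h.DL hi 6 5 3 2 rfl rfl (by norm_num) (by norm_num) (by norm_num) (by norm_num)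
  have d4 := h.DL hi 6 5 4 3 rfl rfl (by norm_num) (by norm_num) (by norm_num) (by norm_num)
  have d5 := h.DL hi 6 5 5 4 rfl rfl (by norm_num) (by norm_num) (by norm_num) (by norm_num)
  have d6 := h.DL hi 6 5 6 5 rfl rfl (by norm_num) (by norm_num) (by norm_num) (by norm_num)
  have d7 := h.DL hi 6 5 7 6 rfl rfl (by norm_num) (by norm_num) (by norm_num) (by norm_num)
  have d8 := h.DL hi 6 5 8 7 rfl rfl (by norm_num) (by norm_num) (by norm_num) (by norm_num)
  have d9 := h.DL hi 6 5 9 8 rfl rfl (by norm_num) (by norm_num) (by norm_num) (by norm_num)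
  have d10 := h.DL hi 6 5 10 9 rfl rfl (by norm_num) (by norm_num) (by norm_num) (by norm_num)
  have e4 := h.DL hi 7 6 4 3 rfl rfl (by norm_num) (by norm_num) (by norm_num) (by norm_num)
  have e5 := h.DL hi 7 6 5 4 rfl rfl (by norm_num) (by norm_num) (by norm_num) (by norm_num)
  have e6 := h.DL hi 7 6 6 5 rfl rfl (by norm_num) (by norm_num) (by norm_num) (by norm_num)
  have e7 := h.DL hi 7 6 7 6 rfl rfl (by norm_num) (by norm_num) (by norm_num) (by norm_num)
  have e8 := h.DL hi 7 6 8 7 rfl rfl (by norm_num) (by norm_num) (by norm_num) (by norm_num)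
  have e9 := h.DL hi 7 6 9 8 rfl rfl (by norm_num) (by norm_num) (by norm_num) (by norm_num)
  have u1 := UE_le l 6 (13 * i + 3)
  have u2 := UE_le l 6 (13 * i + 2)
  have u3 := UE_le l 6 (13 * i + 10)
  have u4 := UE_le l 6 (13 * i + 9)
  have u5 := RE_le l 7 (13 * i + 4)
  have u6 := RE_le l 7 (13 * i + 9)
  omega

/-- the bit of a band is the same in all tiles -/
theorem GP.bits (h : GP m n lit l) {i : ℕ} (hi : i < n) : ∀ j, j < m →
    RE l (8 * j + 7) (13 * i + 4) = RE l 7 (13 * i + 4) ∧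
    RE l (8 * j + 7) (13 * i + 9) = RE l 7 (13 * i + 4) := by
  intro j
  induction j with
  | zero =>
    intro hm
    have h9 := h.left hm hi
    rw [mul_zero, zero_add]
    exact ⟨rfl, h9.symm⟩
  | succ j ih =>
    intro hj
    obtain ⟨h1, h2⟩ := ih (by omega)
    obtain ⟨h3, h4⟩ := h.next hi hj
    have e : 8 * (j + 1) + 7 = 8 * j + 15 := by ring
    rw [e]
    exact ⟨h3.trans h1, h4.trans h2⟩

theorem GP.Z' (h : GP m n lit l) {i j : ℕ} (hi : i < n) (hj : j < m) (A b : ℕ)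
    (h8 : 8 ≤ A) (h15 : A ≤ 15) (h12 : b ≤ 12) (ht : ¬ TC (0 < i) (lit i j) (A - 8) b) :
    UE l (8 * j + A) (13 * i + b) = 0 :=
  UE_zero fun h2 => ht ((memT hi hj h8 h15 h12).1 ((h.mem _ _).1 h2))

/-- the degree equation in the row of the nodes -/
theorem GP.D0 (h : GP m n lit l) {i j : ℕ} (hi : i + 1 < n) (hj : j < m) (A A' : ℕ) (hA : A = A' + 1)
    (h8 : 9 ≤ A) (h15 : A ≤ 12) :
    RE l (8 * j + A) (13 * (i + 1) + 0) + RE l (8 * j + A') (13 * (i + 1) + 0) +
      UE l (8 * j + A) (13 * (i + 1) + 0) + UE l (8 * j + A) (13 * i + 12) = 2 := by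
  refine h.deg (by omega) (by omega) ((memT hi hj (by omega) (by omega) (by norm_num)).2 ?_) (by omega)
  unfold TC
  right
  left
  omega

/-- only one ring can be entered at a node -/
theorem GP.node (h : GP m n lit l) {i j : ℕ} (hi : i + 1 < n) (hj : j < m)
    (hu : UE l (8 * j + 10) (13 * i + 12) = 1 ∨ UE l (8 * j + 11) (13 * i + 12) = 1) :
    UE l (8 * j + 10) (13 * (i + 1) + 0) = 0 ∧ UE l (8 * j + 11) (13 * (i + 1) + 0) = 0 := by
  have hi' : i < n := by omega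
  have z1 := h.Z hi hj 9 8 1 0 rfl rfl (by norm_num) (by norm_num) (by norm_num) (by simp [TC])
  have z2 := h.Z hi hj 12 11 1 0 rfl rfl (by norm_num) (by norm_num) (by norm_num) (by simp [TC])
  have z3 := h.Z hi hj 9 8 2 1 rfl rfl (by norm_num) (by norm_num) (by norm_num) (by simp [TC])
  have z4 := h.Z hi hj 9 8 3 2 rfl rfl (by norm_num) (by norm_num) (by norm_num) (by simp [TC])
  have z5 := h.Z hi hj 11 10 3 2 rfl rfl (by norm_num) (by norm_num) (by norm_num) (by simp [TC])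
  have z6 := h.Z hi hj 13 12 2 1 rfl rfl (by norm_num) (by norm_num) (by norm_num) (by simp [TC])
  have z7 := h.Z' hi' hj 9 12 (by norm_num) (by norm_num) (by norm_num) (by simp [TC])
  have z8 := h.Z' hi' hj 12 12 (by norm_num) (by norm_num) (by norm_num) (by simp [TC])
  have d1 := h.D0 hi hj 9 8 rfl (by norm_num) (by norm_num)
  have d2 := h.D0 hi hj 10 9 rfl (by norm_num) (by norm_num)
  have d3 := h.D0 hi hj 11 10 rfl (by norm_num) (by norm_num)
  have d4 := h.D0 hi hj 12 11 rfl (by norm_num) (by norm_num)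
  have d5 := h.D hi hj 10 9 1 0 rfl rfl (by norm_num) (by norm_num) (by norm_num) (by simp [TC])
  have d6 := h.D hi hj 11 10 1 0 rfl rfl (by norm_num) (by norm_num) (by norm_num) (by simp [TC])
  have d7 := h.D hi hj 10 9 2 1 rfl rfl (by norm_num) (by norm_num) (by norm_num) (by simp [TC])
  have d8 := h.D hi hj 11 10 2 1 rfl rfl (by norm_num) (by norm_num) (by norm_num) (by simp [TC])
  have d9 := h.D hi hj 12 11 2 1 rfl rfl (by norm_num) (by norm_num) (by norm_num) (by simp [TC])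
  have d10 := h.D hi hj 10 9 3 2 rfl rfl (by norm_num) (by norm_num) (by norm_num) (by simp [TC])
  have u1 := UE_le l (8 * j + 10) (13 * (i + 1) + 3)
  have u2 := UE_le l (8 * j + 10) (13 * (i + 1) + 2)
  have u3 := UE_le l (8 * j + 12) (13 * (i + 1) + 2)
  have u4 := RE_le l (8 * j + 8) (13 * (i + 1) + 0)
  have u5 := RE_le l (8 * j + 9) (13 * (i + 1) + 0)
  have u6 := RE_le l (8 * j + 11) (13 * (i + 1) + 0)
  have u7 := RE_le l (8 * j + 12) (13 * (i + 1) + 0)
  have u8 := RE_le l (8 * j + 11) (13 * (i + 1) + 2)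
  omega

theorem RE_mem {x y : ℕ} (h : RE l x y ≠ 0) : (x, y) ∈ l ∧ (x + 1, y) ∈ l := by
  constructor
  · by_contra hc
    exact h (RE_zero hc)
  · by_contra hc
    exact h (RE_zero' hc)

theorem UE_mem {x y : ℕ} (h : UE l x y ≠ 0) : (x, y) ∈ l ∧ (x, y + 1) ∈ l := by
  constructor
  · by_contra hc
    exact h (UE_zero hc)
  · by_contra hc
    exact h (UE_zero' hc)

theorem RE_one {x y : ℕ} (h : Ed l (x, y) (x + 1, y)) : RE l x y = 1 := if_pos h

theorem UE_one {x y : ℕ} (h : Ed l (x, y) (x, y + 1)) : UE l x y = 1 := if_pos h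

/-- the side edges of the box are not used -/
theorem GP.side (h : GP m n lit l) {i j A b : ℕ} (hi : i < n) (hj : j < m)
    (hno : (RE l 7 (13 * i + 4) = 0 → lit i j ≠ 1) ∧ (RE l 7 (13 * i + 4) ≠ 0 → lit i j ≠ 2))
    (hA : (RE l 7 (13 * i + 4) = 0 ∧ (A = 9 ∨ A = 13)) ∨ (RE l 7 (13 * i + 4) ≠ 0 ∧ (A = 8 ∨ A = 12)))
    (hb : 1 ≤ b) (hb' : b ≤ 12) : RE l (8 * j + A) (13 * i + b) = 0 := by
  by_contra hc
  obtain ⟨m1, m2⟩ := RE_mem hc
  rw [h.mem] at m1 m2
  rw [memT hi hj (by omega) (by omega) hb'] at m1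
  rw [show 8 * j + A + 1 = 8 * j + (A + 1) by ring, memT hi hj (by omega) (by omega) hb'] at m2
  have r4 := h.row4 hi hj
  have r9 := h.row9 hi hj
  obtain ⟨b1, b2⟩ := h.bits hi j hj
  rw [b1] at r4
  rw [b2] at r9
  have u := RE_le l 7 (13 * i + 4)
  have key : b = 4 ∨ b = 9 := by
    rcases hA with ⟨h0, rfl | rfl⟩ | ⟨h0, rfl | rfl⟩
    · have := hno.1 h0
      simp only [TC, this, Nat.reduceSub, Nat.reduceAdd, OfNat.ofNat_ne_zero, OfNat.ofNat_ne_one,
        false_and, false_or, or_false, and_false, one_ne_zero, true_and, Nat.reduceEqDiff, OfNat.one_ne_ofNat] at m1 m2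
      omega
    · simp only [TC, Nat.reduceSub, Nat.reduceAdd, OfNat.ofNat_ne_zero, OfNat.ofNat_ne_one,
        false_and, false_or, or_false, and_false, one_ne_zero, true_and, Nat.reduceEqDiff, OfNat.one_ne_ofNat] at m1 m2
      omega
    · simp only [TC, Nat.reduceSub, Nat.reduceAdd, OfNat.ofNat_ne_zero, OfNat.ofNat_ne_one,
        false_and, false_or, or_false, and_false, one_ne_zero, true_and, Nat.reduceEqDiff, OfNat.one_ne_ofNat] at m1 m2
      omega
    · have := hno.2 h0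
      simp only [TC, this, Nat.reduceSub, Nat.reduceAdd, OfNat.ofNat_ne_zero, OfNat.ofNat_ne_one,
        false_and, false_or, or_false, and_false, one_ne_zero, true_and, Nat.reduceEqDiff, OfNat.one_ne_ofNat] at m1 m2
      omega
  rcases key with rfl | rfl
  · rcases hA with ⟨h0, rfl | rfl⟩ | ⟨h0, rfl | rfl⟩ <;> omega
  · rcases hA with ⟨h0, rfl | rfl⟩ | ⟨h0, rfl | rfl⟩ <;> omega

theorem gridC_lt {x y : ℕ} (hn : 0 < n) (h : (x, y) ∈ gridC m n lit) : y < 13 * n := by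
  rw [mem_gridC] at h
  rcases h with (h | ⟨i', hi', ⟨b', h2, h⟩ | ⟨j', hj', a', b', h1, h2, h⟩ | ⟨a', b', h1, h2, h⟩⟩)
  · omega
  · rw [mem_tileL] at h
    omega
  · have := (TC_le h).2
    omega
  · rw [mem_tileR] at h
    omega

/-- the ring of a false literal is left through the bottom or the top -/
theorem GP.box (h : GP m n lit l) {i j : ℕ} (hi : i < n) (hj : j < m)
    (hno : (RE l 7 (13 * i + 4) = 0 → lit i j ≠ 1) ∧ (RE l 7 (13 * i + 4) ≠ 0 → lit i j ≠ 2)) :
    (0 < i ∧ (UE l (8 * j + 10) (13 * i + 0) = 1 ∨ UE l (8 * j + 11) (13 * i + 0) = 1)) ∨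
    (i + 1 < n ∧ (UE l (8 * j + 10) (13 * i + 12) = 1 ∨ UE l (8 * j + 11) (13 * i + 12) = 1)) := by
  obtain ⟨c, hc⟩ : ∃ c : ℕ, (RE l 7 (13 * i + 4) = 0 ∧ c = 10) ∨ (RE l 7 (13 * i + 4) ≠ 0 ∧ c = 9) := by
    by_cases h0 : RE l 7 (13 * i + 4) = 0
    · exact ⟨10, Or.inl ⟨h0, rfl⟩⟩
    · exact ⟨9, Or.inr ⟨h0, rfl⟩⟩
  have hin : ((8 * j + 11, 13 * i + 5) : Cell) ∈ l := by
    rw [h.mem, memT hi hj (by norm_num) (by norm_num) (by norm_num)]
    simp [TC]
  obtain ⟨p, q, hpq, hp, hq⟩ := crossing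
    (fun p => 8 * j + c ≤ p.1 ∧ p.1 ≤ 8 * j + c + 3 ∧ 13 * i + 1 ≤ p.2 ∧ p.2 ≤ 13 * i + 12) l (0, 0)
    h.head (by simp) ⟨_, hin, by simp only; omega⟩
  have hE : Ed l p q := Or.inl hpq
  have hadj := hE.adj h.chain
  obtain ⟨p1, p2⟩ := p
  obtain ⟨q1, q2⟩ := q
  unfold UAdj at hadj
  simp only at hadj hp hq
  have hcases : (q2 = p2 ∧ q1 = p1 + 1 ∧ q1 = 8 * j + c) ∨ (q2 = p2 ∧ p1 = q1 + 1 ∧ q1 = 8 * j + c + 3) ∨
      (q1 = p1 ∧ q2 = p2 + 1 ∧ q2 = 13 * i + 1) ∨ (q1 = p1 ∧ p2 = q2 + 1 ∧ q2 = 13 * i + 12) := by omega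
  rcases hcases with ⟨e1, e2, e3⟩ | ⟨e1, e2, e3⟩ | ⟨e1, e2, e3⟩ | ⟨e1, e2, e3⟩
  · exfalso
    have h1 : RE l p1 p2 = 1 := RE_one (by rw [e1, e2] at hE; exact hE)
    obtain ⟨b, hb⟩ : ∃ b, p2 = 13 * i + b := ⟨p2 - 13 * i, by omega⟩
    have hp1 : p1 = 8 * j + (c - 1) := by omega
    rw [hb, hp1] at h1
    have := h.side (A := c - 1) (b := b) hi hj hno (by omega) (by omega) (by omega)
    omega
  · exfalso
    have h1 : RE l q1 q2 = 1 := RE_one (by rw [← e1, e2] at hE; exact hE.symm)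
    obtain ⟨b, hb⟩ : ∃ b, q2 = 13 * i + b := ⟨q2 - 13 * i, by omega⟩
    have hp1 : q1 = 8 * j + (c + 3) := by omega
    rw [hb, hp1] at h1
    have := h.side (A := c + 3) (b := b) hi hj hno (by omega) (by omega) (by omega)
    omega
  · left
    have h1 : UE l p1 p2 = 1 := UE_one (by rw [e1, e2] at hE; exact hE)
    have m1 := (UE_mem (by rw [h1]; norm_num : UE l p1 p2 ≠ 0)).2
    rw [h.mem] at m1
    obtain ⟨A, hA⟩ : ∃ A, p1 = 8 * j + A := ⟨p1 - 8 * j, by omega⟩
    have e4 : p2 = 13 * i + 0 := by omega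
    have e5 : p2 + 1 = 13 * i + 1 := by omega
    rw [hA, e5, memT hi hj (by omega) (by omega) (by norm_num)] at m1
    simp only [TC, Nat.reduceLeDiff, and_false, or_false, false_or,
      OfNat.one_ne_ofNat, one_ne_zero, false_and, true_and] at m1
    have hA2 : (A = 10 ∨ A = 11) ∧ 0 < i := by omega
    rw [hA, e4] at h1
    refine ⟨hA2.2, ?_⟩
    rcases hA2.1 with rfl | rfl
    · exact Or.inl h1
    · exact Or.inr h1
  · right
    have h1 : UE l q1 q2 = 1 := UE_one (by rw [← e1, e2] at hE; exact hE.symm)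
    obtain ⟨m1, m2⟩ := UE_mem (by rw [h1]; norm_num : UE l q1 q2 ≠ 0)
    rw [h.mem] at m1 m2
    have hlt := gridC_lt (by omega) m2
    obtain ⟨A, hA⟩ : ∃ A, q1 = 8 * j + A := ⟨q1 - 8 * j, by omega⟩
    rw [hA, e3, memT hi hj (by omega) (by omega) (by norm_num)] at m1
    simp only [TC, Nat.reduceLeDiff, and_false, or_false, false_or, OfNat.ofNat_ne_zero,
      OfNat.ofNat_ne_one, false_and, true_and, and_true, Nat.reduceEqDiff] at m1
    have hA2 : A = 10 ∨ A = 11 := by omega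
    rw [hA, e3] at h1
    refine ⟨by omega, ?_⟩
    rcases hA2 with rfl | rfl
    · exact Or.inl h1
    · exact Or.inr h1

/-- T1 -/
theorem grid_onlyif {m N : ℕ} (hm : 0 < m) (lit : ℕ → ℕ → ℕ) (hnd : (gridC m (2*N+1) lit).Nodup)
    (h : HamPath (gridC m (2*N+1) lit) (0,0) (8*m+10, 26*N+12)) :
    ∃ x : ℕ → Bool, ∀ j < m, ∃ i < 2*N+1, (lit i j = 1 ∧ x i = true) ∨ (lit i j = 2 ∧ x i = false) := by
  obtain ⟨l, hperm, hch, hh, hl⟩ := h
  have H : GP m (2 * N + 1) lit l :=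
    { nodup := hperm.nodup_iff.2 hnd
      chain := hch
      head := hh
      last := fun x y hxy => by
        rw [hl] at hxy
        have := (Prod.mk.inj (Option.some.inj hxy)).1
        omega
      mem := fun x y => hperm.mem_iff }
  refine ⟨fun i => decide (RE l 7 (13 * i + 4) = 0), fun j hj => ?_⟩
  by_contra hcon
  push Not at hcon
  have hno : ∀ i < 2 * N + 1, (RE l 7 (13 * i + 4) = 0 → lit i j ≠ 1) ∧
      (RE l 7 (13 * i + 4) ≠ 0 → lit i j ≠ 2) := by
    intro i hi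
    obtain ⟨h1, h2⟩ := hcon i hi
    constructor
    · intro h0 h3
      exact h1 h3 (decide_eq_true h0)
    · intro h0 h3
      exact h2 h3 (decide_eq_false h0)
  have key : ∀ i, i < 2 * N + 1 → i + 1 < 2 * N + 1 ∧
      (UE l (8 * j + 10) (13 * i + 12) = 1 ∨ UE l (8 * j + 11) (13 * i + 12) = 1) := by
    intro i
    induction i with
    | zero =>
      intro hi
      rcases H.box hi hj (hno 0 hi) with h1 | h1
      · exact absurd h1.1 (lt_irrefl 0)
      · exact h1
    | succ i ih =>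
      intro hi
      obtain ⟨h1, h2⟩ := ih (by omega)
      obtain ⟨h3, h4⟩ := H.node h1 hj h2
      rcases H.box hi hj (hno _ hi) with ⟨-, h5⟩ | h5
      · omega
      · exact h5
  have := (key (2 * N) (by omega)).1
  omega

end Pool.Agent.R539.T1x

namespace Pool.Agent.R539

/-- T1: a Hamiltonian path gives a satisfying assignment -/
theorem grid_onlyif {m N : ℕ} (hm : 0 < m) (lit : ℕ → ℕ → ℕ) (hnd : (gridC m (2*N+1) lit).Nodup)
    (h : HamPath (gridC m (2*N+1) lit) (0,0) (8*m+10, 26*N+12)) :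
    ∃ x : ℕ → Bool, ∀ j < m, ∃ i < 2*N+1, (lit i j = 1 ∧ x i = true) ∨ (lit i j = 2 ∧ x i = false) :=
  T1x.grid_onlyif hm lit hnd h

end Pool.Agent.R539
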