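import Pool.Agent.R539.PS.GDefs

/-!
# A satisfying assignment gives a Hamiltonian path
-/

namespace Pool.Agent.R539

/-- There is a path with unit steps from `a` to `b` through the cells of `M`. -/
def HP (M : Multiset Cell) (a b : Cell) : Prop :=
  ∃ l : List Cell, (l : Multiset Cell) = M ∧ l.IsChain UAdj ∧ l.head? = some a ∧ l.getLast? = some b

/-- Translation of a multiset of cells. -/
def tm (x y : ℕ) (M : Multiset Cell) : Multiset Cell := M.map fun p => (x + p.1, y + p.2)

theorem tm_add (x y : ℕ) (A B : Multiset Cell) : tm x y (A + B) = tm x y A + tm x y B :=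
  Multiset.map_add _ _ _

theorem tm_zero (x y : ℕ) : tm x y 0 = 0 := rfl

theorem coe_tr (x y : ℕ) (l : List Cell) : ((tr x y l : List Cell) : Multiset Cell) = tm x y l := by
  simp [tr, tm]

theorem tm_tm (x y x' y' : ℕ) (M : Multiset Cell) : tm x y (tm x' y' M) = tm (x + x') (y + y') M := by
  simp only [tm, Multiset.map_map, Function.comp_def]
  congr 1
  funext p
  simp only [Prod.mk.injEq]
  constructor <;> omega

theorem uadj_of {p q : Cell} (h : (p.1 = q.1 ∧ (p.2 = q.2 + 1 ∨ q.2 = p.2 + 1)) ∨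
    (p.2 = q.2 ∧ (p.1 = q.1 + 1 ∨ q.1 = p.1 + 1))) : UAdj p q := h

theorem UAdj.symm {p q : Cell} (h : UAdj p q) : UAdj q p := by
  unfold UAdj at *
  omega

theorem HP.append {M M' : Multiset Cell} {a b c d : Cell} (h : HP M a b) (h' : HP M' c d)
    (hbc : UAdj b c) : HP (M + M') a d := by
  obtain ⟨l, hl, hc, ha, hb⟩ := h
  obtain ⟨l', hl', hc', ha', hb'⟩ := h'
  have hn : l ≠ [] := by rintro rfl; simp at ha
  have hn' : l' ≠ [] := by rintro rfl; simp at ha'
  refine ⟨l ++ l', ?_, ?_, ?_, ?_⟩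
  · rw [← hl, ← hl']; rfl
  · rw [List.isChain_append]
    refine ⟨hc, hc', ?_⟩
    intro x hx y hy
    rw [hb] at hx
    rw [ha'] at hy
    simp only [Option.mem_def, Option.some.injEq] at hx hy
    subst hx; subst hy
    exact hbc
  · rw [List.head?_append, ha]; rfl
  · rw [List.getLast?_append, hb']; rfl

theorem HP.reverse {M : Multiset Cell} {a b : Cell} (h : HP M a b) : HP M b a := by
  obtain ⟨l, hl, hc, ha, hb⟩ := h
  refine ⟨l.reverse, ?_, ?_, ?_, ?_⟩
  · rw [← hl]
    exact Multiset.coe_eq_coe.2 (List.reverse_perm l)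
  · rw [List.isChain_reverse]
    exact hc.imp fun _ _ h => h.symm
  · rw [List.head?_reverse, hb]
  · rw [List.getLast?_reverse, ha]

theorem HP.tm {M : Multiset Cell} {a b : Cell} (x y : ℕ) (h : HP M a b) :
    HP (tm x y M) (x + a.1, y + a.2) (x + b.1, y + b.2) := by
  obtain ⟨l, hl, hc, ha, hb⟩ := h
  refine ⟨tr x y l, ?_, ?_, ?_, ?_⟩
  · rw [coe_tr, hl]
  · unfold tr
    rw [List.isChain_map]
    refine hc.imp fun p q h => ?_
    unfold UAdj at *
    simp only
    omega
  · simp [tr, ha]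
  · simp [tr, hb]

/-- Concrete lists. -/
theorem HP.of {l : List Cell} {M : Multiset Cell} {a b : Cell} (hM : (l : Multiset Cell) = M)
    (hc : l.IsChain UAdj) (ha : l.head? = some a) (hb : l.getLast? = some b) : HP M a b :=
  ⟨l, hM, hc, ha, hb⟩

/-- the three cases for the occurrence -/
def kred (k : ℕ) : Fin 3 := if k = 1 then 1 else if k = 2 then 2 else 0

theorem ringC_kred (lo : Bool) (k : ℕ) : ringC lo k = ringC lo (kred k : ℕ) := by
  unfold ringC kred
  by_cases h1 : k = 1
  · simp [h1]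
  · by_cases h2 : k = 2
    · simp [h2]
    · simp [h1, h2]

theorem tileC_kred (lo : Bool) (k : ℕ) : tileC lo k = tileC lo (kred k : ℕ) := by
  unfold tileC
  rw [ringC_kred]

/-- A downward run. -/
def vd (a b k : ℕ) : List Cell := (vr a b k).reverse

/-- The descending part of a clause tile. -/
def Dn (b : Bool) : List Cell :=
  vd 8 9 3 ++ (if b then vd 9 4 6 else vd 7 4 6) ++ vd 8 0 5

/-- The ascending part of a clause tile. -/
def Up (b : Bool) : List Cell :=
  vr 14 1 4 ++ (if b then vr 15 4 6 else vr 13 4 6) ++ vr 14 9 3 ++ [(15, 11)]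

/-- The ring with its middle element and the second element. -/
def Ring (b lo : Bool) (k : ℕ) : List Cell :=
  tr 8 0 (ringC lo k) ++ (if b then vr 13 4 6 else vr 9 4 6)

/-- The element left over. -/
def El (b : Bool) : List Cell := if b then [] else vr 7 4 6

/-- The middle element with the domino as a bump. -/
def fU (k : Fin 3) : List Cell :=
  [(11, 4), (11, 5), (11, 6)] ++ (if k = 1 then [(10, 6), (10, 7)] else
    if k = 2 then [(12, 6), (12, 7)] else []) ++ [(11, 7), (11, 8), (11, 9)]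

/-- The ring from its bottom tip. -/
def RA (b : Bool) (k : Fin 3) : List Cell :=
  vr 10 1 4 ++ (if b then fU k else vr 9 4 6) ++ vr 10 9 4 ++
    [(11, 12), (11, 11), (12, 11), (12, 10), (12, 9)] ++ (if b then vd 13 4 6 else (fU k).reverse) ++
    [(12, 4), (12, 3), (12, 2), (11, 2), (11, 1)]

/-- The ring from its top tip. -/
def RB (b lo : Bool) (k : Fin 3) : List Cell :=
  vd 10 9 4 ++ (if b then (fU k).reverse else vd 9 4 6) ++ vd 10 2 3 ++
    (if lo then [(10, 1), (11, 1)] else []) ++ [(11, 2), (12, 2), (12, 3), (12, 4)] ++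
    (if b then vr 13 4 6 else fU k) ++ [(12, 9), (12, 10), (12, 11), (11, 11), (11, 12)]

/-- The descending part together with the ring. -/
def DnBig (lo : Bool) : List Cell :=
  [(8, 11), (8, 10), (8, 9), (9, 9), (9, 8), (9, 7), (10, 7), (11, 7), (11, 8), (11, 9)] ++
    vr 10 9 4 ++ [(11, 12), (11, 11), (12, 11), (12, 10), (12, 9)] ++ vd 13 4 6 ++
    [(12, 4), (12, 3), (12, 2), (11, 2)] ++ (if lo then [(11, 1), (10, 1)] else []) ++ vr 10 2 3 ++
    [(11, 4), (11, 5), (11, 6), (10, 6), (9, 6), (9, 5), (9, 4)] ++ vd 8 0 5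

/-- The ascending part together with the ring. -/
def UpBig (lo : Bool) : List Cell :=
  vr 14 1 4 ++ [(13, 4), (13, 5), (13, 6), (12, 6), (11, 6), (11, 5), (11, 4), (12, 4), (12, 3),
    (12, 2), (11, 2)] ++ (if lo then [(11, 1), (10, 1)] else []) ++ vr 10 2 3 ++ vr 9 4 6 ++
    vr 10 9 4 ++ [(11, 12), (11, 11), (12, 11), (12, 10), (12, 9), (11, 9), (11, 8), (11, 7),
    (12, 7), (13, 7), (13, 8), (13, 9)] ++ vr 14 9 3 ++ [(15, 11)]

theorem HP_Dn (b : Bool) : HP (Dn b : Multiset Cell) (8, 11) (8, 0) := by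
  refine HP.of rfl ?_ ?_ ?_ <;> revert b <;> decide +kernel

theorem HP_Up (b : Bool) : HP (Up b : Multiset Cell) (14, 1) (15, 11) := by
  refine HP.of rfl ?_ ?_ ?_ <;> revert b <;> decide +kernel

theorem HP_RA (b : Bool) (k : ℕ) : HP (Ring b true k : Multiset Cell) (10, 1) (11, 1) := by
  unfold Ring
  rw [ringC_kred]
  generalize kred k = k
  refine HP.of (l := RA b k) ?_ ?_ ?_ ?_ <;> revert b k <;> decide +kernel

theorem HP_RB (b lo : Bool) (k : ℕ) : HP (Ring b lo k : Multiset Cell) (10, 12) (11, 12) := by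
  unfold Ring
  rw [ringC_kred]
  generalize kred k = k
  refine HP.of (l := RB b lo k) ?_ ?_ ?_ ?_ <;> revert b lo k <;> decide +kernel

theorem HP_DnBig (lo : Bool) :
    HP ((Dn true : Multiset Cell) + (Ring true lo 1 : Multiset Cell)) (8, 11) (8, 0) := by
  refine HP.of (l := DnBig lo) ?_ ?_ ?_ ?_ <;> revert lo <;> decide +kernel

theorem HP_UpBig (lo : Bool) :
    HP ((Up false : Multiset Cell) + (Ring false lo 2 : Multiset Cell)) (14, 1) (15, 11) := by
  refine HP.of (l := UpBig lo) ?_ ?_ ?_ ?_ <;> revert lo <;> decide +kernel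

/-- The first part of the row. -/
def row1 : List Cell := [(9, 0), (10, 0)]

/-- The second part of the row. -/
def row2 : List Cell := [(11, 0), (12, 0), (13, 0), (14, 0)]

theorem HP_row1 : HP (row1 : Multiset Cell) (9, 0) (10, 0) := by
  refine HP.of rfl ?_ ?_ ?_ <;> decide +kernel

theorem HP_row2 : HP (row2 : Multiset Cell) (11, 0) (14, 0) := by
  refine HP.of rfl ?_ ?_ ?_ <;> decide +kernel

theorem tile_eq (b lo : Bool) (k : ℕ) :
    (Dn b : Multiset Cell) + (row1 : Multiset Cell) + (row2 : Multiset Cell) + (Up b : Multiset Cell)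
      + (Ring b lo k : Multiset Cell) + tm 8 0 (El b : Multiset Cell) =
    tm 8 0 (tileC lo k : Multiset Cell) + (El b : Multiset Cell) := by
  unfold Ring
  rw [ringC_kred, tileC_kred]
  generalize kred k = k
  revert b lo k
  decide +kernel

/-- The ring of the clause `j` in the band below `i`, if it is still to be covered. -/
def Pend (lit : ℕ → ℕ → ℕ) (x : ℕ → Bool) (s : ℕ → ℕ) (i j : ℕ) : Multiset Cell :=
  match i with
  | 0 => 0
  | i + 1 => if i < s j then
      tm (8 * j) (13 * i) (Ring (x i) (decide (0 < i)) (lit i j) : Multiset Cell) else 0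

/-- the row of a node, with its detour -/
theorem HP_rows {lit : ℕ → ℕ → ℕ} {x : ℕ → Bool} {s : ℕ → ℕ} (i j : ℕ) :
    ∃ M, HP M (8 * j + 9, 13 * i) (8 * j + 14, 13 * i) ∧
      M = tm (8 * j) (13 * i) ((row1 : Multiset Cell) + (row2 : Multiset Cell)) +
        Pend lit x s i j +
        (if s j < i then tm (8 * j) (13 * i) (Ring (x i) (decide (0 < i)) (lit i j) : Multiset Cell)
          else 0) := by
  have h1 := HP_row1.tm (8 * j) (13 * i)
  have h2 := HP_row2.tm (8 * j) (13 * i)
  simp only [Nat.add_zero] at h1 h2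
  refine ⟨_, ?_, rfl⟩
  rcases i with _ | i
  · simp only [Pend, Nat.not_lt_zero, if_false, add_zero, tm_add]
    exact h1.append h2 (uadj_of (by omega))
  · simp only [Pend]
    by_cases hs : i < s j
    · rw [if_pos hs, if_neg (by omega)]
      have h3 := (HP_RB (x i) (decide (0 < i)) (lit i j)).tm (8 * j) (13 * i)
      have h4 := (h1.append h3 (uadj_of (by omega))).append h2
        (uadj_of (by omega))
      convert h4 using 1
      rw [tm_add]
      abel
    · rw [if_neg hs]
      by_cases hs2 : s j < i + 1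
      · rw [if_pos hs2]
        have h3 := (HP_RA (x (i + 1)) (lit (i + 1) j)).tm (8 * j) (13 * (i + 1))
        have h4 := (h1.append h3 (uadj_of (by omega))).append h2
          (uadj_of (by omega))
        have h5 : decide (0 < i + 1) = true := by simp
        rw [h5]
        convert h4 using 1
        rw [tm_add]
        abel
      · exact absurd (by omega : s j < i + 1) hs2

/-- a clause tile -/
theorem HP_clause {lit : ℕ → ℕ → ℕ} {x : ℕ → Bool} {s : ℕ → ℕ} (i j : ℕ)
    (hs : i = s j → (lit i j = 1 ∧ x i = true) ∨ (lit i j = 2 ∧ x i = false)) :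
    ∃ M, HP M (8 * j + 8, 13 * i + 11) (8 * j + 15, 13 * i + 11) ∧
      M + Pend lit x s (i + 1) j + tm (8 * j + 8) (13 * i) (El (x i) : Multiset Cell) =
        (tr (8 * (j + 1)) (13 * i) (tileC (decide (0 < i)) (lit i j)) : Multiset Cell) +
          Pend lit x s i j + tm (8 * j) (13 * i) (El (x i) : Multiset Cell) := by
  obtain ⟨M0, h0, hM0⟩ := HP_rows (lit := lit) (x := x) (s := s) i j
  have hD := (HP_Dn (x i)).tm (8 * j) (13 * i)
  have hU := (HP_Up (x i)).tm (8 * j) (13 * i)
  have ht := congrArg (tm (8 * j) (13 * i)) (tile_eq (x i) (decide (0 < i)) (lit i j))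
  simp only [tm_add, tm_tm, Nat.add_zero] at ht
  rw [coe_tr, show 8 * (j + 1) = 8 * j + 8 by ring]
  have hP : Pend lit x s (i + 1) j = if i < s j then
      tm (8 * j) (13 * i) (Ring (x i) (decide (0 < i)) (lit i j) : Multiset Cell) else 0 := rfl
  have key := congrArg (fun a : Multiset Cell => a + Pend lit x s i j) ht
  rcases lt_trichotomy i (s j) with hlt | heq | hgt
  · refine ⟨_, (hD.append h0 (uadj_of (by omega))).append hU (uadj_of (by omega)), ?_⟩
    rw [hM0, hP, if_neg (by omega : ¬ s j < i), if_pos hlt, tm_add]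
    convert key using 1 <;> abel
  · rcases hs heq with ⟨hl, hx⟩ | ⟨hl, hx⟩
    · have hB := (HP_DnBig (decide (0 < i))).tm (8 * j) (13 * i)
      refine ⟨_, (hB.append h0 (uadj_of (by omega))).append hU (uadj_of (by omega)), ?_⟩
      rw [hM0, hP, if_neg (by omega : ¬ s j < i), if_neg (by omega : ¬ i < s j), tm_add, tm_add]
      rw [hx, hl] at key
      rw [hx, hl]
      convert key using 1 <;> abel
    · have hB := (HP_UpBig (decide (0 < i))).tm (8 * j) (13 * i)
      refine ⟨_, (hD.append h0 (uadj_of (by omega))).append hB (uadj_of (by omega)), ?_⟩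
      rw [hM0, hP, if_neg (by omega : ¬ s j < i), if_neg (by omega : ¬ i < s j), tm_add, tm_add]
      rw [hx, hl] at key
      rw [hx, hl]
      convert key using 1 <;> abel
  · refine ⟨_, (hD.append h0 (uadj_of (by omega))).append hU (uadj_of (by omega)), ?_⟩
    rw [hM0, hP, if_pos hgt, if_neg (by omega : ¬ i < s j), tm_add]
    convert key using 1 <;> abel

/-- The left piece of a band. -/
def Lp (b : Bool) : List Cell :=
  if b then vr 6 0 5 ++ [(7, 4), (7, 5), (6, 5), (6, 6), (7, 6), (7, 7), (6, 7), (6, 8), (7, 8),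
    (7, 9), (6, 9), (6, 10), (6, 11), (7, 11)]
  else vr 6 0 12 ++ [(7, 11)]

/-- The right piece of a band. -/
def Rp (b : Bool) : List Cell :=
  if b then vd 8 0 12
  else [(8, 11), (8, 10), (8, 9), (7, 9), (7, 8), (8, 8), (8, 7), (7, 7), (7, 6), (8, 6), (8, 5),
    (7, 5), (7, 4), (8, 4), (8, 3), (8, 2), (8, 1), (8, 0)]

/-- The cells of the left end that every band path uses. -/
def LC : List Cell := vr 6 0 12 ++ vr 7 4 6 ++ [(7, 11)]

theorem HP_Lp (b : Bool) : HP (Lp b : Multiset Cell) (6, 0) (7, 11) := by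
  refine HP.of rfl ?_ ?_ ?_ <;> revert b <;> decide +kernel

theorem HP_Rp (b : Bool) : HP (Rp b : Multiset Cell) (8, 11) (8, 0) := by
  refine HP.of rfl ?_ ?_ ?_ <;> revert b <;> decide +kernel

theorem Lp_eq (b : Bool) : (Lp b : Multiset Cell) + (El b : Multiset Cell) =
    (LC : Multiset Cell) := by
  revert b
  decide +kernel

theorem Rp_eq (b : Bool) : (Rp b : Multiset Cell) =
    tm 8 0 (vr 0 0 12 : Multiset Cell) + (El b : Multiset Cell) := by
  revert b
  decide +kernel

/-- The cells of the clause tiles of a band. -/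
def midC (m : ℕ) (lit : ℕ → ℕ → ℕ) (i : ℕ) : Multiset Cell :=
  (((List.range m).flatMap
    (fun j => tr (8 * (j + 1)) (13 * i) (tileC (decide (0 < i)) (lit i j))) : List Cell) :
    Multiset Cell)

theorem midC_succ (m : ℕ) (lit : ℕ → ℕ → ℕ) (i : ℕ) : midC (m + 1) lit i = midC m lit i +
    (tr (8 * (m + 1)) (13 * i) (tileC (decide (0 < i)) (lit i m)) : Multiset Cell) := by
  unfold midC
  rw [List.range_succ, List.flatMap_append, List.flatMap_singleton]
  rfl

/-- The pending rings below the band `i`. -/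
def PendS (m : ℕ) (lit : ℕ → ℕ → ℕ) (x : ℕ → Bool) (s : ℕ → ℕ) (i : ℕ) : Multiset Cell :=
  ∑ j ∈ Finset.range m, Pend lit x s i j

/-- a band up to the clause `j` -/
theorem HP_mid {lit : ℕ → ℕ → ℕ} {x : ℕ → Bool} {s : ℕ → ℕ} (i : ℕ) : ∀ m : ℕ,
    (∀ j < m, i = s j → (lit i j = 1 ∧ x i = true) ∨ (lit i j = 2 ∧ x i = false)) →
    ∃ M, HP M (6, 13 * i) (8 * m + 7, 13 * i + 11) ∧
      M + PendS m lit x s (i + 1) + tm (8 * m) (13 * i) (El (x i) : Multiset Cell) =
        tm 0 (13 * i) (LC : Multiset Cell) + midC m lit i + PendS m lit x s i := by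
  intro m
  induction m with
  | zero =>
    intro _
    have h := (HP_Lp (x i)).tm 0 (13 * i)
    simp only [Nat.zero_add, Nat.add_zero] at h
    refine ⟨_, h, ?_⟩
    have h2 := congrArg (tm 0 (13 * i)) (Lp_eq (x i))
    rw [tm_add] at h2
    simp only [PendS, Finset.range_zero, Finset.sum_empty, midC, List.range_zero,
      List.flatMap_nil, Multiset.coe_nil, add_zero, Nat.mul_zero]
    exact h2
  | succ m ih =>
    intro hs
    obtain ⟨M, hM, hE⟩ := ih fun j hj => hs j (by omega)
    obtain ⟨M', hM', hE'⟩ := HP_clause (lit := lit) (x := x) (s := s) i m (hs m (by omega))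
    refine ⟨_, hM.append hM' (uadj_of (by omega)), ?_⟩
    rw [midC_succ]
    unfold PendS at hE ⊢
    rw [Finset.sum_range_succ, Finset.sum_range_succ]
    rw [show 8 * (m + 1) = 8 * m + 8 by ring] at *
    have key := congrArg₂ (fun a b : Multiset Cell => a + b) hE hE'
    apply add_right_cancel (b := tm (8 * m) (13 * i) (El (x i) : Multiset Cell))
    convert key using 1 <;> abel

/-- a whole band -/
theorem HP_band {lit : ℕ → ℕ → ℕ} {x : ℕ → Bool} {s : ℕ → ℕ} (i m : ℕ)
    (hs : ∀ j < m, i = s j → (lit i j = 1 ∧ x i = true) ∨ (lit i j = 2 ∧ x i = false)) :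
    ∃ M, HP M (6, 13 * i) (8 * m + 8, 13 * i) ∧
      M + PendS m lit x s (i + 1) =
        tm 0 (13 * i) (LC : Multiset Cell) + midC m lit i +
          tm (8 * (m + 1)) (13 * i) (vr 0 0 12 : Multiset Cell) + PendS m lit x s i := by
  obtain ⟨M, hM, hE⟩ := HP_mid (lit := lit) (x := x) (s := s) i m hs
  have h := (HP_Rp (x i)).tm (8 * m) (13 * i)
  refine ⟨_, hM.append h (uadj_of (by omega)), ?_⟩
  have h2 := congrArg (tm (8 * m) (13 * i)) (Rp_eq (x i))
  rw [tm_add, tm_tm, Nat.add_zero] at h2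
  rw [h2, show 8 * (m + 1) = 8 * m + 8 by ring]
  have key := congrArg (fun a : Multiset Cell =>
    a + tm (8 * m + 8) (13 * i) (vr 0 0 12 : Multiset Cell)) hE
  convert key using 1 <;> abel

/-- The multiset of a band. -/
theorem bandC_eq (m : ℕ) (lit : ℕ → ℕ → ℕ) (i : ℕ) : (bandC m lit i : Multiset Cell) =
    tm 0 (13 * i) (LC : Multiset Cell) + midC m lit i +
      tm (8 * (m + 1)) (13 * i) (vr 0 0 12 : Multiset Cell) +
      (if i % 2 = 0 then tm 0 (13 * i) (([(4, 0), (5, 0)] : List Cell) : Multiset Cell) +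
        tm (8 * (m + 1)) (13 * i) (((1, 0) :: vr 2 0 13 : List Cell) : Multiset Cell)
      else tm 0 (13 * i) (((5, 0) :: vr 4 0 13 : List Cell) : Multiset Cell) +
        tm (8 * (m + 1)) (13 * i) (([(1, 0), (2, 0)] : List Cell) : Multiset Cell)) := by
  unfold bandC midC
  rw [← Multiset.coe_add, ← Multiset.coe_add, coe_tr, coe_tr]
  have hL : ∀ ev : Bool, (tileL ev : Multiset Cell) = (LC : Multiset Cell) +
      ((if ev then [(4, 0), (5, 0)] else (5, 0) :: vr 4 0 13 : List Cell) : Multiset Cell) := by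
    decide +kernel
  have hR : ∀ ev : Bool, (tileR ev : Multiset Cell) = (vr 0 0 12 : Multiset Cell) +
      ((if ev then (1, 0) :: vr 2 0 13 else [(1, 0), (2, 0)] : List Cell) : Multiset Cell) := by
    decide +kernel
  rw [hL, hR, tm_add, tm_add]
  by_cases h : i % 2 = 0
  · simp only [h, decide_true, if_true]
    abel
  · simp only [h, decide_false, if_false]
    simp only [Bool.false_eq_true, if_false]
    abel

/-- an even band -/
theorem HP_even {lit : ℕ → ℕ → ℕ} {x : ℕ → Bool} {s : ℕ → ℕ} (i m : ℕ) (hi : i % 2 = 0)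
    (hs : ∀ j < m, i = s j → (lit i j = 1 ∧ x i = true) ∨ (lit i j = 2 ∧ x i = false)) :
    ∃ M, HP M (4, 13 * i) (8 * m + 10, 13 * i + 12) ∧
      M + PendS m lit x s (i + 1) = (bandC m lit i : Multiset Cell) + PendS m lit x s i := by
  obtain ⟨M, hM, hE⟩ := HP_band (lit := lit) (x := x) (s := s) i m hs
  have h1 : HP (([(4, 0), (5, 0)] : List Cell) : Multiset Cell) (4, 0) (5, 0) := by
    refine HP.of rfl ?_ ?_ ?_ <;> decide +kernel
  have h2 : HP (((1, 0) :: vr 2 0 13 : List Cell) : Multiset Cell) (1, 0) (2, 12) := by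
    refine HP.of rfl ?_ ?_ ?_ <;> decide +kernel
  have h1 := h1.tm 0 (13 * i)
  have h2 := h2.tm (8 * (m + 1)) (13 * i)
  have h3 := (h1.append hM (uadj_of (by omega))).append h2 (uadj_of (by omega))
  simp only [Nat.zero_add, Nat.add_zero] at h3
  refine ⟨_, h3, ?_⟩
  rw [bandC_eq, if_pos hi]
  have key := congrArg (fun a : Multiset Cell => a + tm 0 (13 * i) (([(4, 0), (5, 0)] : List Cell) :
    Multiset Cell) + tm (8 * (m + 1)) (13 * i) (((1, 0) :: vr 2 0 13 : List Cell) : Multiset Cell)) hE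
  convert key using 1 <;> abel

/-- an odd band -/
theorem HP_odd {lit : ℕ → ℕ → ℕ} {x : ℕ → Bool} {s : ℕ → ℕ} (i m : ℕ) (hi : i % 2 = 1)
    (hs : ∀ j < m, i = s j → (lit i j = 1 ∧ x i = true) ∨ (lit i j = 2 ∧ x i = false)) :
    ∃ M, HP M (8 * m + 10, 13 * i) (4, 13 * i + 12) ∧
      M + PendS m lit x s (i + 1) = (bandC m lit i : Multiset Cell) + PendS m lit x s i := by
  obtain ⟨M, hM, hE⟩ := HP_band (lit := lit) (x := x) (s := s) i m hs
  have h1 : HP (((5, 0) :: vr 4 0 13 : List Cell) : Multiset Cell) (5, 0) (4, 12) := by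
    refine HP.of rfl ?_ ?_ ?_ <;> decide +kernel
  have h2 : HP (([(1, 0), (2, 0)] : List Cell) : Multiset Cell) (1, 0) (2, 0) := by
    refine HP.of rfl ?_ ?_ ?_ <;> decide +kernel
  have h1 := h1.tm 0 (13 * i)
  have h2 := (h2.tm (8 * (m + 1)) (13 * i)).reverse
  have h3 := (h2.append hM.reverse (uadj_of (by omega))).append h1 (uadj_of (by omega))
  simp only [Nat.zero_add, Nat.add_zero] at h3
  refine ⟨_, h3, ?_⟩
  rw [bandC_eq, if_neg (by omega)]
  have key := congrArg (fun a : Multiset Cell => a + tm 0 (13 * i) (((5, 0) :: vr 4 0 13 : List Cell) :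
    Multiset Cell) + tm (8 * (m + 1)) (13 * i) (([(1, 0), (2, 0)] : List Cell) : Multiset Cell)) hE
  convert key using 1 <;> abel

theorem gridC_succ (m n : ℕ) (lit : ℕ → ℕ → ℕ) : (gridC m (n + 1) lit : Multiset Cell) =
    (gridC m n lit : Multiset Cell) + (bandC m lit n : Multiset Cell) := by
  unfold gridC
  rw [List.range_succ, List.flatMap_append, List.flatMap_singleton, ← List.append_assoc]
  rfl

/-- all bands -/
theorem HP_grid {lit : ℕ → ℕ → ℕ} {x : ℕ → Bool} {s : ℕ → ℕ} (m : ℕ) : ∀ K : ℕ,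
    (∀ j < m, ∀ i < 2 * K + 1, i = s j →
      (lit i j = 1 ∧ x i = true) ∨ (lit i j = 2 ∧ x i = false)) →
    ∃ M, HP M (0, 0) (8 * m + 10, 26 * K + 12) ∧
      M + PendS m lit x s (2 * K + 1) = (gridC m (2 * K + 1) lit : Multiset Cell) := by
  intro K
  induction K with
  | zero =>
    intro hs
    obtain ⟨M, hM, hE⟩ := HP_even (lit := lit) (x := x) (s := s) 0 m rfl
      (fun j hj => hs j hj 0 (by omega))
    have h0 : HP (hr 0 0 4 : Multiset Cell) (0, 0) (3, 0) := by
      refine HP.of rfl ?_ ?_ ?_ <;> decide +kernel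
    refine ⟨_, h0.append hM (uadj_of (by omega)), ?_⟩
    have e0 : PendS m lit x s 0 = 0 := by
      unfold PendS
      exact Finset.sum_eq_zero fun j _ => rfl
    rw [e0, add_zero] at hE
    rw [Nat.mul_zero, gridC_succ, ← hE]
    have e1 : (gridC m 0 lit : Multiset Cell) = (hr 0 0 4 : Multiset Cell) := by
      simp [gridC]
    rw [e1]
    abel
  | succ K ih =>
    intro hs
    obtain ⟨M, hM, hE⟩ := ih fun j hj i hi => hs j hj i (by omega)
    obtain ⟨M1, hM1, hE1⟩ := HP_odd (lit := lit) (x := x) (s := s) (2 * K + 1) m (by omega)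
      (fun j hj => hs j hj _ (by omega))
    obtain ⟨M2, hM2, hE2⟩ := HP_even (lit := lit) (x := x) (s := s) (2 * K + 1 + 1) m (by omega)
      (fun j hj => hs j hj _ (by omega))
    have h3 := (hM.append hM1 (uadj_of (by omega))).append hM2 (uadj_of (by omega))
    rw [show 26 * (K + 1) + 12 = 13 * (2 * K + 1 + 1) + 12 by ring]
    refine ⟨_, h3, ?_⟩
    rw [show 2 * (K + 1) + 1 = 2 * K + 1 + 1 + 1 by ring, gridC_succ, gridC_succ, ← hE]
    apply add_right_cancel (b := PendS m lit x s (2 * K + 1) + PendS m lit x s (2 * K + 1 + 1))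
    have key := congrArg₂ (fun a b : Multiset Cell => a + b + M + PendS m lit x s (2 * K + 1))
      hE1 hE2
    convert key using 1 <;> abel

/-- **A satisfying assignment gives a Hamiltonian path.** -/
theorem grid_if {m N : ℕ} (hm : 0 < m) (lit : ℕ → ℕ → ℕ) (x : ℕ → Bool)
    (hx : ∀ j < m, ∃ i < 2 * N + 1, (lit i j = 1 ∧ x i = true) ∨ (lit i j = 2 ∧ x i = false)) :
    HamPath (gridC m (2 * N + 1) lit) (0, 0) (8 * m + 10, 26 * N + 12) := by
  classical
  choose s0 hs0 using hx
  set s : ℕ → ℕ := fun j => if h : j < m then s0 j h else 0 with hsd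
  have hs1 : ∀ j < m, s j < 2 * N + 1 ∧
      ((lit (s j) j = 1 ∧ x (s j) = true) ∨ (lit (s j) j = 2 ∧ x (s j) = false)) := by
    intro j hj
    have : s j = s0 j hj := by simp [hsd, hj]
    rw [this]
    exact hs0 j hj
  obtain ⟨M, hM, hE⟩ := HP_grid (lit := lit) (x := x) (s := s) m N (by
    intro j hj i hi his
    rw [his]
    exact (hs1 j hj).2)
  have e0 : PendS m lit x s (2 * N + 1) = 0 := by
    unfold PendS
    refine Finset.sum_eq_zero fun j hj => ?_
    have := (hs1 j (Finset.mem_range.1 hj)).1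
    unfold Pend
    simp only
    rw [if_neg (by omega)]
  rw [e0, add_zero] at hE
  obtain ⟨l, hl, hc, ha, hb⟩ := hM
  exact ⟨l, Multiset.coe_eq_coe.1 (hl.trans hE), hc, ha, hb⟩

end Pool.Agent.R539
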