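import Pool.Agent.R539.PS.SDefs
import Pool.Agent.R539.PS.CR

/-!
# The no case, part one: geometry of the tiles
-/

namespace Pool.Agent.R539

namespace T5

open Pool.Agent.NPC

/-- The cell `p` in the copy number `c` of a tile with offsets `x`, `y`. -/
def cp (w h x y c : ℕ) (p : Cell) : Cell :=
  if c = 0 then (x + 1 + p.1, y + 1 + p.2)
  else if c = 1 then (x + 1 + (w + 2) + p.2, y + 1 + h + p.1)
  else if c = 2 then (x + 1 + (w + h + 4) + p.1, y + 1 + (w + h) + p.2)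
  else (x + 1 + (w + h + 4) + (w + 2) + p.2, y + 1 + (w + h) + h + p.1)

theorem mem_vr {a b k : ℕ} {d : Cell} : d ∈ vr a b k ↔ d.1 = a ∧ b ≤ d.2 ∧ d.2 < b + k := by
  unfold vr
  simp only [List.mem_map, List.mem_range]
  constructor
  · rintro ⟨t, ht, rfl⟩
    exact ⟨rfl, by simp, by simpa using ht⟩
  · rintro ⟨h1, h2, h3⟩
    exact ⟨d.2 - b, by omega, by ext <;> simp <;> omega⟩

theorem mem_hr {a b k : ℕ} {d : Cell} : d ∈ hr a b k ↔ d.2 = b ∧ a ≤ d.1 ∧ d.1 < a + k := by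
  unfold hr
  simp only [List.mem_map, List.mem_range]
  constructor
  · rintro ⟨t, ht, rfl⟩
    exact ⟨rfl, by simp, by simpa using ht⟩
  · rintro ⟨h1, h2, h3⟩
    exact ⟨d.1 - a, by omega, by ext <;> simp <;> omega⟩

theorem mem_tr {x y : ℕ} {l : List Cell} {d : Cell} :
    d ∈ tr x y l ↔ ∃ p ∈ l, d = (x + p.1, y + p.2) := by
  unfold tr
  simp only [List.mem_map]
  constructor
  · rintro ⟨p, hp, rfl⟩; exact ⟨p, hp, rfl⟩
  · rintro ⟨p, hp, rfl⟩; exact ⟨p, hp, rfl⟩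

theorem mem_pairL {w h : ℕ} {q : List Cell} {d : Cell} :
    d ∈ pairL w h q ↔ d ∈ q ∨ d = (w + 1, h) ∨ (∃ p ∈ q, d = (w + 2 + p.2, h + p.1)) ∨
      d = (w + h + 3, w + h) := by
  unfold pairL
  simp only [List.mem_append, List.mem_singleton, mem_tr, List.mem_map]
  constructor
  · rintro (((h1 | h1) | ⟨p, ⟨p', hp', rfl⟩, rfl⟩) | h1)
    · exact Or.inl h1
    · exact Or.inr (Or.inl h1)
    · exact Or.inr (Or.inr (Or.inl ⟨p', hp', rfl⟩))
    · exact Or.inr (Or.inr (Or.inr h1))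
  · rintro (h1 | h1 | ⟨p, hp, rfl⟩ | h1)
    · exact Or.inl (Or.inl (Or.inl h1))
    · exact Or.inl (Or.inl (Or.inr h1))
    · exact Or.inl (Or.inr ⟨p.swap, ⟨p, hp, rfl⟩, rfl⟩)
    · exact Or.inr h1

theorem cp_mem_tileT {w h W : ℕ} {q : List Cell} {x y c : ℕ} {p : Cell} (hp : p ∈ q) :
    cp w h x y c p ∈ tileT w h W q x y := by
  unfold tileT
  simp only [List.mem_append]
  refine Or.inl (Or.inl (Or.inr ?_))
  rw [mem_tr]
  unfold cp gadL
  split_ifs
  · refine ⟨p, ?_, rfl⟩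
    simp only [List.mem_append]
    exact Or.inl (Or.inl (mem_pairL.mpr (Or.inl hp)))
  · refine ⟨(w + 2 + p.2, h + p.1), ?_, by ext <;> simp <;> omega⟩
    simp only [List.mem_append]
    exact Or.inl (Or.inl (mem_pairL.mpr (Or.inr (Or.inr (Or.inl ⟨p, hp, rfl⟩)))))
  · refine ⟨(w + h + 4 + p.1, w + h + p.2), ?_, by ext <;> simp <;> omega⟩
    simp only [List.mem_append]
    exact Or.inl (Or.inr (mem_tr.mpr ⟨p, mem_pairL.mpr (Or.inl hp), rfl⟩))
  · refine ⟨(w + h + 4 + (w + 2 + p.2), w + h + (h + p.1)), ?_, by ext <;> simp <;> omega⟩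
    simp only [List.mem_append]
    exact Or.inl (Or.inr (mem_tr.mpr ⟨(w + 2 + p.2, h + p.1),
      mem_pairL.mpr (Or.inr (Or.inr (Or.inl ⟨p, hp, rfl⟩))), rfl⟩))

theorem mem_tileT {w h W : ℕ} {q : List Cell} {x y : ℕ} {d : Cell} (hd : d ∈ tileT w h W q x y) :
    (d.1 = 0 ∧ d.2 < y + 2) ∨ (d.2 = y + 1 ∧ 1 ≤ d.1 ∧ d.1 < 1 + x) ∨
    (∃ c < 4, ∃ p ∈ q, d = cp w h x y c p) ∨
    (d.1 = x + 1 + (w + 1) ∧ d.2 = y + 1 + h) ∨
    (d.1 = x + 1 + (w + h + 3) ∧ d.2 = y + 1 + (w + h)) ∨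
    (d.1 = x + 1 + (w + h + 4) + (w + 1) ∧ d.2 = y + 1 + (w + h) + h) ∨
    (d.1 = x + 1 + (w + h + 4) + (w + h + 3) ∧ d.2 = y + 1 + 2 * (w + h)) ∨
    (d.1 = x + 1 + 2 * (w + h + 4) ∧ d.2 = y + 1 + 2 * (w + h)) ∨
    (d.1 = x + 1 + 2 * (w + h + 4) ∧ y + 2 + 2 * (w + h) ≤ d.2 ∧
      d.2 < y + 2 + 2 * (w + h) + (W - (y + 2 + 2 * (w + h)))) ∨
    (d.2 = W - 1 ∧ x + 2 + 2 * (w + h + 4) ≤ d.1 ∧
      d.1 < x + 2 + 2 * (w + h + 4) + (W - (x + 2 + 2 * (w + h + 4)))) := by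
  unfold tileT at hd
  simp only [List.mem_append] at hd
  rcases hd with (((h1 | h1) | h1) | h1) | h1
  · rw [mem_vr] at h1; left; omega
  · rw [mem_hr] at h1; right; left; omega
  · rw [mem_tr] at h1
    obtain ⟨g, hg, rfl⟩ := h1
    unfold gadL at hg
    simp only [List.mem_append, List.mem_singleton] at hg
    rcases hg with (h2 | h2) | h2
    · rw [mem_pairL] at h2
      rcases h2 with h3 | h3 | ⟨p, hp, h3⟩ | h3
      · right; right; left
        exact ⟨0, by norm_num, g, h3, rfl⟩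
      · subst h3
        right; right; right; left
        exact ⟨rfl, rfl⟩
      · subst h3
        right; right; left
        exact ⟨1, by norm_num, p, hp, by unfold cp; ext <;> simp <;> omega⟩
      · subst h3
        right; right; right; right; left
        exact ⟨rfl, rfl⟩
    · rw [mem_tr] at h2
      obtain ⟨g', hg', rfl⟩ := h2
      rw [mem_pairL] at hg'
      rcases hg' with h3 | h3 | ⟨p, hp, h3⟩ | h3
      · right; right; left
        exact ⟨2, by norm_num, g', h3, by unfold cp; ext <;> simp <;> omega⟩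
      · subst h3
        right; right; right; right; right; left
        exact ⟨by simp; omega, by simp; omega⟩
      · subst h3
        right; right; left
        exact ⟨3, by norm_num, p, hp, by unfold cp; ext <;> simp <;> omega⟩
      · subst h3
        right; right; right; right; right; right; left
        exact ⟨by simp; omega, by simp; omega⟩
    · subst h2
      right; right; right; right; right; right; right; left
      exact ⟨rfl, rfl⟩
  · rw [mem_vr] at h1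
    right; right; right; right; right; right; right; right; left
    exact h1
  · rw [mem_hr] at h1
    right; right; right; right; right; right; right; right; right
    exact h1

theorem cp_inj {w h x y c : ℕ} {p p' : Cell} (hpp : cp w h x y c p = cp w h x y c p') :
    p = p' := by
  unfold cp at hpp
  split_ifs at hpp <;> simp only [Prod.mk.injEq] at hpp <;> ext <;> omega

theorem cp_adj {w h x y c : ℕ} {p p' : Cell} :
    UAdj (cp w h x y c p) (cp w h x y c p') ↔ UAdj p p' := by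
  unfold cp UAdj
  split_ifs <;> simp only <;> omega

/-- isolation of the copies in a tile -/
theorem isol {w h W : ℕ} {q : List Cell} (hbox : ∀ p ∈ q, p.1 ≤ w ∧ p.2 ≤ h)
    {x y c : ℕ} (hc : c < 4) {p : Cell} (hp : p ∈ q) {d : Cell}
    (hd : d ∈ tileT w h W q x y) (hadj : UAdj (cp w h x y c p) d) :
    (∃ p' ∈ q, d = cp w h x y c p') ∨
    (p = (0, 0) ∧ d = ((cp w h x y c (0, 0)).1 - 1, (cp w h x y c (0, 0)).2)) ∨
    (p = (w, h) ∧ d = ((cp w h x y c (w, h)).1 + 1, (cp w h x y c (w, h)).2)) := by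
  obtain ⟨hp1, hp2⟩ := hbox p hp
  obtain ⟨p1, p2⟩ := p
  obtain ⟨d1, d2⟩ := d
  simp only at hp1 hp2
  rcases mem_tileT hd with h1 | h1 | ⟨c', hc', p', hp', h1⟩ | h1 | h1 | h1 | h1 | h1 | h1 | h1
  · simp only at h1
    right; left
    obtain rfl | rfl | rfl | rfl : c = 0 ∨ c = 1 ∨ c = 2 ∨ c = 3 := by omega
    all_goals simp [cp, UAdj] at hadj ⊢; omega
  · simp only at h1
    right; left
    obtain rfl | rfl | rfl | rfl : c = 0 ∨ c = 1 ∨ c = 2 ∨ c = 3 := by omega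
    all_goals simp [cp, UAdj] at hadj ⊢; omega
  · by_cases hcc : c' = c
    · subst hcc; exact Or.inl ⟨p', hp', h1⟩
    · exfalso
      obtain ⟨hp1', hp2'⟩ := hbox p' hp'
      obtain rfl | rfl | rfl | rfl : c = 0 ∨ c = 1 ∨ c = 2 ∨ c = 3 := by omega
      all_goals
        obtain rfl | rfl | rfl | rfl : c' = 0 ∨ c' = 1 ∨ c' = 2 ∨ c' = 3 := by omega
      all_goals simp [cp, UAdj] at hadj h1 hcc ⊢
      all_goals omega
  · simp only at h1
    obtain rfl | rfl | rfl | rfl : c = 0 ∨ c = 1 ∨ c = 2 ∨ c = 3 := by omega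
    · right; right; simp [cp, UAdj] at hadj ⊢; omega
    · right; left; simp [cp, UAdj] at hadj ⊢; omega
    · right; left; simp [cp, UAdj] at hadj ⊢; omega
    · right; left; simp [cp, UAdj] at hadj ⊢; omega
  · simp only at h1
    obtain rfl | rfl | rfl | rfl : c = 0 ∨ c = 1 ∨ c = 2 ∨ c = 3 := by omega
    · right; right; simp [cp, UAdj] at hadj ⊢; omega
    · right; right; simp [cp, UAdj] at hadj ⊢; omega
    · right; left; simp [cp, UAdj] at hadj ⊢; omega
    · right; left; simp [cp, UAdj] at hadj ⊢; omega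
  · simp only at h1
    obtain rfl | rfl | rfl | rfl : c = 0 ∨ c = 1 ∨ c = 2 ∨ c = 3 := by omega
    · right; right; simp [cp, UAdj] at hadj ⊢; omega
    · right; right; simp [cp, UAdj] at hadj ⊢; omega
    · right; right; simp [cp, UAdj] at hadj ⊢; omega
    · right; left; simp [cp, UAdj] at hadj ⊢; omega
  · simp only at h1
    obtain rfl | rfl | rfl | rfl : c = 0 ∨ c = 1 ∨ c = 2 ∨ c = 3 := by omega
    all_goals right; right; simp [cp, UAdj] at hadj ⊢; omega
  · simp only at h1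
    obtain rfl | rfl | rfl | rfl : c = 0 ∨ c = 1 ∨ c = 2 ∨ c = 3 := by omega
    all_goals right; right; simp [cp, UAdj] at hadj ⊢; omega
  · simp only at h1
    obtain rfl | rfl | rfl | rfl : c = 0 ∨ c = 1 ∨ c = 2 ∨ c = 3 := by omega
    all_goals right; right; simp [cp, UAdj] at hadj ⊢; omega
  · simp only at h1
    obtain rfl | rfl | rfl | rfl : c = 0 ∨ c = 1 ∨ c = 2 ∨ c = 3 := by omega
    all_goals right; right; simp [cp, UAdj] at hadj ⊢; omega

theorem tileT_lt {w h W : ℕ} {q : List Cell} (hbox : ∀ p ∈ q, p.1 ≤ w ∧ p.2 ≤ h) {x y : ℕ}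
    (hx : x + 2 + 2 * (w + h + 4) ≤ W) (hy : y + 2 + 2 * (w + h) ≤ W) {d : Cell}
    (hd : d ∈ tileT w h W q x y) : d.1 < W ∧ d.2 < W := by
  rcases mem_tileT hd with h1 | h1 | ⟨c', hc', p', hp', h1⟩ | h1 | h1 | h1 | h1 | h1 | h1 | h1
  · omega
  · omega
  · obtain ⟨hp1', hp2'⟩ := hbox p' hp'
    subst h1
    obtain rfl | rfl | rfl | rfl : c' = 0 ∨ c' = 1 ∨ c' = 2 ∨ c' = 3 := by omega
    all_goals simp [cp]
    all_goals omega
  all_goals omega

theorem cp_inner {w h W : ℕ} {x y c : ℕ} {p : Cell} (hp : p.1 ≤ w ∧ p.2 ≤ h)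
    (hx : x + 2 + 2 * (w + h + 4) ≤ W) (hy : y + 3 + 2 * (w + h) ≤ W) :
    1 ≤ (cp w h x y c p).1 ∧ (cp w h x y c p).1 + 2 ≤ W ∧
    1 ≤ (cp w h x y c p).2 ∧ (cp w h x y c p).2 + 2 ≤ W := by
  unfold cp
  split_ifs <;> simp only <;> omega

theorem cp_disj {w h : ℕ} {x y c c' : ℕ} (hc : c < 4) (hc' : c' < 4) {p p' : Cell}
    (hp : p.1 ≤ w ∧ p.2 ≤ h) (hp' : p'.1 ≤ w ∧ p'.2 ≤ h)
    (he : cp w h x y c p = cp w h x y c' p') : c = c' := by
  unfold cp at he
  split_ifs at he <;> simp only [Prod.mk.injEq] at he <;> omega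

theorem tileT_length {w h W : ℕ} {q : List Cell} {x y : ℕ}
    (hx : x + 2 + 2 * (w + h + 4) ≤ W) (hy : y + 2 + 2 * (w + h) ≤ W) :
    (tileT w h W q x y).length + 4 * (w + h) + 5 = 2 * W + 4 * q.length := by
  unfold tileT gadL pairL vr hr tr
  simp only [List.length_append, List.length_map, List.length_range, List.length_cons,
    List.length_nil]
  omega

/-- reflection of the tiles in the odd columns -/
def rf (W i : ℕ) (t : Cell) : Cell := if i % 2 = 0 then t else (t.1, W - 1 - t.2)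

/-- rank cells -/
def glob (W i j : ℕ) (t : Cell) : Cell := (i * W + t.1, j * W + t.2)

theorem tileG_eq (w h B W : ℕ) (q : List Cell) (i j : ℕ) :
    tileG w h B W q i j = (tileT w h W q (ofs B j) (ofs B i)).map (rf W i) := by
  unfold tileG rf
  split_ifs with h1
  · simp
  · rfl

theorem rf_lt {W i : ℕ} {t : Cell} (ht : t.1 < W ∧ t.2 < W) :
    (rf W i t).1 < W ∧ (rf W i t).2 < W := by
  unfold rf; split_ifs
  · exact ht
  · exact ⟨ht.1, by simp only; omega⟩

theorem rf_inner {W i : ℕ} {t : Cell} (ht : 1 ≤ t.1 ∧ t.1 + 2 ≤ W ∧ 1 ≤ t.2 ∧ t.2 + 2 ≤ W) :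
    1 ≤ (rf W i t).1 ∧ (rf W i t).1 + 2 ≤ W ∧ 1 ≤ (rf W i t).2 ∧ (rf W i t).2 + 2 ≤ W := by
  unfold rf; split_ifs
  · exact ht
  · simp only; omega

theorem rf_inj {W i : ℕ} {t t' : Cell} (ht : t.2 < W) (ht' : t'.2 < W)
    (he : rf W i t = rf W i t') : t = t' := by
  unfold rf at he; split_ifs at he
  · exact he
  · simp only [Prod.mk.injEq] at he
    ext <;> omega

theorem rf_adj {W i : ℕ} {t t' : Cell} (ht : t.2 < W) (ht' : t'.2 < W) :
    UAdj (rf W i t) (rf W i t') ↔ UAdj t t' := by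
  unfold rf UAdj; split_ifs
  · rfl
  · simp only; omega

theorem glob_adj {W i j : ℕ} {t t' : Cell} : UAdj (glob W i j t) (glob W i j t') ↔ UAdj t t' := by
  unfold glob UAdj; simp only; omega

theorem glob_inj {W i j : ℕ} {t t' : Cell} (he : glob W i j t = glob W i j t') : t = t' := by
  unfold glob at he; simp only [Prod.mk.injEq] at he
  ext <;> omega

theorem block_eq {W i i' t t' : ℕ} (ht : t < W) (ht' : t' < W) (he : i * W + t = i' * W + t') :
    i = i' := by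
  have h1 : (i * W + t) / W = i := by
    rw [Nat.add_comm, Nat.add_mul_div_right _ _ (by omega), Nat.div_eq_of_lt ht, Nat.zero_add]
  have h2 : (i' * W + t') / W = i' := by
    rw [Nat.add_comm, Nat.add_mul_div_right _ _ (by omega), Nat.div_eq_of_lt ht', Nat.zero_add]
  rw [← h1, he, h2]

theorem block_near {W i i' t t' : ℕ} (ht : 1 ≤ t ∧ t + 2 ≤ W) (ht' : t' < W)
    (he : i * W + t = i' * W + t' ∨ i * W + t = i' * W + t' + 1 ∨ i' * W + t' = i * W + t + 1) :
    i = i' := by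
  rcases he with h1 | h1 | h1
  · exact block_eq (by omega) ht' h1
  · obtain ⟨s, rfl⟩ : ∃ s, t = s + 1 := ⟨t - 1, by omega⟩
    exact block_eq (by omega : s < W) ht' (by omega)
  · exact block_eq (by omega : t + 1 < W) ht' (by omega)

theorem glob_near {W i j i' j' : ℕ} {t t' : Cell}
    (ht : 1 ≤ t.1 ∧ t.1 + 2 ≤ W ∧ 1 ≤ t.2 ∧ t.2 + 2 ≤ W) (ht' : t'.1 < W ∧ t'.2 < W)
    (he : UAdj (glob W i j t) (glob W i' j' t')) : i = i' ∧ j = j' := by
  unfold UAdj glob at he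
  simp only at he
  constructor
  · exact block_near ⟨ht.1, ht.2.1⟩ ht'.1 (by omega)
  · exact block_near ⟨ht.2.2.1, ht.2.2.2⟩ ht'.2 (by omega)

/-- The cell `p` of the copy number `c` in the tile `(i, j)`. -/
def Ph (w h B W i j c : ℕ) (p : Cell) : Cell :=
  glob W i j (rf W i (cp w h (ofs B j) (ofs B i) c p))

theorem ofs_lt {B l : ℕ} (hB : 0 < B) : ofs B l < B := Nat.mod_lt _ hB

section

variable {w h B W : ℕ} {q : List Cell}

theorem Ph_adj (hB : 0 < B) (hW : W = B + (2 * (w + h + 4) + 4)) {i j c : ℕ} {p p' : Cell}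
    (hp : p.1 ≤ w ∧ p.2 ≤ h) (hp' : p'.1 ≤ w ∧ p'.2 ≤ h) :
    UAdj (Ph w h B W i j c p) (Ph w h B W i j c p') ↔ UAdj p p' := by
  have h1 := ofs_lt (l := i) hB
  have h2 := ofs_lt (l := j) hB
  have h3 := cp_inner (W := W) (x := ofs B j) (y := ofs B i) (c := c) hp (by omega) (by omega)
  have h4 := cp_inner (W := W) (x := ofs B j) (y := ofs B i) (c := c) hp' (by omega) (by omega)
  unfold Ph
  rw [glob_adj, rf_adj (by omega) (by omega), cp_adj]

theorem Ph_inj (hB : 0 < B) (hW : W = B + (2 * (w + h + 4) + 4)) {i j c i' j' c' : ℕ}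
    (hc : c < 4) (hc' : c' < 4) {p p' : Cell}
    (hp : p.1 ≤ w ∧ p.2 ≤ h) (hp' : p'.1 ≤ w ∧ p'.2 ≤ h)
    (he : Ph w h B W i j c p = Ph w h B W i' j' c' p') : i = i' ∧ j = j' ∧ c = c' ∧ p = p' := by
  have h1 := ofs_lt (l := i) hB
  have h2 := ofs_lt (l := j) hB
  have h1' := ofs_lt (l := i') hB
  have h2' := ofs_lt (l := j') hB
  have h3 := cp_inner (W := W) (x := ofs B j) (y := ofs B i) (c := c) hp (by omega) (by omega)
  have h4 := cp_inner (W := W) (x := ofs B j') (y := ofs B i') (c := c') hp' (by omega) (by omega)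
  have h5 := rf_inner (i := i) h3
  have h6 := rf_inner (i := i') h4
  unfold Ph at he
  have hij : i = i' ∧ j = j' := by
    unfold glob at he
    simp only [Prod.mk.injEq] at he
    exact ⟨block_eq (by omega) (by omega) he.1, block_eq (by omega) (by omega) he.2⟩
  obtain ⟨rfl, rfl⟩ := hij
  have h7 := rf_inj (by omega) (by omega) (glob_inj he)
  have h8 := cp_disj hc hc' hp hp' h7
  subst h8
  exact ⟨rfl, rfl, rfl, cp_inj h7⟩

/-- all rank cells -/
def ptsR (w h B W r : ℕ) (q : List Cell) : List Cell :=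
  (List.range r).flatMap fun j => (List.range r).flatMap fun i =>
    (tileG w h B W q i j).map (glob W i j)

theorem mem_ptsR {r : ℕ} {d : Cell} : d ∈ ptsR w h B W r q ↔
    ∃ i < r, ∃ j < r, ∃ t ∈ tileT w h W q (ofs B j) (ofs B i), d = glob W i j (rf W i t) := by
  unfold ptsR
  simp only [List.mem_flatMap, List.mem_range, List.mem_map, tileG_eq]
  constructor
  · rintro ⟨j, hj, i, hi, t, ⟨t', ht', rfl⟩, rfl⟩
    exact ⟨i, hi, j, hj, t', ht', rfl⟩
  · rintro ⟨i, hi, j, hj, t', ht', rfl⟩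
    exact ⟨j, hj, i, hi, _, ⟨t', ht', rfl⟩, rfl⟩

theorem Ph_mem {r i j c : ℕ} (hi : i < r) (hj : j < r) {p : Cell} (hp : p ∈ q) :
    Ph w h B W i j c p ∈ ptsR w h B W r q :=
  mem_ptsR.mpr ⟨i, hi, j, hj, _, cp_mem_tileT hp, rfl⟩

theorem isolG (hB : 0 < B) (hW : W = B + (2 * (w + h + 4) + 4))
    (hbox : ∀ p ∈ q, p.1 ≤ w ∧ p.2 ≤ h) {r i j c : ℕ} (hc : c < 4) :
    ∃ eL eR : Cell, ∀ p ∈ q, ∀ d ∈ ptsR w h B W r q, UAdj (Ph w h B W i j c p) d →
      (∃ p' ∈ q, d = Ph w h B W i j c p') ∨ (p = (0, 0) ∧ d = eL) ∨ (p = (w, h) ∧ d = eR) := by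
  refine ⟨glob W i j (rf W i ((cp w h (ofs B j) (ofs B i) c (0, 0)).1 - 1,
    (cp w h (ofs B j) (ofs B i) c (0, 0)).2)),
    glob W i j (rf W i ((cp w h (ofs B j) (ofs B i) c (w, h)).1 + 1,
    (cp w h (ofs B j) (ofs B i) c (w, h)).2)), ?_⟩
  intro p hp d hd hadj
  obtain ⟨i', hi', j', hj', t, ht, rfl⟩ := mem_ptsR.mp hd
  have h1 := ofs_lt (l := i) hB
  have h2 := ofs_lt (l := j) hB
  have h1' := ofs_lt (l := i') hB
  have h2' := ofs_lt (l := j') hB
  have h3 := cp_inner (W := W) (x := ofs B j) (y := ofs B i) (c := c) (hbox p hp)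
    (by omega) (by omega)
  have h4 := tileT_lt hbox (by omega) (by omega) ht
  unfold Ph at hadj
  obtain ⟨rfl, rfl⟩ := glob_near (rf_inner h3) (rf_lt h4) hadj
  rw [glob_adj, rf_adj (by omega) (by omega)] at hadj
  rcases isol hbox hc hp ht hadj with ⟨p', hp', h5⟩ | ⟨h5, h6⟩ | ⟨h5, h6⟩
  · left; exact ⟨p', hp', by rw [h5]; rfl⟩
  · right; left; exact ⟨h5, by rw [h6]⟩
  · right; right; exact ⟨h5, by rw [h6]⟩

end

end T5

end Pool.Agent.R539
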