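import Pool.Agent.R539.PS.T5a

/-!
# The no case, part two: lists, counting, parameters
-/

namespace Pool.Agent.R539

namespace T5

open Pool.Agent.NPC

/-- contiguity: a path that crosses the border of `A` only at two given pairs visits `A` in one
stretch -/
theorem contigF {f : ℕ → Cell} {n : ℕ} (hinj : ∀ i < n, ∀ j < n, f i = f j → i = j)
    {A : Cell → Prop} {s t eL eR : Cell}
    (h1 : ∀ i, i + 1 < n → A (f i) → ¬ A (f (i + 1)) →
      (f i = s ∧ f (i + 1) = eL) ∨ (f i = t ∧ f (i + 1) = eR))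
    (h2 : ∀ i, i + 1 < n → ¬ A (f i) → A (f (i + 1)) →
      (f (i + 1) = s ∧ f i = eL) ∨ (f (i + 1) = t ∧ f i = eR))
    (h0 : ¬ A (f 0)) (hn : ¬ A (f (n - 1))) (hex : ∃ i < n, A (f i)) :
    ∃ a b, a < b ∧ b < n ∧ (∀ i < n, A (f i) ↔ a ≤ i ∧ i < b) ∧
      ((f a = s ∧ f (b - 1) = t) ∨ (f a = t ∧ f (b - 1) = s)) := by
  classical
  have hex' : ∃ i, i < n ∧ A (f i) := hex
  obtain ⟨a, ⟨han, haA⟩, hamin⟩ : ∃ a, (a < n ∧ A (f a)) ∧ ∀ i < a, ¬ (i < n ∧ A (f i)) :=
    ⟨Nat.find hex', Nat.find_spec hex', fun i hi => Nat.find_min hex' hi⟩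
  have ha0 : a ≠ 0 := fun h => h0 (h ▸ haA)
  have hexb : ∃ i, a < i ∧ i < n ∧ ¬ A (f i) := by
    refine ⟨n - 1, ?_, by omega, hn⟩
    rcases Nat.lt_or_ge a (n - 1) with h3 | h3
    · exact h3
    · exact absurd haA ((show a = n - 1 by omega) ▸ hn)
  obtain ⟨b, ⟨hab, hbn, hbA⟩, hbmin⟩ : ∃ b, (a < b ∧ b < n ∧ ¬ A (f b)) ∧
      ∀ i < b, ¬ (a < i ∧ i < n ∧ ¬ A (f i)) :=
    ⟨Nat.find hexb, Nat.find_spec hexb, fun i hi => Nat.find_min hexb hi⟩
  have hmid : ∀ i, a ≤ i → i < b → A (f i) := by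
    intro i hai hib
    rcases Nat.eq_or_lt_of_le hai with h3 | h3
    · rw [← h3]; exact haA
    · by_contra h4
      exact hbmin i hib ⟨h3, by omega, h4⟩
  obtain ⟨a', rfl⟩ : ∃ a', a = a' + 1 := ⟨a - 1, by omega⟩
  obtain ⟨b', rfl⟩ : ∃ b', b = b' + 1 := ⟨b - 1, by omega⟩
  have hin := h2 a' han (fun h => hamin a' (by omega) ⟨by omega, h⟩) haA
  have hout := h1 b' hbn (hmid b' (by omega) (by omega)) hbA
  have key : (f (a' + 1) = s ∧ f b' = t) ∨ (f (a' + 1) = t ∧ f b' = s) := by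
    rcases hin with ⟨h3, h4⟩ | ⟨h3, h4⟩
    · rcases hout with ⟨h5, h6⟩ | ⟨h5, h6⟩
      · have := hinj a' (by omega) (b' + 1) hbn (h4.trans h6.symm)
        omega
      · exact Or.inl ⟨h3, h5⟩
    · rcases hout with ⟨h5, h6⟩ | ⟨h5, h6⟩
      · exact Or.inr ⟨h3, h5⟩
      · have := hinj a' (by omega) (b' + 1) hbn (h4.trans h6.symm)
        omega
  have hafter : ∀ i, b' + 1 ≤ i → i < n → ¬ A (f i) := by
    intro i hi
    induction i, hi using Nat.le_induction with
    | base => intro _; exact hbA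
    | succ i hi ih =>
      intro hin' hA
      rcases h2 i hin' (ih (by omega)) hA with ⟨h3, _⟩ | ⟨h3, _⟩
      · rcases key with ⟨h5, h6⟩ | ⟨h5, h6⟩
        · have := hinj (i + 1) hin' (a' + 1) han (h3.trans h5.symm)
          omega
        · have := hinj (i + 1) hin' b' (by omega) (h3.trans h6.symm)
          omega
      · rcases key with ⟨h5, h6⟩ | ⟨h5, h6⟩
        · have := hinj (i + 1) hin' b' (by omega) (h3.trans h6.symm)
          omega
        · have := hinj (i + 1) hin' (a' + 1) han (h3.trans h5.symm)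
          omega
  refine ⟨a' + 1, b' + 1, hab, hbn, ?_, by simpa using key⟩
  intro i hi
  constructor
  · intro hA
    constructor
    · by_contra h3
      exact hamin i (by omega) ⟨hi, hA⟩
    · by_contra h3
      exact hafter i (by omega) hi hA
  · rintro ⟨h3, h4⟩
    exact hmid i h3 h4

/-- the number of changes as a sum over the indices -/
theorem cr_eq_sum (F : Cell → Bool) (d : Cell) : ∀ l : List Cell, cr F l =
    ∑ i ∈ Finset.range (l.length - 1), if F (l.getD i d) = F (l.getD (i + 1) d) then 0 else 1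
  | [] => by simp
  | [a] => by simp
  | a :: b :: l => by
    rw [cr_cons_cons, cr_eq_sum F d (b :: l)]
    have h1 : (a :: b :: l).length - 1 = ((b :: l).length - 1) + 1 := by simp
    rw [h1, Finset.sum_range_succ']
    rw [Nat.add_comm]
    congr 1

theorem sum_thr {M a b : ℕ} (ha : a < M) (hb : b < M) :
    ∑ g ∈ Finset.Ico 1 M, (if decide (g ≤ a) = decide (g ≤ b) then 0 else 1) =
      (a - b) + (b - a) := by
  have h1 : ∑ g ∈ Finset.Ico 1 M, (if decide (g ≤ a) = decide (g ≤ b) then 0 else 1) =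
      ((Finset.Ico 1 M).filter (fun g => ¬ (decide (g ≤ a) = decide (g ≤ b)))).card := by
    rw [Finset.card_filter]
    refine Finset.sum_congr rfl (fun g _ => ?_)
    by_cases h : decide (g ≤ a) = decide (g ≤ b)
    · rw [if_pos h, if_neg (not_not.mpr h)]
    · rw [if_neg h, if_pos h]
  rw [h1]
  have h2 : (Finset.Ico 1 M).filter (fun g => ¬ (decide (g ≤ a) = decide (g ≤ b))) =
      Finset.Ioc (min a b) (max a b) := by
    ext g
    simp only [Finset.mem_filter, Finset.mem_Ico, Finset.mem_Ioc, decide_eq_decide]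
    omega
  rw [h2, Nat.card_Ioc]
  omega

/-- distance of two cells -/
def dst (p p' : Cell) : ℕ := ((p.1 - p'.1) + (p'.1 - p.1)) + ((p.2 - p'.2) + (p'.2 - p.2))

theorem dst_one {p p' : Cell} (h : dst p p' = 1) : UAdj p p' := by
  unfold dst at h; unfold UAdj; omega

theorem dst_pos {p p' : Cell} (h : p ≠ p') : 1 ≤ dst p p' := by
  unfold dst
  by_contra hcon
  apply h
  ext <;> omega

/-- total length of a path in terms of the numbers of changes -/
theorem sum_dst_le {l : List Cell} {M k : ℕ} (hl : ∀ p ∈ l, p.1 < M ∧ p.2 < M) (hM : 0 < M)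
    (hu : ∀ g, 1 ≤ g → g < M → cr (fun p : Cell => decide (g ≤ p.1)) l ≤ k)
    (hv : ∀ g, 1 ≤ g → g < M → cr (fun p : Cell => decide (g ≤ p.2)) l ≤ k) :
    ∑ i ∈ Finset.range (l.length - 1), dst (l.getD i (0, 0)) (l.getD (i + 1) (0, 0)) ≤
      2 * ((M - 1) * k) := by
  have hget : ∀ i, (l.getD i (0, 0)).1 < M ∧ (l.getD i (0, 0)).2 < M := by
    intro i
    by_cases hi : i < l.length
    · rw [List.getD_eq_getElem _ _ hi]
      exact hl _ (List.getElem_mem hi)
    · rw [List.getD_eq_default _ _ (by omega)]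
      exact ⟨hM, hM⟩
  have h1 : ∑ g ∈ Finset.Ico 1 M, cr (fun p : Cell => decide (g ≤ p.1)) l =
      ∑ i ∈ Finset.range (l.length - 1), (((l.getD i (0, 0)).1 - (l.getD (i + 1) (0, 0)).1) +
        ((l.getD (i + 1) (0, 0)).1 - (l.getD i (0, 0)).1)) := by
    simp_rw [cr_eq_sum _ ((0, 0) : Cell)]
    rw [Finset.sum_comm]
    refine Finset.sum_congr rfl (fun i _ => ?_)
    exact sum_thr (hget i).1 (hget (i + 1)).1
  have h2 : ∑ g ∈ Finset.Ico 1 M, cr (fun p : Cell => decide (g ≤ p.2)) l =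
      ∑ i ∈ Finset.range (l.length - 1), (((l.getD i (0, 0)).2 - (l.getD (i + 1) (0, 0)).2) +
        ((l.getD (i + 1) (0, 0)).2 - (l.getD i (0, 0)).2)) := by
    simp_rw [cr_eq_sum _ ((0, 0) : Cell)]
    rw [Finset.sum_comm]
    refine Finset.sum_congr rfl (fun i _ => ?_)
    exact sum_thr (hget i).2 (hget (i + 1)).2
  have h3 : ∑ g ∈ Finset.Ico 1 M, cr (fun p : Cell => decide (g ≤ p.1)) l ≤ (M - 1) * k := by
    have := Finset.sum_le_card_nsmul (Finset.Ico 1 M)
      (fun g => cr (fun p : Cell => decide (g ≤ p.1)) l) k (fun g hg => by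
        rw [Finset.mem_Ico] at hg; exact hu g hg.1 hg.2)
    simpa using this
  have h4 : ∑ g ∈ Finset.Ico 1 M, cr (fun p : Cell => decide (g ≤ p.2)) l ≤ (M - 1) * k := by
    have := Finset.sum_le_card_nsmul (Finset.Ico 1 M)
      (fun g => cr (fun p : Cell => decide (g ≤ p.2)) l) k (fun g hg => by
        rw [Finset.mem_Ico] at hg; exact hv g hg.1 hg.2)
    simpa using this
  unfold dst
  rw [Finset.sum_add_distrib, ← h1, ← h2]
  omega

theorem param_int {E b B W K Z R r k Nt bad : ℤ} (hb : 0 < b)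
    (hB : B = 4 * (E + 1) * b)
    (hW : W = B + b) (hK : K = 2 * B + 2 * E) (hR : R = 4 * W * Z) (hR0 : 0 ≤ R)
    (hr : r = 2 * B * R) (hk : k = R * K + Z) (hNt : Nt + 1 = 2 * W + 2 * E) (hr3 : 32 ≤ r)
    (hB1 : 1 ≤ B)
    (hbad : r * r * Nt + bad ≤ 2 * (r * W * k) + 1) :
    2 + 2 * bad < 4 * (r * r) := by
  have hr0 : 0 ≤ r := by linarith
  have e0 : (r : ℤ) * r = r * (2 * B * R) := by rw [← hr]
  have e1 : (4 : ℤ) * (r * W * R * B) = 2 * (r * r * W) := by
    rw [e0]; ring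
  have e2 : (4 : ℤ) * (r * W * R * E) = 2 * (r * r * E) + r * R * (4 * E * b) := by
    rw [e0, hW]; ring
  have e3 : (r : ℤ) * R * (4 * E * b) ≤ r * R * B := by
    refine mul_le_mul_of_nonneg_left ?_ (mul_nonneg hr0 hR0)
    have : B = 4 * E * b + 4 * b := by rw [hB]; ring
    linarith
  have e4 : 2 * ((r : ℤ) * R * B) = r * r := by
    rw [e0]; ring
  have e5 : 2 * (2 * ((r : ℤ) * W * Z)) = r * R := by
    rw [hR]; ring
  have e6 : 2 * ((r : ℤ) * R) ≤ r * r := by
    have h7 : R ≤ B * R := le_mul_of_one_le_left hR0 hB1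
    have h8 : 2 * R ≤ r := by
      have : r = 2 * (B * R) := by rw [hr]; ring
      linarith
    have := mul_le_mul_of_nonneg_left h8 hr0
    linarith
  have e7 : 2 * ((r : ℤ) * W * k) =
      4 * (r * W * R * B) + 4 * (r * W * R * E) + 2 * (r * W * Z) := by
    rw [hk, hK]; ring
  have e8 : (r : ℤ) * r * Nt = 2 * (r * r * W) + 2 * (r * r * E) - r * r := by
    have : (Nt : ℤ) = 2 * W + 2 * E - 1 := by linarith
    rw [this]; ring
  have e9 : (32 : ℤ) * 32 ≤ r * r := mul_le_mul hr3 hr3 (by norm_num) hr0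
  linarith

/-- the parameters -/
theorem param {E b B W K Z R r k Nt bad : ℕ} (hb : 0 < b) (hB : B = 4 * (E + 1) * b)
    (hW : W = B + b) (hK : K = 2 * B + 2 * E) (hZ : 0 < Z) (hR : R = 4 * W * Z)
    (hr : r = 2 * B * R) (hk : k = R * K + Z) (hNt : Nt + 1 = 2 * W + 2 * E)
    (hbad : r * r * Nt - 1 + bad ≤ 2 * ((r * W - 1) * k)) :
    2 + 2 * bad < 4 * (r * r) := by
  have hBpos : 4 ≤ B := by
    have h1 : 1 ≤ (E + 1) * b := Nat.mul_pos (Nat.succ_pos E) hb
    have h2 : B = 4 * ((E + 1) * b) := by rw [hB]; ring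
    omega
  have hWpos : 4 ≤ W := by omega
  have hRpos : 4 ≤ R := by
    have h1 : 1 ≤ W * Z := Nat.mul_pos (by omega) hZ
    have h2 : R = 4 * (W * Z) := by rw [hR]; ring
    omega
  have hr3 : 32 ≤ r := by
    have h1 : 4 * 4 ≤ B * R := Nat.mul_le_mul hBpos hRpos
    have h2 : r = 2 * (B * R) := by rw [hr]; ring
    omega
  have h1 : r * r * Nt + bad ≤ 2 * (r * W * k) + 1 := by
    have h2 : (r * W - 1) * k ≤ r * W * k := Nat.mul_le_mul_right _ (Nat.sub_le _ _)
    omega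
  have := param_int (E := E) (b := b) (B := B) (W := W) (K := K) (Z := Z) (R := R) (r := r)
    (k := k) (Nt := Nt) (bad := bad) (by exact_mod_cast hb)
    (by exact_mod_cast hB) (by exact_mod_cast hW) (by exact_mod_cast hK) (by exact_mod_cast hR)
    (by positivity) (by exact_mod_cast hr) (by exact_mod_cast hk) (by exact_mod_cast hNt)
    (by exact_mod_cast hr3) (by exact_mod_cast (by omega : 1 ≤ B)) (by exact_mod_cast h1)
  exact_mod_cast this

end T5

end Pool.Agent.R539
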