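import Pool.Agent.R539.PS.Gad

/-!
# The tiles
-/

namespace Pool.Agent.R539

section

variable {w h W x y : ℕ} {q : List Cell}

theorem tileT_head? : (tileT w h W q x y).head? = some (0, 0) := by
  unfold tileT
  have : (vr 0 0 (y + 2)).head? = some (0, 0) := vr_head? (by omega)
  simp only [List.append_assoc, List.head?_append, this, Option.some_or]

theorem tileT_getLast? (hx : x + 2 * (w + h + 4) + 3 ≤ W) :
    (tileT w h W q x y).getLast? = some (W - 1, W - 1) := by
  unfold tileT
  have : (hr (x + 2 + 2 * (w + h + 4)) (W - 1) (W - (x + 2 + 2 * (w + h + 4)))).getLast? =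
      some (W - 1, W - 1) := by
    rw [hr_getLast? (by omega)]
    congr 2
    omega
  rw [List.getLast?_append, this]
  rfl

theorem tileT_length (hx : x + 2 * (w + h + 4) + 3 ≤ W) (hy : y + 2 * (w + h) + 3 ≤ W) :
    (tileT w h W q x y).length + 4 * (w + h) + 5 = 2 * W + 4 * q.length := by
  unfold tileT
  simp only [List.length_append, vr_length, hr_length, tr_length, gadL_length]
  omega

theorem tileT_perm {q' : List Cell} (hq : q.Perm q') :
    (tileT w h W q x y).Perm (tileT w h W q' x y) := by
  unfold tileT
  exact (((((gadL_perm hq).map _).append_left _).append_right _).append_right _)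

theorem tileT_box (hx : x + 2 * (w + h + 4) + 3 ≤ W) (hy : y + 2 * (w + h) + 3 ≤ W)
    (hbox : ∀ p ∈ q, p.1 ≤ w ∧ p.2 ≤ h) : ∀ p ∈ tileT w h W q x y, p.1 < W ∧ p.2 < W := by
  intro p hp
  simp only [tileT, List.mem_append, mem_vr, mem_hr, mem_tr] at hp
  rcases hp with (((hp | hp) | ⟨c, hc, h1, h2⟩) | hp) | hp
  · omega
  · omega
  · have := gadL_box hbox c hc; omega
  · omega
  · omega

theorem tileT_nodup (hx : x + 2 * (w + h + 4) + 3 ≤ W) (hy : y + 2 * (w + h) + 3 ≤ W)
    (hq : q.Nodup) (hbox : ∀ p ∈ q, p.1 ≤ w ∧ p.2 ≤ h) : (tileT w h W q x y).Nodup := by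
  simp only [tileT]
  rw [List.nodup_append, List.nodup_append, List.nodup_append, List.nodup_append]
  refine ⟨⟨⟨⟨vr_nodup _ _ _, hr_nodup _ _ _, ?_⟩, tr_nodup (gadL_nodup hq hbox), ?_⟩,
    vr_nodup _ _ _, ?_⟩, hr_nodup _ _ _, ?_⟩
  · intro a ha b hb hab
    subst hab
    rw [mem_vr] at ha
    rw [mem_hr] at hb
    omega
  · intro a ha b hb hab
    subst hab
    rw [mem_tr] at hb
    rw [List.mem_append, mem_vr, mem_hr] at ha
    obtain ⟨c, hc, h1, h2⟩ := hb
    omega
  · intro a ha b hb hab
    subst hab
    rw [List.mem_append, List.mem_append, mem_vr, mem_hr, mem_tr] at ha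
    rw [mem_vr] at hb
    rcases ha with (ha | ha) | ⟨c, hc, h1, h2⟩
    · omega
    · omega
    · have := gadL_box hbox c hc; omega
  · intro a ha b hb hab
    subst hab
    rw [List.mem_append, List.mem_append, List.mem_append, mem_vr, mem_hr, mem_tr, mem_vr] at ha
    rw [mem_hr] at hb
    rcases ha with ((ha | ha) | ⟨c, hc, h1, h2⟩) | ha
    · omega
    · omega
    · have := gadL_box hbox c hc; omega
    · omega

theorem vr_chain (a b k : ℕ) : (vr a b k).IsChain (fun p q => p.1 ≤ q.1 ∧ p.2 ≤ q.2) := by
  unfold vr
  rw [List.isChain_map]
  refine ((List.isChain_range _ _).2 ?_)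
  intro m _
  simp only
  omega

theorem hr_chain (a b k : ℕ) : (hr a b k).IsChain (fun p q => p.1 ≤ q.1 ∧ p.2 ≤ q.2) := by
  unfold hr
  rw [List.isChain_map]
  refine ((List.isChain_range _ _).2 ?_)
  intro m _
  simp only
  omega

/-- crossings of the vertical lines by a tile path -/
theorem cr_tile_fst (hs : q.head? = some (0, 0)) (hbox : ∀ p ∈ q, p.1 ≤ w ∧ p.2 ≤ h)
    (hx : x + 2 * (w + h + 4) + 3 ≤ W) (hy : y + 2 * (w + h) + 3 ≤ W) (θ : ℕ) :
    cr (fun p : Cell => decide (θ ≤ p.1)) (tileT w h W q x y) ≤ 1 + exx w h q (θ - (x + 1)) := by
  have hG : ∀ p ∈ tr (x + 1) (y + 1) (gadL w h q),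
      x + 1 ≤ p.1 ∧ p.1 ≤ x + 1 + 2 * (w + h + 4) := by
    intro p hp
    rw [mem_tr] at hp
    obtain ⟨c, hc, h1, h2⟩ := hp
    have := gadL_box hbox c hc
    omega
  by_cases h1 : θ ≤ x + 1
  · -- everything after the first two runs is on the right
    refine le_trans ?_ (Nat.le_add_right 1 _)
    unfold tileT
    rw [List.append_assoc, List.append_assoc]
    refine (cr_mono_append ?_ ?_).1
    · rw [List.isChain_append]
      refine ⟨(vr_chain _ _ _).imp ?_, (hr_chain _ _ _).imp ?_, ?_⟩
      · intro a b hab
        simp only [decide_eq_true_eq]
        omega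
      · intro a b hab
        simp only [decide_eq_true_eq]
        omega
      · intro a ha b hb
        have ha' := (mem_vr.1 (List.mem_of_getLast? ha))
        have hb' := (mem_hr.1 (List.mem_of_head? hb))
        simp only [decide_eq_true_eq]
        omega
    · intro b hb
      rw [decide_eq_true_eq]
      rw [List.mem_append, List.mem_append, mem_vr, mem_hr] at hb
      rcases hb with hb | hb | hb
      · have := hG b hb; omega
      · omega
      · omega
  · by_cases h2 : θ ≤ x + 1 + 2 * (w + h + 4)
    · have hex : exx w h q (θ - (x + 1)) =
          cr (fun p : Cell => decide (θ - (x + 1) ≤ p.1)) (gadL w h q) - 1 := by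
        rw [exx, if_pos (by omega)]
      have hpos := cr_pos (f := fun p : Cell => decide (θ - (x + 1) ≤ p.1))
        (gadL_head? (w := w) (h := h) hs) (gadL_getLast? w h q) (by
          simp only [ne_eq, decide_eq_decide]
          omega)
      have key : cr (fun p : Cell => decide (θ ≤ p.1)) (tileT w h W q x y) =
          cr (fun p : Cell => decide (θ - (x + 1) ≤ p.1)) (gadL w h q) := by
        unfold tileT
        rw [List.append_assoc _ (vr _ _ _) (hr _ _ _)]
        rw [cr_append_const (c := true), cr_const_append (c := false)]
        · unfold tr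
          rw [cr_map]
          refine cr_congr fun a _ => ?_
          rw [decide_eq_decide]
          simp only
          omega
        · intro a ha
          rw [decide_eq_false_iff_not]
          rw [List.mem_append, mem_vr, mem_hr] at ha
          omega
        · intro b hb
          rw [tr_head? (gadL_head? hs), Option.some.injEq] at hb
          subst hb
          rw [decide_eq_false_iff_not]
          simp only
          omega
        · intro a ha
          rw [decide_eq_true_eq]
          rw [List.mem_append, mem_vr, mem_hr] at ha
          omega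
        · intro b hb
          rw [List.getLast?_append, tr_getLast? (gadL_getLast? w h q), Option.some_or,
            Option.some.injEq] at hb
          subst hb
          rw [decide_eq_true_eq]
          simp only
          omega
      rw [key, hex]
      omega
    · refine le_trans ?_ (Nat.le_add_right 1 _)
      unfold tileT
      rw [List.append_assoc _ (vr _ _ _) (hr _ _ _)]
      refine cr_false_append_mono ?_ ?_
      · intro a ha
        rw [decide_eq_false_iff_not]
        rw [List.mem_append, List.mem_append, mem_vr, mem_hr] at ha
        rcases ha with (ha | ha) | ha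
        · omega
        · omega
        · have := hG a ha; omega
      · rw [List.isChain_append]
        refine ⟨(vr_chain _ _ _).imp ?_, (hr_chain _ _ _).imp ?_, ?_⟩
        · intro a b hab
          simp only [decide_eq_true_eq]
          omega
        · intro a b hab
          simp only [decide_eq_true_eq]
          omega
        · intro a ha b hb
          have ha' := (mem_vr.1 (List.mem_of_getLast? ha))
          have hb' := (mem_hr.1 (List.mem_of_head? hb))
          simp only [decide_eq_true_eq]
          omega

/-- crossings of the horizontal lines by a tile path -/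
theorem cr_tile_snd (hs : q.head? = some (0, 0)) (hbox : ∀ p ∈ q, p.1 ≤ w ∧ p.2 ≤ h)
    (hx : x + 2 * (w + h + 4) + 3 ≤ W) (hy : y + 2 * (w + h) + 3 ≤ W) (θ : ℕ) :
    cr (fun p : Cell => decide (θ ≤ p.2)) (tileT w h W q x y) ≤ 1 + exy w h q (θ - (y + 1)) := by
  have hG : ∀ p ∈ tr (x + 1) (y + 1) (gadL w h q),
      y + 1 ≤ p.2 ∧ p.2 ≤ y + 1 + 2 * (w + h) := by
    intro p hp
    rw [mem_tr] at hp
    obtain ⟨c, hc, h1, h2⟩ := hp
    have := gadL_box hbox c hc
    omega
  by_cases h1 : θ ≤ y + 1
  · refine le_trans ?_ (Nat.le_add_right 1 _)
    unfold tileT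
    rw [List.append_assoc, List.append_assoc]
    refine (cr_mono_append ?_ ?_).1
    · rw [List.isChain_append]
      refine ⟨(vr_chain _ _ _).imp ?_, (hr_chain _ _ _).imp ?_, ?_⟩
      · intro a b hab
        simp only [decide_eq_true_eq]
        omega
      · intro a b hab
        simp only [decide_eq_true_eq]
        omega
      · intro a ha b hb
        have ha' := (mem_vr.1 (List.mem_of_getLast? ha))
        have hb' := (mem_hr.1 (List.mem_of_head? hb))
        simp only [decide_eq_true_eq]
        omega
    · intro b hb
      rw [decide_eq_true_eq]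
      rw [List.mem_append, List.mem_append, mem_vr, mem_hr] at hb
      rcases hb with hb | hb | hb
      · have := hG b hb; omega
      · omega
      · omega
  · by_cases h2 : θ ≤ y + 1 + 2 * (w + h)
    · have hex : exy w h q (θ - (y + 1)) =
          cr (fun p : Cell => decide (θ - (y + 1) ≤ p.2)) (gadL w h q) - 1 := by
        rw [exy, if_pos (by omega)]
      have hpos := cr_pos (f := fun p : Cell => decide (θ - (y + 1) ≤ p.2))
        (gadL_head? (w := w) (h := h) hs) (gadL_getLast? w h q) (by
          simp only [ne_eq, decide_eq_decide]
          omega)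
      have key : cr (fun p : Cell => decide (θ ≤ p.2)) (tileT w h W q x y) =
          cr (fun p : Cell => decide (θ - (y + 1) ≤ p.2)) (gadL w h q) := by
        unfold tileT
        rw [List.append_assoc _ (vr _ _ _) (hr _ _ _)]
        rw [cr_append_const (c := true), cr_const_append (c := false)]
        · unfold tr
          rw [cr_map]
          refine cr_congr fun a _ => ?_
          rw [decide_eq_decide]
          simp only
          omega
        · intro a ha
          rw [decide_eq_false_iff_not]
          rw [List.mem_append, mem_vr, mem_hr] at ha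
          omega
        · intro b hb
          rw [tr_head? (gadL_head? hs), Option.some.injEq] at hb
          subst hb
          rw [decide_eq_false_iff_not]
          simp only
          omega
        · intro a ha
          rw [decide_eq_true_eq]
          rw [List.mem_append, mem_vr, mem_hr] at ha
          omega
        · intro b hb
          rw [List.getLast?_append, tr_getLast? (gadL_getLast? w h q), Option.some_or,
            Option.some.injEq] at hb
          subst hb
          rw [decide_eq_true_eq]
          simp only
          omega
      rw [key, hex]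
      omega
    · refine le_trans ?_ (Nat.le_add_right 1 _)
      unfold tileT
      rw [List.append_assoc _ (vr _ _ _) (hr _ _ _)]
      refine cr_false_append_mono ?_ ?_
      · intro a ha
        rw [decide_eq_false_iff_not]
        rw [List.mem_append, List.mem_append, mem_vr, mem_hr] at ha
        rcases ha with (ha | ha) | ha
        · omega
        · omega
        · have := hG a ha; omega
      · rw [List.isChain_append]
        refine ⟨(vr_chain _ _ _).imp ?_, (hr_chain _ _ _).imp ?_, ?_⟩
        · intro a b hab
          simp only [decide_eq_true_eq]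
          omega
        · intro a b hab
          simp only [decide_eq_true_eq]
          omega
        · intro a ha b hb
          have ha' := (mem_vr.1 (List.mem_of_getLast? ha))
          have hb' := (mem_hr.1 (List.mem_of_head? hb))
          simp only [decide_eq_true_eq]
          omega

end

end Pool.Agent.R539
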