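import Pool.Agent.R539.PS.Tile

/-!
# Sums over windows of lanes
-/

namespace Pool.Agent.R539

theorem sum_pairs (F : ℕ → ℕ → ℕ) : ∀ B : ℕ,
    ∑ k ∈ Finset.range (2 * B), F (k / 2) (k % 2) = ∑ o ∈ Finset.range B, (F o 0 + F o 1)
  | 0 => by simp
  | B + 1 => by
    rw [Finset.sum_range_succ _ B, ← sum_pairs F B, show 2 * (B + 1) = 2 * B + 1 + 1 by ring,
      Finset.sum_range_succ, Finset.sum_range_succ]
    rw [show 2 * B / 2 = B by omega, show 2 * B % 2 = 0 by omega,
      show (2 * B + 1) / 2 = B by omega, show (2 * B + 1) % 2 = 1 by omega]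
    ring

theorem sum_window {B : ℕ} (hB : 0 < B) (F : ℕ → ℕ → ℕ) (a : ℕ) :
    ∑ l ∈ Finset.Ico (a * (2 * B)) ((a + 1) * (2 * B)), F (ofs B l) (l % 2) =
      ∑ o ∈ Finset.range B, (F o 0 + F o 1) := by
  rw [Finset.sum_Ico_eq_sum_range, ← sum_pairs]
  rw [show (a + 1) * (2 * B) - a * (2 * B) = 2 * B by rw [add_mul, one_mul]; omega]
  refine Finset.sum_congr rfl fun k hk => ?_
  rw [Finset.mem_range] at hk
  have h1 : (a * (2 * B) + k) / 2 = a * B + k / 2 := by
    rw [show a * (2 * B) + k = k + 2 * (a * B) by ring, Nat.add_mul_div_left _ _ (by omega)]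
    ring
  have h2 : (a * (2 * B) + k) % 2 = k % 2 := by
    rw [show a * (2 * B) + k = k + 2 * (a * B) by ring, Nat.add_mul_mod_self_left]
  rw [ofs, h1, h2, show a * B + k / 2 = k / 2 + B * a by ring, Nat.add_mul_mod_self_left,
    Nat.mod_eq_of_lt (by omega)]

section

variable {w h B W : ℕ} {q : List Cell}

theorem ofs_lt (hB : 0 < B) (l : ℕ) : ofs B l < B := Nat.mod_lt _ hB

theorem tileG_cr_fst (θ i j : ℕ) :
    cr (fun p : Cell => decide (θ ≤ p.1)) (tileG w h B W q i j) =
      cr (fun p : Cell => decide (θ ≤ p.1)) (tileT w h W q (ofs B j) (ofs B i)) := by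
  unfold tileG
  split_ifs
  · rfl
  · rw [cr_map]

/-- the load of a window, vertical lines -/
theorem win_fst (hB : 0 < B) (hW : W = B + (2 * (w + h + 4) + 4))
    (hc : q.IsChain UAdj) (hs : q.head? = some (0, 0)) (ht : q.getLast? = some (w, h))
    (hbox : ∀ p ∈ q, p.1 ≤ w ∧ p.2 ≤ h) (hL : w + h + 1 ≤ q.length) (i a θ : ℕ) :
    ∑ l ∈ Finset.Ico (a * (2 * B)) ((a + 1) * (2 * B)),
      cr (fun p : Cell => decide (θ ≤ p.1)) (tileG w h B W q i l) ≤
        2 * B + 2 * pE w h q.length := by
  have h1 : ∀ l, cr (fun p : Cell => decide (θ ≤ p.1)) (tileG w h B W q i l) ≤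
      1 + exx w h q (θ - (ofs B l + 1)) := by
    intro l
    rw [tileG_cr_fst]
    have := ofs_lt hB l
    have := ofs_lt hB i
    exact cr_tile_fst hs hbox (by omega) (by omega) θ
  refine le_trans (Finset.sum_le_sum fun l _ => h1 l) ?_
  rw [sum_window hB (fun o _ => 1 + exx w h q (θ - (o + 1))) a]
  have h2 := sum_shift_le B (2 * (w + h + 4)) 1 θ (exx w h q) (by
    intro t ht
    rw [Finset.mem_Icc] at ht
    rw [exx, if_neg ht])
  rw [sum_exx hc hs ht hbox hL] at h2
  rw [Finset.sum_add_distrib, Finset.sum_add_distrib]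
  simp only [Finset.sum_const, Finset.card_range, smul_eq_mul, mul_one]
  omega

/-- the load of a window, horizontal lines -/
theorem win_snd (hB : 0 < B) (hW : W = B + (2 * (w + h + 4) + 4))
    (hc : q.IsChain UAdj) (hs : q.head? = some (0, 0)) (ht : q.getLast? = some (w, h))
    (hbox : ∀ p ∈ q, p.1 ≤ w ∧ p.2 ≤ h) (hL : w + h + 1 ≤ q.length) (j a θ : ℕ) :
    ∑ l ∈ Finset.Ico (a * (2 * B)) ((a + 1) * (2 * B)),
      cr (fun p : Cell => decide (θ ≤ p.2)) (tileG w h B W q l j) ≤
        2 * B + 2 * pE w h q.length := by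
  have h1 : ∀ l, cr (fun p : Cell => decide (θ ≤ p.2)) (tileG w h B W q l j) ≤
      (fun o e => if e = 0 then 1 + exy w h q (θ - (o + 1)) else
        1 + exy w h q ((W - θ) - (o + 1))) (ofs B l) (l % 2) := by
    intro l
    have h3 := ofs_lt hB l
    have h4 := ofs_lt hB j
    simp only
    unfold tileG
    split_ifs with hl
    · exact cr_tile_snd hs hbox (by omega) (by omega) θ
    · rw [cr_map]
      refine le_trans ?_ (cr_tile_snd hs hbox (W := W) (x := ofs B j) (y := ofs B l)
        (by omega) (by omega) (W - θ))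
      by_cases hθ : θ = 0
      · rw [cr_const (c := true) (by intro a _; simp [hθ])]
        omega
      · rw [← cr_not (fun p : Cell => decide (W - θ ≤ p.2))]
        refine le_of_eq (cr_congr fun a ha => ?_)
        have := tileT_box (by omega) (by omega) hbox a ha
        rw [← decide_not, decide_eq_decide]
        omega
  refine le_trans (Finset.sum_le_sum fun l _ => h1 l) ?_
  rw [sum_window hB (fun o e => if e = 0 then 1 + exy w h q (θ - (o + 1)) else
        1 + exy w h q ((W - θ) - (o + 1))) a]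
  have h2 := sum_shift_le B (2 * (w + h)) 1 θ (exy w h q) (by
    intro t ht
    rw [Finset.mem_Icc] at ht
    rw [exy, if_neg ht])
  have h3 := sum_shift_le B (2 * (w + h)) 1 (W - θ) (exy w h q) (by
    intro t ht
    rw [Finset.mem_Icc] at ht
    rw [exy, if_neg ht])
  rw [sum_exy hc hs ht hbox hL] at h2 h3
  simp only [if_true, one_ne_zero, if_false]
  rw [Finset.sum_add_distrib, Finset.sum_add_distrib, Finset.sum_add_distrib]
  simp only [Finset.sum_const, Finset.card_range, smul_eq_mul, mul_one]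
  omega

end

end Pool.Agent.R539
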