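import Pool.Agent.R539.PS.Row
import Pool.Agent.R539.PS.Lane

/-!
# The path through all tiles
-/

namespace Pool.Agent.R539

open Classical in
/-- side of a line -/
noncomputable def sd (a b c : ℝ) (p : Cell) : Bool := decide (c < a * (p.1 : ℝ) + b * (p.2 : ℝ))

theorem stabCount_nil (a b c : ℝ) : stabCount a b c [] = 0 := rfl
theorem stabCount_single (a b c : ℝ) (p : ℚ × ℚ) : stabCount a b c [p] = 0 := rfl

open Classical in
theorem stabCount_cons (a b c : ℝ) (p p' : ℚ × ℚ) (l : List (ℚ × ℚ)) :
    stabCount a b c (p :: p' :: l) =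
      (if (a * p.1 + b * p.2 - c) * (a * p'.1 + b * p'.2 - c) < 0 then 1 else 0) +
        stabCount a b c (p' :: l) := by
  unfold stabCount
  simp only [List.tail_cons, List.zip_cons_cons, List.countP_cons, decide_eq_true_eq]
  rw [add_comm]

theorem stabCount_neg (a b c : ℝ) : ∀ P : List (ℚ × ℚ),
    stabCount (-a) (-b) (-c) P = stabCount a b c P
  | [] => rfl
  | [_] => rfl
  | p :: p' :: l => by
    rw [stabCount_cons, stabCount_cons, stabCount_neg a b c (p' :: l)]
    congr 1
    have : (-a * (p.1 : ℝ) + -b * p.2 - -c) * (-a * p'.1 + -b * p'.2 - -c) =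
        (a * p.1 + b * p.2 - c) * (a * p'.1 + b * p'.2 - c) := by ring
    rw [this]

theorem stabCount_le_cr (a b c : ℝ) : ∀ l : List Cell,
    stabCount a b c (l.map toQ) ≤ cr (sd a b c) l
  | [] => by simp [stabCount_nil]
  | [p] => by simp [stabCount_single]
  | p :: p' :: l => by
    have ih := stabCount_le_cr a b c (p' :: l)
    simp only [List.map_cons] at ih ⊢
    rw [stabCount_cons, cr_cons_cons]
    refine add_le_add ?_ ih
    split_ifs with h1 h2
    · exfalso
      simp only [toQ, Rat.cast_natCast] at h1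
      simp only [sd, decide_eq_decide] at h2
      by_cases h3 : c < a * (p.1 : ℝ) + b * (p.2 : ℝ)
      · have h4 := h2.1 h3
        have := mul_pos (sub_pos.2 h3) (sub_pos.2 h4)
        linarith
      · have h4 : ¬ (c < a * (p'.1 : ℝ) + b * (p'.2 : ℝ)) := fun h => h3 (h2.2 h)
        have h5 : a * (p.1 : ℝ) + b * (p.2 : ℝ) - c ≤ 0 := by linarith
        have h6 : a * (p'.1 : ℝ) + b * (p'.2 : ℝ) - c ≤ 0 := by linarith
        have := mul_nonneg_of_nonpos_of_nonpos h5 h6
        linarith
    all_goals omega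

/-- vertical sequences are monotone -/
theorem sd_mono_y (a b c : ℝ) (x : ℕ) (y : ℕ → ℕ) (hy : ∀ i j, i ≤ j → y i ≤ y j) :
    (∀ i j, i ≤ j → sd a b c (x, y i) = true → sd a b c (x, y j) = true) ∨
    (∀ i j, i ≤ j → sd a b c (x, y j) = true → sd a b c (x, y i) = true) := by
  rcases le_or_gt 0 b with hb | hb
  · left
    intro i j hij h
    simp only [sd, decide_eq_true_eq] at h ⊢
    have : (y i : ℝ) ≤ y j := by exact_mod_cast hy i j hij
    have := mul_le_mul_of_nonneg_left this hb
    linarith
  · right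
    intro i j hij h
    simp only [sd, decide_eq_true_eq] at h ⊢
    have : (y i : ℝ) ≤ y j := by exact_mod_cast hy i j hij
    have := mul_le_mul_of_nonpos_left this hb.le
    linarith

/-- horizontal sequences are monotone -/
theorem sd_mono_x (a b c : ℝ) (y : ℕ) (x : ℕ → ℕ) (hx : ∀ i j, i ≤ j → x i ≤ x j) :
    (∀ i j, i ≤ j → sd a b c (x i, y) = true → sd a b c (x j, y) = true) ∨
    (∀ i j, i ≤ j → sd a b c (x j, y) = true → sd a b c (x i, y) = true) := by
  rcases le_or_gt 0 a with hb | hb
  · left
    intro i j hij h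
    simp only [sd, decide_eq_true_eq] at h ⊢
    have : (x i : ℝ) ≤ x j := by exact_mod_cast hx i j hij
    have := mul_le_mul_of_nonneg_left this hb
    linarith
  · right
    intro i j hij h
    simp only [sd, decide_eq_true_eq] at h ⊢
    have : (x i : ℝ) ≤ x j := by exact_mod_cast hx i j hij
    have := mul_le_mul_of_nonpos_left this hb.le
    linarith

section

variable {w h B W r : ℕ} {q : List Cell}

theorem yc_lt {j j' : ℕ} (hj : j < j') :
    2 ^ (W * (r + 2)) * yc W r j ≤ yc W r j' := by
  unfold yc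
  rw [← pow_add]
  refine Nat.pow_le_pow_right (by omega) ?_
  have : j + 2 ≤ j' + 1 := by omega
  calc W * (r + 2) + W * (r + 2) * (j + 1) = W * (r + 2) * (j + 2) := by ring
    _ ≤ W * (r + 2) * (j' + 1) := Nat.mul_le_mul_left _ this

theorem yc_ge (j : ℕ) : 2 ^ (W * (r + 2)) ≤ yc W r j := by
  unfold yc
  refine Nat.pow_le_pow_right (by omega) ?_
  exact Nat.le_mul_of_pos_right _ (by omega)

theorem W_lt_yc (hW : 0 < W) (j : ℕ) : W < yc W r j := by
  refine lt_of_lt_of_le ?_ (yc_ge j)
  calc W < 2 ^ W := Nat.lt_two_pow_self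
    _ ≤ 2 ^ (W * (r + 2)) := Nat.pow_le_pow_right (by omega) (by nlinarith)

theorem yc_add (hW : 0 < W) {j j' : ℕ} (hj : j < j') : yc W r j + W < yc W r j' := by
  have h1 := yc_lt (W := W) (r := r) hj
  have h2 := W_lt_yc (r := r) hW j
  have h3 : 2 ≤ 2 ^ (W * (r + 2)) := by
    calc 2 = 2 ^ 1 := by norm_num
      _ ≤ 2 ^ (W * (r + 2)) := Nat.pow_le_pow_right (by omega) (by nlinarith)
  nlinarith

/-- The row with its direction. -/
def rowO (w h B W r : ℕ) (q : List Cell) (j : ℕ) : List Cell :=
  if j % 2 = 0 then rowP w h B W r q j r else (rowP w h B W r q j r).reverse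

/-- The first `n` rows. -/
def totP (w h B W r : ℕ) (q : List Cell) (n : ℕ) : List Cell :=
  (List.range n).flatMap fun j => rowO w h B W r q j

theorem totP_succ (n : ℕ) :
    totP w h B W r q (n + 1) = totP w h B W r q n ++ rowO w h B W r q n := by
  unfold totP
  rw [List.range_succ, List.flatMap_append]
  simp

theorem rowO_head? (hB : 0 < B) (hW : W = B + (2 * (w + h + 4) + 4)) (hr : 0 < r) (j : ℕ) :
    (rowO w h B W r q j).head? =
      some (if j % 2 = 0 then hdP W r 0 j else laP W r (r - 1) j) := by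
  obtain ⟨n, rfl⟩ := Nat.exists_eq_succ_of_ne_zero hr.ne'
  unfold rowO
  split_ifs with hj
  · rw [rowP_head? j (by omega)]
  · rw [List.head?_reverse, rowP_getLast? hB hW]
    rfl

theorem rowO_getLast? (hB : 0 < B) (hW : W = B + (2 * (w + h + 4) + 4)) (hr : 0 < r) (j : ℕ) :
    (rowO w h B W r q j).getLast? =
      some (if j % 2 = 0 then laP W r (r - 1) j else hdP W r 0 j) := by
  obtain ⟨n, rfl⟩ := Nat.exists_eq_succ_of_ne_zero hr.ne'
  unfold rowO
  split_ifs with hj
  · rw [rowP_getLast? hB hW]
    rfl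
  · rw [List.getLast?_reverse, rowP_head? j (by omega)]

theorem totP_getLast? (hB : 0 < B) (hW : W = B + (2 * (w + h + 4) + 4)) (hr : 0 < r) (n : ℕ) :
    (totP w h B W r q (n + 1)).getLast? =
      some (if n % 2 = 0 then laP W r (r - 1) n else hdP W r 0 n) := by
  rw [totP_succ, List.getLast?_append, rowO_getLast? hB hW hr]
  rfl

theorem cr_rowO (f : Cell → Bool) (j : ℕ) :
    cr f (rowO w h B W r q j) = cr f (rowP w h B W r q j r) := by
  unfold rowO
  split_ifs
  · rfl
  · exact cr_reverse f _

/-- the crossing number of the whole path -/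
theorem cr_totP (hB : 0 < B) (hW : W = B + (2 * (w + h + 4) + 4)) (hr : 0 < r) (f : Cell → Bool)
    (n : ℕ) : cr f (totP w h B W r q (n + 1)) ≤
      ∑ j ∈ Finset.range (n + 1), cr f (rowP w h B W r q j r) +
      (∑ j ∈ Finset.range n, chg (f (laP W r (r - 1) j)) (f (laP W r (r - 1) (j + 1))) +
       ∑ j ∈ Finset.range n, chg (f (hdP W r 0 j)) (f (hdP W r 0 (j + 1)))) := by
  induction n with
  | zero =>
    rw [totP_succ]
    simp only [totP, List.range_zero, List.flatMap_nil, List.nil_append, cr_rowO]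
    rw [zero_add, Finset.sum_range_one]
    omega
  | succ n ih =>
    have e1 := Finset.sum_range_succ (fun j => cr f (rowP w h B W r q j r)) (n + 1)
    have e2 := Finset.sum_range_succ
      (fun j => chg (f (laP W r (r - 1) j)) (f (laP W r (r - 1) (j + 1)))) n
    have e3 := Finset.sum_range_succ
      (fun j => chg (f (hdP W r 0 j)) (f (hdP W r 0 (j + 1)))) n
    rw [totP_succ, cr_append f _ _ (totP_getLast? hB hW hr n) (rowO_head? hB hW hr (n + 1)),
      cr_rowO, e1, e2, e3]
    have key : (if f (if n % 2 = 0 then laP W r (r - 1) n else hdP W r 0 n) =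
        f (if (n + 1) % 2 = 0 then hdP W r 0 (n + 1) else laP W r (r - 1) (n + 1))
        then 0 else 1) ≤ chg (f (laP W r (r - 1) n)) (f (laP W r (r - 1) (n + 1))) +
          chg (f (hdP W r 0 n)) (f (hdP W r 0 (n + 1))) := by
      by_cases hn : n % 2 = 0
      · rw [if_pos hn, if_neg (show ¬ (n + 1) % 2 = 0 by omega)]
        exact Nat.le_add_right _ _
      · rw [if_neg hn, if_pos (show (n + 1) % 2 = 0 by omega)]
        exact Nat.le_add_left _ _
    omega

/-- the crossing number of the whole path with a line -/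
theorem cr_totP_sd (hB : 0 < B) (hW : W = B + (2 * (w + h + 4) + 4)) (hr : 0 < r) (a b c : ℝ) :
    cr (sd a b c) (totP w h B W r q r) ≤
      ∑ j ∈ Finset.range r, cr (sd a b c) (rowP w h B W r q j r) + 2 := by
  obtain ⟨n, rfl⟩ := Nat.exists_eq_succ_of_ne_zero hr.ne'
  refine le_trans (cr_totP hB hW hr _ n) ?_
  have hymono : ∀ i j, i ≤ j → yc W (n + 1) i ≤ yc W (n + 1) j := by
    intro i j hij
    rcases Nat.eq_or_lt_of_le hij with rfl | hij
    · exact le_rfl
    · have := yc_add (r := n + 1) (show 0 < W by omega) hij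
      omega
  have h1 := sum_chg_le (s := fun j => sd a b c (laP W (n + 1) (n + 1 - 1) j))
    (sd_mono_y a b c _ _ (fun i j hij => Nat.add_le_add_right (hymono i j hij) _)) n
  have h2 := sum_chg_le (s := fun j => sd a b c (hdP W (n + 1) 0 j))
    (sd_mono_y a b c _ _ (fun i j hij => Nat.add_le_add_right (hymono i j hij) _)) n
  simp only [Nat.succ_eq_add_one]
  omega

/-- the crossing number of a row with a line -/
theorem cr_rowP_sd (hB : 0 < B) (hW : W = B + (2 * (w + h + 4) + 4)) (a b c : ℝ) (j n : ℕ) :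
    cr (sd a b c) (rowP w h B W r q j (n + 1)) ≤
      ∑ i ∈ Finset.range (n + 1), cr (sd a b c) (tileP w h B W r q i j) + 2 := by
  rw [cr_rowP hB hW]
  have hW0 : 0 < W := by omega
  have hxmono : ∀ i j, i ≤ j → xc W i ≤ xc W j := by
    intro i j hij
    rcases Nat.eq_or_lt_of_le hij with rfl | hij
    · exact le_rfl
    · have := xc_add hW0 hij
      omega
  have h1 := sd_mono_x a b c (yc W r j + (W - 1)) (xc W) hxmono
  have h2 := sd_mono_x a b c (yc W r j) (xc W) hxmono
  have key : ∀ i, chg (sd a b c (laP W r i j)) (sd a b c (hdP W r (i + 1) j)) ≤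
      chg (sd a b c (xc W i, yc W r j + (W - 1))) (sd a b c (xc W (i + 1), yc W r j + (W - 1))) +
      chg (sd a b c (xc W i, yc W r j)) (sd a b c (xc W (i + 1), yc W r j)) := by
    intro i
    have gen : ∀ y : ℕ, chg (sd a b c (xc W i + (W - 1), y)) (sd a b c (xc W (i + 1), y)) ≤
        chg (sd a b c (xc W i, y)) (sd a b c (xc W (i + 1), y)) := by
      intro y
      have h3 := sd_mono_x a b c y (fun k => if k = 0 then xc W i else if k = 1 then
        xc W i + (W - 1) else xc W (i + 1)) (by
          intro k l hkl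
          have := xc_add hW0 (show i < i + 1 by omega)
          split_ifs <;> omega)
      unfold chg
      split_ifs with h4 h5 h5
      · exact le_rfl
      · omega
      · exfalso
        rcases h3 with h3 | h3
        · have e1 := h3 0 1 (by omega)
          have e2 := h3 1 2 (by omega)
          simp only [if_true, one_ne_zero, if_false, OfNat.ofNat_ne_zero, OfNat.ofNat_ne_one]
            at e1 e2
          rw [h5] at e1
          apply h4
          rw [Bool.eq_iff_iff]
          exact ⟨e2, e1⟩
        · have e1 := h3 0 1 (by omega)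
          have e2 := h3 1 2 (by omega)
          simp only [if_true, one_ne_zero, if_false, OfNat.ofNat_ne_zero, OfNat.ofNat_ne_one]
            at e1 e2
          rw [h5] at e1
          apply h4
          rw [Bool.eq_iff_iff]
          exact ⟨e1, e2⟩
      · exact le_rfl
    by_cases hi : i % 2 = 0
    · have e1 : laP W r i j = (xc W i + (W - 1), yc W r j + (W - 1)) := by
        rw [laP, if_pos hi]
      have e2 : hdP W r (i + 1) j = (xc W (i + 1), yc W r j + (W - 1)) := by
        rw [hdP, if_neg (by omega)]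
      rw [e1, e2]
      exact le_trans (gen _) (Nat.le_add_right _ _)
    · have e1 : laP W r i j = (xc W i + (W - 1), yc W r j) := by
        rw [laP, if_neg hi, add_zero]
      have e2 : hdP W r (i + 1) j = (xc W (i + 1), yc W r j) := by
        rw [hdP, if_pos (by omega), add_zero]
      rw [e1, e2]
      exact le_trans (gen _) (Nat.le_add_left _ _)
  have hs := Finset.sum_le_sum (s := Finset.range n) fun i _ => key i
  rw [Finset.sum_add_distrib] at hs
  have g1 := sum_chg_le (s := fun i => sd a b c (xc W i, yc W r j + (W - 1))) h1 n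
  have g2 := sum_chg_le (s := fun i => sd a b c (xc W i, yc W r j)) h2 n
  omega

theorem tileG_perm {q' : List Cell} (hq : q.Perm q') (i j : ℕ) :
    (tileG w h B W q i j).Perm (tileG w h B W q' i j) := by
  unfold tileG
  split_ifs
  · exact tileT_perm hq
  · exact (tileT_perm hq).map _

theorem totP_perm {q' : List Cell} (hq : q.Perm q') (n : ℕ) :
    (totP w h B W r q n).Perm ((List.range n).flatMap fun j => (List.range r).flatMap fun i =>
      tileP w h B W r q' i j) := by
  unfold totP
  refine List.Perm.flatMap_left _ fun j _ => ?_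
  have h1 : (rowP w h B W r q j r).Perm ((List.range r).flatMap fun i =>
      tileP w h B W r q' i j) := by
    unfold rowP
    refine List.Perm.flatMap_left _ fun i _ => ?_
    unfold tileP
    exact (tileG_perm hq i j).map _
  unfold rowO
  split_ifs
  · exact h1
  · exact (List.reverse_perm _).trans h1

theorem tileG_length (hB : 0 < B) (hW : W = B + (2 * (w + h + 4) + 4)) (i j : ℕ) :
    (tileG w h B W q i j).length + 4 * (w + h) + 5 = 2 * W + 4 * q.length := by
  have h1 := ofs_lt hB i
  have h2 := ofs_lt hB j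
  have := tileT_length (w := w) (h := h) (W := W) (q := q) (x := ofs B j) (y := ofs B i)
    (by omega) (by omega)
  unfold tileG
  split_ifs
  · exact this
  · rw [List.length_map]; exact this

theorem tileG_nodup (hB : 0 < B) (hW : W = B + (2 * (w + h + 4) + 4)) (hq : q.Nodup)
    (hbox : ∀ p ∈ q, p.1 ≤ w ∧ p.2 ≤ h) (i j : ℕ) : (tileG w h B W q i j).Nodup := by
  have h1 := ofs_lt hB i
  have h2 := ofs_lt hB j
  have h3 := tileT_nodup (w := w) (h := h) (W := W) (q := q) (x := ofs B j) (y := ofs B i)
    (by omega) (by omega) hq hbox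
  unfold tileG
  split_ifs
  · exact h3
  · refine List.Nodup.map_on ?_ h3
    intro a ha b hb hab
    have e1 := tileT_box (by omega) (by omega) hbox a ha
    have e2 := tileT_box (by omega) (by omega) hbox b hb
    simp only [Prod.mk.injEq] at hab
    exact Prod.ext hab.1 (by omega)

theorem tileP_nodup (hB : 0 < B) (hW : W = B + (2 * (w + h + 4) + 4)) (hq : q.Nodup)
    (hbox : ∀ p ∈ q, p.1 ≤ w ∧ p.2 ≤ h) (i j : ℕ) : (tileP w h B W r q i j).Nodup := by
  unfold tileP
  refine List.Nodup.map ?_ (tileG_nodup hB hW hq hbox i j)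
  intro a b hab
  simp only [Prod.mk.injEq] at hab
  exact Prod.ext (by omega) (by omega)

theorem rowP_nodup (hB : 0 < B) (hW : W = B + (2 * (w + h + 4) + 4)) (hq : q.Nodup)
    (hbox : ∀ p ∈ q, p.1 ≤ w ∧ p.2 ≤ h) (j n : ℕ) : (rowP w h B W r q j n).Nodup := by
  have hW0 : 0 < W := by omega
  unfold rowP
  rw [List.nodup_flatMap]
  refine ⟨fun i _ => tileP_nodup hB hW hq hbox i j, ?_⟩
  refine (List.nodup_range (n := n)).imp ?_
  intro i i' hne p hp hp'
  have e1 := mem_tileP hB hW hbox p hp
  have e2 := mem_tileP hB hW hbox p hp'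
  rcases Nat.lt_or_gt_of_ne hne with h3 | h3
  · have := xc_add hW0 h3; omega
  · have := xc_add hW0 h3; omega

theorem all_nodup (hB : 0 < B) (hW : W = B + (2 * (w + h + 4) + 4)) (hq : q.Nodup)
    (hbox : ∀ p ∈ q, p.1 ≤ w ∧ p.2 ≤ h) (n : ℕ) :
    ((List.range n).flatMap fun j => (List.range r).flatMap fun i =>
      tileP w h B W r q i j).Nodup := by
  have hW0 : 0 < W := by omega
  rw [List.nodup_flatMap]
  refine ⟨fun j _ => rowP_nodup hB hW hq hbox j r, ?_⟩
  refine (List.nodup_range (n := n)).imp ?_
  intro j j' hne p hp hp'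
  obtain ⟨i, _, hi⟩ := mem_rowP.1 hp
  obtain ⟨i', _, hi'⟩ := mem_rowP.1 hp'
  have e1 := mem_tileP hB hW hbox p hi
  have e2 := mem_tileP hB hW hbox p hi'
  rcases Nat.lt_or_gt_of_ne hne with h3 | h3
  · have := yc_add (r := r) hW0 h3; omega
  · have := yc_add (r := r) hW0 h3; omega

end

end Pool.Agent.R539
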